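import Pool.Agent.Few.Iface

set_option autoImplicit false

/-!
# The machine: graph level

The world is a graph on labels with one edge of each sum `t < s`. It consists of nodes (labels
`kap 0, kap 1, ...`), far edges between nodes, closed legs, and strands. A strand is a path; each of its
ends is either an open end (which has a name) or is attached to a node. The strand with open end `x`
consists of the half strand `hs x` (read from the middle of the strand to the open end `x`) and of its
other half (the half strand of the other open end, or nothing if the strand is attached to a node).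
-/

namespace Pool.Agent.Few

/-- Status of a label: unused, completely used, or the open end `x` of a strand. -/
inductive St
  | free
  | full
  | op (x : ℕ)
  deriving DecidableEq

/-- The other end of a strand. -/
inductive End
  | nm (x : ℕ)
  | kv (k : ℕ)
  deriving DecidableEq

/-- Combinatorial data of a world: `mate x` is the other end of the strand with open end `x`, `w x` is
the length of the half strand of `x`, `kap` gives the labels of the nodes, `sk` is the skeleton of the
recipe carried out so far, `cl i = some t` if the leg from node `i` to node `i + 1` is closed and has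
`t` inner vertices, `tl` is the set of the nodes to which a strand is attached. -/
structure Cfg where
  mate : ℕ → End
  w : ℕ → ℕ
  kap : ℕ → Lab
  sk : List Stp
  cl : ℕ → Option ℕ
  tl : Finset ℕ

/-- The strand with open end `x`, read from its other end to `x`. -/
def fullS (kap : ℕ → Lab) (mate : ℕ → End) (hs : ℕ → List Lab) (x : ℕ) : List Lab :=
  (match mate x with
    | .nm y => (hs y).reverse
    | .kv k => [kap k]) ++ hs x

/-- The far edges of a recipe; the two nodes of a long leg have opposite colours. -/
def Far (a : ℕ → ℕ) (m : ℕ) (kap : ℕ → Lab) : List Stp → Prop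
  | [] => True
  | .s p :: R => Far a m kap R ∧ p < nodes R ∧ Adj a m (kap p) (kap (nodes R))
  | .l p _ :: R => Far a m kap R ∧ p < nodes R ∧ Adj a m (kap p) (kap (nodes R)) ∧
      (kap (nodes R)).1 ≠ (kap (nodes R + 1)).1

/-- The first nodes of the long legs. -/
def legsOf : List Stp → List ℕ
  | [] => []
  | .s _ :: R => legsOf R
  | .l _ _ :: R => nodes R :: legsOf R

/-- The invariant of the graph level. -/
structure Inv (s : ℕ) (st : Lab → St) (C : Cfg) (names : Finset ℕ) (used : Finset Lab)
    (hs : ℕ → List Lab) (a : ℕ → ℕ) (leg : ℕ → List Lab) : Prop where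
  names_iff : ∀ x, x ∈ names ↔ ∃ l, st l = .op x
  used_iff : ∀ l, l ∈ used ↔ st l ≠ .free
  inj : ∀ l l' x, st l = .op x → st l' = .op x → l = l'
  mate_nm : ∀ x ∈ names, ∀ y, C.mate x = .nm y → y ∈ names ∧ y ≠ x ∧ C.mate y = .nm x
  mate_kv : ∀ x ∈ names, ∀ k, C.mate x = .kv k → k < nodes C.sk ∧ k ∈ C.tl
  kv_inj : ∀ x ∈ names, ∀ y ∈ names, ∀ k, C.mate x = .kv k → C.mate y = .kv k → x = y
  tile : ∀ k ∈ C.tl, ∃ x ∈ names, C.mate x = .kv k
  chain : ∀ x ∈ names, List.IsChain (Adj a s) (fullS C.kap C.mate hs x)
  last : ∀ l x, st l = .op x → (fullS C.kap C.mate hs x).getLast? = some l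
  len : ∀ x ∈ names, (hs x).length = C.w x
  far : Far a s C.kap C.sk
  legc : ∀ i t, C.cl i = some t → i + 1 < nodes C.sk ∧ (leg i).length = t ∧
    List.IsChain (Adj a s) (C.kap i :: leg i ++ [C.kap (i + 1)])
  lego : ∀ i, C.cl i = none → leg i = []
  flat : ∑ x ∈ names, (hs x : Multiset Lab) +
      ∑ i ∈ Finset.range (nodes C.sk), ({C.kap i} + (leg i : Multiset Lab)) = used.val

/-- `G s st C`: the sums `< s` are used, the labels have status `st`, and the data `C` are realised. -/
def G (s : ℕ) (st : Lab → St) (C : Cfg) : Prop :=
  ∃ names used hs a leg, Inv s st C names used hs a leg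

end Pool.Agent.Few
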