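import Pool.Agent.Few.GBuild

set_option autoImplicit false

/-! # Recipes for rooted trees with given key vertices -/

namespace Pool.Agent.Few

open Pool.Agent.GracefulAsym Pool.Agent.GracefulLeaf

/-- adding a branch of length `b`; branches shorter than `c` are added node by node, other branches
as legs with an even number of inner vertices -/
theorem add_branch {V : Type*} (R : RT V) (c : ℕ) (hc4 : 4 ≤ c) (kap : ℕ → V) (leg : ℕ → List V)
    (R0 : List Stp) (p : ℕ) (v : V) (b : ℕ) (hb : 1 ≤ b)
    (hw : Wf R0) (he : EmbG (rel R) kap leg R0) (hn : (labsG kap leg R0).Nodup) (hp : p < nodes R0)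
    (hkp : kap p = R.par^[b] v) (hr : ∀ j < b, R.par^[j] v ≠ R.r)
    (hd : ∀ j < b, R.par^[j] v ∉ labsG kap leg R0) :
    ∃ (R' : List Stp) (kap' : ℕ → V) (leg' : ℕ → List V), Wf R' ∧ EmbG (rel R) kap' leg' R' ∧
      (labsG kap' leg' R').Nodup ∧ nodes R0 ≤ nodes R' ∧ (∀ i < nodes R0, kap' i = kap i) ∧
      (∀ x, x ∈ labsG kap' leg' R' ↔ (∃ j < b, R.par^[j] v = x) ∨ x ∈ labsG kap leg R0) ∧
      R'.length ≤ R0.length + c ∧
      (∀ t ∈ lens R', t ∈ lens R0 ∨ (Even t ∧ c ≤ b ∧ t + 2 ≤ b ∧ b ≤ t + 3)) ∧
      ∃ q < nodes R', kap' q = v := by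
  have hch := brl_chain R v b hr
  have hnd := brl_nodup R v b hr
  have hd' : ∀ y ∈ brl R v b, y ∉ labsG kap leg R0 := by
    intro y hy
    rw [mem_brl] at hy
    obtain ⟨j, hj, rfl⟩ := hy
    exact hd j hj
  by_cases hbc : b < c
  · obtain ⟨R', kap', a1, a2, a3, a4, a5, a6, a7, a8, q, a9, a10⟩ :=
      add_list (brl R v b) kap leg R0 p hw he hn hp (by rw [hkp]; exact hch) hnd hd'
    refine ⟨R', kap', leg, a1, a2, a3, a4, a5, ?_, ?_, ?_, q, a9, ?_⟩
    · intro x
      rw [a6, mem_brl]
    · rw [a8, brl_length]; omega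
    · intro t ht
      rw [a7] at ht
      exact Or.inl ht
    · rw [a10]
      obtain ⟨b', rfl⟩ : ∃ b', b = b' + 1 := ⟨b - 1, by omega⟩
      simp only [brl_succ]
      rw [List.getLast_cons (by simp), List.getLast_append_singleton]
  · rcases Nat.even_or_odd b with hev | hodd
    · obtain ⟨m, rfl⟩ : ∃ m, b = m + 2 := ⟨b - 2, by omega⟩
      have hbr : brl R v (m + 2) = R.par^[m + 1] v :: (brl R (R.par v) m ++ [v]) := by
        rw [brl, brl_succ]
      rw [hbr] at hch hnd hd'
      obtain ⟨kap', leg', a1, a2, a3, a4, a5, a6⟩ :=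
        add_leg kap leg R0 p (R.par^[m + 1] v) v (brl R (R.par v) m) hw he hn hp
          (by rw [hkp]; exact hch) hnd hd'
      rw [brl_length] at a1 a2 a3 a5
      refine ⟨_, kap', leg', a1, a2, a3, ?_, a4, ?_, ?_, ?_, nodes R0 + 1, ?_, a6⟩
      · simp only [nodes]; omega
      · intro x
        rw [a5, ← hbr, mem_brl]
      · simp only [List.length_cons]; omega
      · intro t ht
        simp only [lens, List.mem_cons] at ht
        rcases ht with rfl | ht
        · right
          refine ⟨?_, by omega, by omega, by omega⟩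
          have : Even (t + 2) ↔ Even t := by simp [Nat.even_add]
          exact this.1 hev
        · exact Or.inl ht
      · simp only [nodes]; omega
    · obtain ⟨m, rfl⟩ : ∃ m, b = m + 3 := ⟨b - 3, by omega⟩
      have hbr : brl R v (m + 3) =
          R.par^[m + 2] v :: R.par^[m + 1] v :: (brl R (R.par v) m ++ [v]) := by
        rw [brl, brl, brl_succ]
      rw [hbr] at hch hnd hd'
      rw [List.isChain_cons_cons] at hch
      rw [List.nodup_cons] at hnd
      obtain ⟨kap1, b1, b2, b3, b4, b5, b6⟩ := add_one hw he hn hp (y := R.par^[m + 2] v)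
        (by rw [hkp]; exact hch.1) (hd' _ (by simp))
      have hnn : nodes (.s p :: R0) = nodes R0 + 1 := rfl
      obtain ⟨kap', leg', a1, a2, a3, a4, a5, a6⟩ :=
        add_leg kap1 leg (.s p :: R0) (nodes R0) (R.par^[m + 1] v) v (brl R (R.par v) m) b1 b2 b3
          (by omega) (by rw [b5]; exact hch.2) hnd.2 (by
            intro y hy hy'
            rw [b6] at hy'
            rcases hy' with rfl | hy'
            · exact hnd.1 hy
            · exact hd' y (List.mem_cons_of_mem _ hy) hy')
      rw [brl_length] at a1 a2 a3 a5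
      refine ⟨_, kap', leg', a1, a2, a3, ?_, ?_, ?_, ?_, ?_, nodes (.s p :: R0) + 1, ?_, a6⟩
      · simp only [nodes]; omega
      · intro i hi
        rw [a4 i (by omega), b4 i hi]
      · intro x
        rw [a5, b6, ← mem_brl, hbr]
        simp only [List.mem_cons, List.mem_append, List.not_mem_nil, or_false]
        tauto
      · simp only [List.length_cons]; omega
      · intro t ht
        simp only [lens, List.mem_cons] at ht
        rcases ht with rfl | ht
        · right
          refine ⟨?_, by omega, by omega, by omega⟩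
          rcases Nat.even_or_odd t with h | h
          · exact h
          · exfalso
            rw [Nat.odd_iff] at hodd h
            omega
        · exact Or.inl ht
      · simp only [nodes]; omega

/-- the recipe of a set of key vertices closed under the map next key vertex above -/
theorem build {V : Type*} [DecidableEq V] {R : RT V} {K : V → Prop} (hK : Keys R K) (c : ℕ)
    (hc4 : 4 ≤ c) (r0 : V) :
    ∀ (n : ℕ) (D : Finset V), D.card = n → r0 ∈ D → (∀ v ∈ D, K v) →
      (∀ v ∈ D, v ≠ r0 → v ≠ R.r ∧ R.par^[klen R K v] v ∈ D) →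
      ∃ (R0 : List Stp) (kap : ℕ → V) (leg : ℕ → List V), Wf R0 ∧ EmbG (rel R) kap leg R0 ∧
        kap 0 = r0 ∧ (labsG kap leg R0).Nodup ∧
        (∀ x, x ∈ labsG kap leg R0 ↔ x = r0 ∨
          ∃ v ∈ D, v ≠ r0 ∧ ∃ j < klen R K v, R.par^[j] v = x) ∧
        (∀ v ∈ D, ∃ q < nodes R0, kap q = v) ∧ R0.length ≤ D.card * c ∧
        ∀ t ∈ lens R0, Even t ∧ ∃ v ∈ D, v ≠ r0 ∧ c ≤ klen R K v ∧ t + 2 ≤ klen R K v ∧
          klen R K v ≤ t + 3 := by
  intro n
  induction n with
  | zero =>
    intro D hD h0 _ _
    rw [Finset.card_eq_zero] at hD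
    rw [hD] at h0
    simp at h0
  | succ n ih =>
    intro D hD h0 hDK hcl
    by_cases hE : (D.erase r0).Nonempty
    · obtain ⟨v, hv, hmax⟩ := Finset.exists_max_image (D.erase r0) R.dep hE
      rw [Finset.mem_erase] at hv
      obtain ⟨hvr0, hvD⟩ := hv
      obtain ⟨hvr, hkD⟩ := hcl v hvD hvr0
      have hcard : (D.erase v).card = n := by
        rw [Finset.card_erase_of_mem hvD]; omega
      have hne : ∀ u ∈ D, u ≠ r0 → R.par^[klen R K u] u ≠ v := by
        intro u hu hur h
        have h1 := kpar_dep hK (hcl u hu hur).1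
        have h2 := hmax u (Finset.mem_erase.2 ⟨hur, hu⟩)
        rw [h] at h1
        omega
      obtain ⟨R0, kap, leg, a1, a2, a3, a4, a5, a6, a7, a8⟩ := ih (D.erase v) hcard
        (Finset.mem_erase.2 ⟨fun h => hvr0 h.symm, h0⟩)
        (fun u hu => hDK u (Finset.mem_of_mem_erase hu))
        (fun u hu hur => ⟨(hcl u (Finset.mem_of_mem_erase hu) hur).1,
          Finset.mem_erase.2 ⟨hne u (Finset.mem_of_mem_erase hu) hur,
            (hcl u (Finset.mem_of_mem_erase hu) hur).2⟩⟩)
      obtain ⟨p, hp, hkp⟩ := a6 (R.par^[klen R K v] v)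
        (Finset.mem_erase.2 ⟨hne v hvD hvr0, hkD⟩)
      obtain ⟨R', kap', leg', b1, b2, b3, b4, b5, b6, b7, b8, q, b9, b10⟩ :=
        add_branch R c hc4 kap leg R0 p v (klen R K v) (klen_pos v) a1 a2 a4 hp hkp
          (fun j hj => ne_root hK hvr hj) (by
            intro j hj hm
            rw [a5] at hm
            rcases hm with hm | ⟨u, hu, hur, i, hi, hui⟩
            · rcases Nat.eq_zero_or_pos j with rfl | hj0
              · exact hvr0 hm
              · have := klen_min hK hvr hj0 hj
                rw [hm] at this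
                exact this (hDK r0 h0)
            · rw [Finset.mem_erase] at hu
              have := (key_inj hK (hcl u hu.2 hur).1 hvr (hDK u hu.2) (hDK v hvD) i j hi hj hui).1
              exact hu.1 this)
      refine ⟨R', kap', leg', b1, b2, ?_, b3, ?_, ?_, ?_, ?_⟩
      · rw [b5 0 (by
          cases R0 with
          | nil => simp [nodes]
          | cons x R => cases x <;> simp [nodes]), a3]
      · intro x
        rw [b6, a5]
        constructor
        · rintro (⟨j, hj, rfl⟩ | rfl | ⟨u, hu, hur, i, hi, rfl⟩)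
          · exact Or.inr ⟨v, hvD, hvr0, j, hj, rfl⟩
          · exact Or.inl rfl
          · exact Or.inr ⟨u, Finset.mem_of_mem_erase hu, hur, i, hi, rfl⟩
        · rintro (rfl | ⟨u, hu, hur, i, hi, rfl⟩)
          · exact Or.inr (Or.inl rfl)
          · by_cases huv : u = v
            · subst huv
              exact Or.inl ⟨i, hi, rfl⟩
            · exact Or.inr (Or.inr ⟨u, Finset.mem_erase.2 ⟨huv, hu⟩, hur, i, hi, rfl⟩)
      · intro u hu
        by_cases huv : u = v
        · subst huv
          exact ⟨q, b9, b10⟩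
        · obtain ⟨q', hq', hq''⟩ := a6 u (Finset.mem_erase.2 ⟨huv, hu⟩)
          exact ⟨q', by omega, by rw [b5 q' hq', hq'']⟩
      · rw [hcard] at a7
        rw [hD]
        calc R'.length ≤ R0.length + c := b7
          _ ≤ n * c + c := by omega
          _ = (n + 1) * c := by ring
      · intro t ht
        rcases b8 t ht with ht | ht
        · obtain ⟨h1, u, hu, h2⟩ := a8 t ht
          exact ⟨h1, u, Finset.mem_of_mem_erase hu, h2⟩
        · exact ⟨ht.1, v, hvD, hvr0, ht.2⟩
    · have hDr : ∀ v ∈ D, v = r0 := by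
        intro v hv
        by_contra h
        exact hE ⟨v, Finset.mem_erase.2 ⟨h, hv⟩⟩
      refine ⟨[], fun _ => r0, fun _ => [], trivial, trivial, rfl, by simp [labsG], ?_, ?_, ?_, ?_⟩
      · intro x
        simp only [labsG, List.mem_cons, List.not_mem_nil, or_false]
        constructor
        · intro h
          exact Or.inl h
        · rintro (h | ⟨v, hv, hv', _⟩)
          · exact h
          · exact absurd (hDr v hv) hv'
      · intro v hv
        exact ⟨0, by simp [nodes], (hDr v hv).symm⟩
      · simp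
      · intro t ht
        simp [lens] at ht

end Pool.Agent.Few
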