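import Pool.Agent.Few.GTransfer
import Pool.Agent.GracefulLeaf.Chains

set_option autoImplicit false

/-! # Branches of a rooted tree and recipes -/

namespace Pool.Agent.Few

open Pool.Agent.GracefulAsym Pool.Agent.GracefulLeaf

theorem embG_congr {α : Type*} {r : α → α → Prop} {kap kap' : ℕ → α} {leg leg' : ℕ → List α} :
    ∀ (R : List Stp), Wf R → (∀ i < nodes R, kap i = kap' i) → (∀ i < nodes R, leg i = leg' i) →
      (EmbG r kap leg R ↔ EmbG r kap' leg' R) ∧ labsG kap leg R = labsG kap' leg' R := by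
  intro R
  induction R with
  | nil =>
    intro _ h1 _
    refine ⟨Iff.rfl, ?_⟩
    simp only [labsG, h1 0 (by simp [nodes])]
  | cons x R ih =>
    cases x with
    | s p =>
      intro hw h1 h2
      simp only [nodes] at h1 h2
      obtain ⟨i1, i2⟩ := ih hw.1 (fun i hi => h1 i (by omega)) (fun i hi => h2 i (by omega))
      have := hw.2
      refine ⟨?_, ?_⟩
      · simp only [EmbG, i1, h1 p (by omega), h1 (nodes R) (by omega)]
      · simp only [labsG, i2, h1 (nodes R) (by omega)]
    | l p t =>
      intro hw h1 h2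
      simp only [nodes] at h1 h2
      obtain ⟨i1, i2⟩ := ih hw.1 (fun i hi => h1 i (by omega)) (fun i hi => h2 i (by omega))
      have := hw.2
      refine ⟨?_, ?_⟩
      · simp only [EmbG, i1, h1 p (by omega), h1 (nodes R) (by omega), h1 (nodes R + 1) (by omega),
          h2 (nodes R) (by omega)]
      · simp only [labsG, i2, h1 (nodes R) (by omega), h1 (nodes R + 1) (by omega),
          h2 (nodes R) (by omega)]

/-- adding one node -/
theorem add_one {α : Type*} {r : α → α → Prop} {kap : ℕ → α} {leg : ℕ → List α} {R : List Stp}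
    (hw : Wf R) (he : EmbG r kap leg R) (hn : (labsG kap leg R).Nodup) {p : ℕ} (hp : p < nodes R)
    {y : α} (hr : r (kap p) y) (hy : y ∉ labsG kap leg R) :
    ∃ kap' : ℕ → α, Wf (.s p :: R) ∧ EmbG r kap' leg (.s p :: R) ∧
      (labsG kap' leg (.s p :: R)).Nodup ∧ (∀ i < nodes R, kap' i = kap i) ∧
      kap' (nodes R) = y ∧ ∀ x, x ∈ labsG kap' leg (.s p :: R) ↔ x = y ∨ x ∈ labsG kap leg R := by
  let kap' : ℕ → α := fun i => if i < nodes R then kap i else y
  have h1 : ∀ i < nodes R, kap i = kap' i := by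
    intro i hi
    simp only [kap', hi, if_true]
  have h2 : kap' (nodes R) = y := by simp [kap']
  obtain ⟨c1, c2⟩ := embG_congr (r := r) (leg := leg) (leg' := leg) R hw h1 (fun _ _ => rfl)
  refine ⟨kap', ⟨hw, hp⟩, ⟨c1.1 he, ?_⟩, ?_, fun i hi => (h1 i hi).symm, h2, ?_⟩
  · rw [h2, ← h1 p hp]
    exact hr
  · simp only [labsG, ← c2, h2, List.nodup_cons]
    exact ⟨hy, hn⟩
  · intro x
    simp only [labsG, ← c2, h2, List.mem_cons]

/-- adding a list of nodes -/
theorem add_list {α : Type*} {r : α → α → Prop} :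
    ∀ (ys : List α) (kap : ℕ → α) (leg : ℕ → List α) (R : List Stp) (p : ℕ),
      Wf R → EmbG r kap leg R → (labsG kap leg R).Nodup → p < nodes R →
      List.IsChain r (kap p :: ys) → ys.Nodup → (∀ y ∈ ys, y ∉ labsG kap leg R) →
      ∃ (R' : List Stp) (kap' : ℕ → α), Wf R' ∧ EmbG r kap' leg R' ∧ (labsG kap' leg R').Nodup ∧
        nodes R ≤ nodes R' ∧ (∀ i < nodes R, kap' i = kap i) ∧
        (∀ x, x ∈ labsG kap' leg R' ↔ x ∈ ys ∨ x ∈ labsG kap leg R) ∧
        lens R' = lens R ∧ R'.length = R.length + ys.length ∧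
        ∃ q < nodes R', kap' q = (kap p :: ys).getLast (by simp) := by
  intro ys
  induction ys with
  | nil =>
    intro kap leg R p hw he hn hp _ _ _
    exact ⟨R, kap, hw, he, hn, le_refl _, fun _ _ => rfl, by simp, rfl, by simp, p, hp, rfl⟩
  | cons y ys ih =>
    intro kap leg R p hw he hn hp hc hy hd
    rw [List.isChain_cons_cons] at hc
    rw [List.nodup_cons] at hy
    obtain ⟨kap', a1, a2, a3, a4, a5, a6⟩ := add_one hw he hn hp hc.1 (hd y (by simp))
    have hn1 : nodes (.s p :: R) = nodes R + 1 := rfl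
    obtain ⟨R'', kap'', b1, b2, b3, b4, b5, b6, b7, b8, q, b9, b10⟩ :=
      ih kap' leg (.s p :: R) (nodes R) a1 a2 a3 (by omega) (by rw [a5]; exact hc.2) hy.2 (by
        intro z hz hz'
        rw [a6] at hz'
        rcases hz' with rfl | hz'
        · exact hy.1 hz
        · exact hd z (by simp [hz]) hz')
    refine ⟨R'', kap'', b1, b2, b3, by omega, ?_, ?_, ?_, ?_, q, b9, ?_⟩
    · intro i hi
      rw [b5 i (by omega), a4 i hi]
    · intro x
      rw [b6, a6, List.mem_cons]
      tauto
    · rw [b7]; rfl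
    · rw [b8, List.length_cons, List.length_cons]; omega
    · rw [b10]
      simp only [a5]
      rw [List.getLast_cons (a := kap p) (by simp)]

/-- adding a leg -/
theorem add_leg {α : Type*} {r : α → α → Prop} (kap : ℕ → α) (leg : ℕ → List α) (R : List Stp)
    (p : ℕ) (w v : α) (mid : List α)
    (hw : Wf R) (he : EmbG r kap leg R) (hn : (labsG kap leg R).Nodup) (hp : p < nodes R)
    (hc : List.IsChain r (kap p :: w :: (mid ++ [v]))) (hy : (w :: (mid ++ [v])).Nodup)
    (hd : ∀ y ∈ w :: (mid ++ [v]), y ∉ labsG kap leg R) :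
    ∃ (kap' : ℕ → α) (leg' : ℕ → List α), Wf (.l p mid.length :: R) ∧
      EmbG r kap' leg' (.l p mid.length :: R) ∧
      (labsG kap' leg' (.l p mid.length :: R)).Nodup ∧
      (∀ i < nodes R, kap' i = kap i) ∧
      (∀ x, x ∈ labsG kap' leg' (.l p mid.length :: R) ↔
        x ∈ w :: (mid ++ [v]) ∨ x ∈ labsG kap leg R) ∧
      kap' (nodes R + 1) = v := by
  let kap' : ℕ → α := fun i => if i < nodes R then kap i else if i = nodes R then w else v
  let leg' : ℕ → List α := fun i => if i < nodes R then leg i else mid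
  have h1 : ∀ i < nodes R, kap i = kap' i := by
    intro i hi
    simp only [kap', hi, if_true]
  have h1' : ∀ i < nodes R, leg i = leg' i := by
    intro i hi
    simp only [leg', hi, if_true]
  have h2 : kap' (nodes R) = w := by simp [kap']
  have h3 : kap' (nodes R + 1) = v := by
    simp only [kap']
    rw [if_neg (by omega), if_neg (by omega)]
  have h4 : leg' (nodes R) = mid := by simp [leg']
  obtain ⟨c1, c2⟩ := embG_congr (r := r) R hw h1 h1'
  rw [List.isChain_cons_cons] at hc
  refine ⟨kap', leg', ⟨hw, hp⟩, ⟨c1.1 he, ?_, ?_, ?_⟩, ?_, fun i hi => (h1 i hi).symm, ?_, h3⟩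
  · rw [h2, ← h1 p hp]
    exact hc.1
  · rw [h2, h3, h4]
    exact hc.2
  · rw [h4]
  · simp only [labsG, ← c2, h2, h3, h4]
    rw [List.nodup_cons] at hy
    rw [List.nodup_append] at hy
    have hd1 := hd w (by simp)
    have hd2 := hd v (by simp)
    rw [List.nodup_cons, List.nodup_cons, List.nodup_append]
    have hwm : w ∉ mid := fun h => hy.1 (by simp [h])
    have hwv : w ≠ v := by
      rintro rfl
      exact hy.1 (by simp)
    have hvm : v ∉ mid := fun h => (hy.2.2.2 v h v (by simp)) rfl
    refine ⟨?_, ?_, hy.2.1, hn, ?_⟩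
    · simp only [List.mem_cons, List.mem_append, not_or]
      exact ⟨hwv, hwm, hd1⟩
    · simp only [List.mem_append, not_or]
      exact ⟨hvm, hd2⟩
    · rintro a ha b hb rfl
      exact hd a (by simp [ha]) hb
  · intro x
    simp only [labsG, ← c2, h2, h3, h4, List.mem_cons, List.mem_append, List.not_mem_nil, or_false]
    tauto

section

variable {V : Type*} (R : RT V)

/-- the list `par^[n-1] v, ..., par v, v` -/
def brl (v : V) : ℕ → List V
  | 0 => []
  | n + 1 => R.par^[n] v :: brl v n

theorem brl_length (v : V) (n : ℕ) : (brl R v n).length = n := by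
  induction n with
  | zero => rfl
  | succ n ih => simp [brl, ih]

theorem mem_brl (v : V) (n : ℕ) (x : V) : x ∈ brl R v n ↔ ∃ j < n, R.par^[j] v = x := by
  induction n with
  | zero => simp [brl]
  | succ n ih =>
    simp only [brl, List.mem_cons, ih]
    constructor
    · rintro (rfl | ⟨j, hj, rfl⟩)
      · exact ⟨n, by omega, rfl⟩
      · exact ⟨j, by omega, rfl⟩
    · rintro ⟨j, hj, rfl⟩
      rcases Nat.lt_succ_iff_lt_or_eq.1 hj with hj | rfl
      · exact Or.inr ⟨j, hj, rfl⟩
      · exact Or.inl rfl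

theorem brl_chain (v : V) (n : ℕ) (h : ∀ j < n, R.par^[j] v ≠ R.r) :
    List.IsChain (rel R) (R.par^[n] v :: brl R v n) := by
  induction n with
  | zero => simp [brl]
  | succ n ih =>
    simp only [brl]
    rw [List.isChain_cons_cons]
    refine ⟨⟨h n (by omega), ?_⟩, ih fun j hj => h j (by omega)⟩
    rw [Function.iterate_succ_apply']

theorem brl_nodup (v : V) (n : ℕ) (h : ∀ j < n, R.par^[j] v ≠ R.r) : (brl R v n).Nodup := by
  induction n with
  | zero => simp [brl]
  | succ n ih =>
    simp only [brl, List.nodup_cons]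
    refine ⟨?_, ih fun j hj => h j (by omega)⟩
    rw [mem_brl]
    rintro ⟨j, hj, hj'⟩
    have h1 := dep_iter R v j fun i hi => h i (by omega)
    have h2 := dep_iter R v n fun i hi => h i (by omega)
    rw [hj'] at h1
    omega

theorem brl_succ (v : V) (n : ℕ) : brl R v (n + 1) = brl R (R.par v) n ++ [v] := by
  induction n with
  | zero => simp [brl]
  | succ n ih =>
    rw [brl, ih, brl]
    simp only [List.cons_append, Function.iterate_succ_apply]

/-- the key vertices contain the root, and every other vertex has exactly one child -/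
structure Keys (R : RT V) (K : V → Prop) : Prop where
  root : K R.r
  uniq : ∀ x, ¬ K x → ∀ c c', c ≠ R.r → c' ≠ R.r → R.par c = x → R.par c' = x → c = c'
  ex : ∀ x, ¬ K x → ∃ c, c ≠ R.r ∧ R.par c = x

variable {R} {K : V → Prop}

theorem exists_klen (hK : Keys R K) (v : V) (hv : v ≠ R.r) : ∃ j, 1 ≤ j ∧ K (R.par^[j] v) := by
  have key : ∀ n, ∀ v, R.dep v = n → v ≠ R.r → ∃ j, 1 ≤ j ∧ K (R.par^[j] v) := by
    intro n
    induction n with
    | zero =>
      intro v h1 h2
      have := R.dep_par v h2
      omega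
    | succ n ih =>
      intro v h1 h2
      by_cases h3 : K (R.par v)
      · exact ⟨1, le_refl _, h3⟩
      · have h4 : R.par v ≠ R.r := by
          intro h5
          rw [h5] at h3
          exact h3 hK.root
        obtain ⟨j, hj, hj'⟩ := ih (R.par v) (by have := R.dep_par v h2; omega) h4
        exact ⟨j + 1, by omega, by rw [Function.iterate_succ_apply]; exact hj'⟩
  exact key _ v rfl hv

open Classical in
/-- length of the branch above `v` -/
noncomputable def klen (R : RT V) (K : V → Prop) (v : V) : ℕ :=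
  if h : ∃ j, 1 ≤ j ∧ K (R.par^[j] v) then Nat.find h else 1

theorem klen_pos (v : V) : 1 ≤ klen R K v := by
  classical
  unfold klen
  split_ifs with h
  · exact (Nat.find_spec h).1
  · exact le_refl _

theorem klen_K (hK : Keys R K) {v : V} (hv : v ≠ R.r) : K (R.par^[klen R K v] v) := by
  classical
  unfold klen
  rw [dif_pos (exists_klen hK v hv)]
  exact (Nat.find_spec (exists_klen hK v hv)).2

theorem klen_min (hK : Keys R K) {v : V} (hv : v ≠ R.r) {j : ℕ} (h1 : 1 ≤ j)
    (h2 : j < klen R K v) : ¬ K (R.par^[j] v) := by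
  classical
  unfold klen at h2
  rw [dif_pos (exists_klen hK v hv)] at h2
  intro h3
  exact Nat.find_min (exists_klen hK v hv) h2 ⟨h1, h3⟩

theorem klen_le (hK : Keys R K) {v : V} (hv : v ≠ R.r) {j : ℕ} (h1 : 1 ≤ j)
    (h2 : K (R.par^[j] v)) : klen R K v ≤ j := by
  by_contra h3
  exact klen_min hK hv h1 (by omega) h2

theorem klen_eq (hK : Keys R K) {v : V} (hv : v ≠ R.r) {b : ℕ} (h1 : 1 ≤ b)
    (h2 : K (R.par^[b] v)) (h3 : ∀ j, 1 ≤ j → j < b → ¬ K (R.par^[j] v)) : klen R K v = b := by
  apply le_antisymm (klen_le hK hv h1 h2)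
  by_contra h4
  exact h3 _ (klen_pos v) (by omega) (klen_K hK hv)

theorem ne_root (hK : Keys R K) {v : V} (hv : v ≠ R.r) {j : ℕ} (h2 : j < klen R K v) :
    R.par^[j] v ≠ R.r := by
  rcases Nat.eq_zero_or_pos j with rfl | hj
  · exact hv
  · intro h
    have := klen_min hK hv hj h2
    rw [h] at this
    exact this hK.root

theorem key_inj (hK : Keys R K) {v v' : V} (hv : v ≠ R.r) (hv' : v' ≠ R.r) (kv : K v)
    (kv' : K v') : ∀ j j', j < klen R K v → j' < klen R K v' → R.par^[j] v = R.par^[j'] v' →
      v = v' ∧ j = j' := by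
  intro j
  induction j with
  | zero =>
    intro j' _ h2 h3
    rcases Nat.eq_zero_or_pos j' with rfl | hj
    · exact ⟨h3, rfl⟩
    · exfalso
      have := klen_min hK hv' hj h2
      rw [← h3] at this
      exact this kv
  | succ j ih =>
    intro j' h1 h2 h3
    have h4 := klen_min hK hv (Nat.succ_pos j) h1
    rcases Nat.eq_zero_or_pos j' with rfl | hj
    · exfalso
      rw [h3] at h4
      exact h4 kv'
    · obtain ⟨i, rfl⟩ : ∃ i, j' = i + 1 := ⟨j' - 1, by omega⟩
      have h5 := hK.uniq _ h4 (R.par^[j] v) (R.par^[i] v') (ne_root hK hv (by omega))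
        (ne_root hK hv' (by omega)) (Function.iterate_succ_apply' _ _ _).symm
        (by rw [h3]; exact (Function.iterate_succ_apply' _ _ _).symm)
      obtain ⟨h6, h7⟩ := ih i (by omega) (by omega) h5
      exact ⟨h6, by omega⟩

theorem cover [Fintype V] (hK : Keys R K) (x : V) (hx : x ≠ R.r) :
    ∃ v, K v ∧ v ≠ R.r ∧ ∃ j < klen R K v, R.par^[j] v = x := by
  have key : ∀ n, ∀ x, Finset.univ.sup R.dep - R.dep x = n → x ≠ R.r →
      ∃ v, K v ∧ v ≠ R.r ∧ ∃ j < klen R K v, R.par^[j] v = x := by
    intro n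
    induction n using Nat.strong_induction_on with
    | _ n ih =>
      intro x hn hx
      by_cases kx : K x
      · exact ⟨x, kx, hx, 0, klen_pos x, rfl⟩
      · obtain ⟨c, hc, hcx⟩ := hK.ex x kx
        have h2 := R.dep_par c hc
        have h3 : R.dep c ≤ Finset.univ.sup R.dep := Finset.le_sup (Finset.mem_univ c)
        rw [hcx] at h2
        obtain ⟨v, kv, hv, j, hj, hjc⟩ :=
          ih (Finset.univ.sup R.dep - R.dep c) (by omega) c rfl hc
        refine ⟨v, kv, hv, j + 1, ?_, ?_⟩
        · rcases Nat.lt_or_ge (j + 1) (klen R K v) with h | h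
          · exact h
          · exfalso
            have h4 : j + 1 = klen R K v := by omega
            have h5 := klen_K hK hv
            rw [← h4, Function.iterate_succ_apply', hjc, hcx] at h5
            exact kx h5
        · rw [Function.iterate_succ_apply', hjc, hcx]
  exact key _ x rfl hx

theorem kpar_dep (hK : Keys R K) {v : V} (hv : v ≠ R.r) :
    R.dep (R.par^[klen R K v] v) < R.dep v := by
  have h1 := dep_iter R v (klen R K v) fun j hj => ne_root hK hv hj
  have h2 := klen_pos (R := R) (K := K) v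
  omega

end

end Pool.Agent.Few
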