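import Pool.Agent.Few.Iface

set_option autoImplicit false

/-! # Recipes embedded into an arbitrary relation; transfer between two embeddings -/

namespace Pool.Agent.Few

variable {α β : Type*}

/-- An embedding of the tree of a recipe for a general relation `r`. -/
def EmbG (r : α → α → Prop) (kap : ℕ → α) (leg : ℕ → List α) : List Stp → Prop
  | [] => True
  | .s p :: R => EmbG r kap leg R ∧ r (kap p) (kap (nodes R))
  | .l p t :: R => EmbG r kap leg R ∧ r (kap p) (kap (nodes R)) ∧
      List.IsChain r (kap (nodes R) :: leg (nodes R) ++ [kap (nodes R + 1)]) ∧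
      (leg (nodes R)).length = t

/-- All elements used by an embedding. -/
def labsG (kap : ℕ → α) (leg : ℕ → List α) : List Stp → List α
  | [] => [kap 0]
  | .s _ :: R => kap (nodes R) :: labsG kap leg R
  | .l _ _ :: R => kap (nodes R) :: kap (nodes R + 1) :: (leg (nodes R) ++ labsG kap leg R)

theorem emb_iff (a : ℕ → ℕ) (m : ℕ) (kap : ℕ → Lab) (leg : ℕ → List Lab) (R : List Stp) :
    Emb a m kap leg R ↔ EmbG (Adj a m) kap leg R := by
  induction R with
  | nil => exact Iff.rfl
  | cons x R ih => cases x <;> simp only [Emb, EmbG, ih]

theorem labs_eq (kap : ℕ → Lab) (leg : ℕ → List Lab) (R : List Stp) :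
    labs kap leg R = labsG kap leg R := by
  induction R with
  | nil => rfl
  | cons x R ih => cases x <;> simp only [labs, labsG, ih]

theorem labsG_length {r : α → α → Prop} {kap : ℕ → α} {leg : ℕ → List α} {R : List Stp}
    (h : EmbG r kap leg R) : (labsG kap leg R).length = size R + 1 := by
  induction R with
  | nil => rfl
  | cons x R ih =>
    cases x with
    | s p =>
      simp only [labsG, size, List.length_cons]
      rw [ih h.1]
    | l p t =>
      simp only [labsG, size, List.length_cons, List.length_append]
      rw [ih h.1, h.2.2.2]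
      omega

theorem kap0_mem (kap : ℕ → α) (leg : ℕ → List α) (R : List Stp) :
    kap 0 ∈ labsG kap leg R := by
  induction R with
  | nil => simp [labsG]
  | cons x R ih => cases x <;> simp [labsG, ih]

/-- the edges of a chain are transferred -/
theorem chain_transfer {r : α → α → Prop} {A : β → β → Prop} (g : α → β) :
    ∀ (c : List α) (x : α), List.IsChain r (x :: c) → List.IsChain A ((x :: c).map g) →
      ∀ y ∈ c, ∃ z, r z y ∧ A (g z) (g y) := by
  intro c
  induction c with
  | nil => intro x _ _ y hy; simp at hy
  | cons w c ih =>
    intro x h1 h2 y hy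
    rw [List.isChain_cons_cons] at h1
    simp only [List.map_cons] at h2
    rw [List.isChain_cons_cons] at h2
    rcases List.mem_cons.1 hy with rfl | hy
    · exact ⟨x, h1.1, h2.1⟩
    · exact ih w h1.2 (by simpa using h2.2) y hy

theorem emb_transfer {r : α → α → Prop} {A : β → β → Prop} (g : α → β) {kV : ℕ → α}
    {lV : ℕ → List α} {kap : ℕ → β} {leg : ℕ → List β} :
    ∀ (R : List Stp), Wf R → EmbG r kV lV R → EmbG A kap leg R →
      (labsG kV lV R).map g = labsG kap leg R →
      (∀ i < nodes R, g (kV i) = kap i) ∧
        ∀ y ∈ labsG kV lV R, y ≠ kV 0 → ∃ z, r z y ∧ A (g z) (g y) := by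
  intro R
  induction R with
  | nil =>
    intro _ _ _ h
    simp only [labsG, List.map_cons, List.map_nil, List.cons.injEq, and_true] at h
    refine ⟨?_, ?_⟩
    · intro i hi
      simp only [nodes, Nat.lt_one_iff] at hi
      subst hi
      exact h
    · intro y hy hy0
      simp only [labsG, List.mem_cons, List.not_mem_nil, or_false] at hy
      exact absurd hy hy0
  | cons x R ih =>
    cases x with
    | s p =>
      intro hw h1 h2 h3
      simp only [labsG, List.map_cons, List.cons.injEq] at h3
      obtain ⟨h4, h5⟩ := h3
      obtain ⟨i1, i2⟩ := ih hw.1 h1.1 h2.1 h5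
      refine ⟨?_, ?_⟩
      · intro i hi
        simp only [nodes] at hi
        rcases Nat.lt_succ_iff_lt_or_eq.1 hi with hi | rfl
        · exact i1 i hi
        · exact h4
      · intro y hy hy0
        simp only [labsG, List.mem_cons] at hy
        rcases hy with rfl | hy
        · refine ⟨kV p, h1.2, ?_⟩
          rw [i1 p hw.2, h4]
          exact h2.2
        · exact i2 y hy hy0
    | l p t =>
      intro hw h1 h2 h3
      simp only [labsG, List.map_cons, List.cons.injEq, List.map_append] at h3
      obtain ⟨h4, h4', h5⟩ := h3
      obtain ⟨h6, h7⟩ := List.append_inj h5 (by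
        rw [List.length_map, h1.2.2.2, h2.2.2.2])
      obtain ⟨i1, i2⟩ := ih hw.1 h1.1 h2.1 h7
      refine ⟨?_, ?_⟩
      · intro i hi
        simp only [nodes] at hi
        rcases Nat.lt_succ_iff_lt_or_eq.1 hi with hi | rfl
        · rcases Nat.lt_succ_iff_lt_or_eq.1 hi with hi | rfl
          · exact i1 i hi
          · exact h4
        · exact h4'
      · intro y hy hy0
        have hch : List.IsChain A ((kV (nodes R) :: (lV (nodes R) ++ [kV (nodes R + 1)])).map g) := by
          simp only [List.map_cons, List.map_append, List.map_nil, h4, h4', h6]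
          exact h2.2.2.1
        have key := chain_transfer g _ _ h1.2.2.1 hch
        simp only [labsG, List.mem_cons, List.mem_append] at hy
        rcases hy with rfl | rfl | hy | hy
        · refine ⟨kV p, h1.2.1, ?_⟩
          rw [i1 p hw.2, h4]
          exact h2.2.1
        · exact key _ (by simp)
        · exact key _ (by simp [hy])
        · exact i2 y hy hy0

end Pool.Agent.Few
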