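import Pool.Agent.Few.Iface

set_option autoImplicit false

/-! # Finitely many skeletons, scales -/

namespace Pool.Agent.Few

theorem nodes_skel (R : List Stp) : nodes (skel R) = nodes R := by
  induction R with
  | nil => rfl
  | cons x R ih => cases x <;> simp [skel, nodes, ih]

theorem wf_skel {R : List Stp} (h : Wf R) : Wf (skel R) := by
  induction R with
  | nil => trivial
  | cons x R ih =>
    cases x with
    | s p => exact ⟨ih h.1, by rw [nodes_skel]; exact h.2⟩
    | l p t => exact ⟨ih h.1, by rw [nodes_skel]; exact h.2⟩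

theorem skel_skel (R : List Stp) : skel (skel R) = skel R := by
  induction R with
  | nil => rfl
  | cons x R ih => cases x <;> simp [skel, ih]

theorem length_skel (R : List Stp) : (skel R).length = R.length := by
  induction R with
  | nil => rfl
  | cons x R ih => cases x <;> simp [skel, ih]

theorem skel_finite (N : ℕ) : {s : List Stp | s.length ≤ N ∧ Wf s ∧ skel s = s}.Finite := by
  induction N with
  | zero =>
    apply (Set.finite_singleton ([] : List Stp)).subset
    rintro s ⟨h1, _⟩
    rw [Set.mem_singleton_iff]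
    exact List.length_eq_zero_iff.1 (by omega)
  | succ N ih =>
    have h : (insert ([] : List Stp) (⋃ R ∈ {s : List Stp | s.length ≤ N ∧ Wf s ∧ skel s = s},
        ⋃ p ∈ Set.Iio (nodes R), {Stp.s p :: R, Stp.l p 0 :: R})).Finite := by
      apply Set.Finite.insert
      apply ih.biUnion
      intro R _
      apply (Set.finite_Iio _).biUnion
      intro p _
      exact Set.toFinite _
    apply h.subset
    rintro s ⟨h1, h2, h3⟩
    cases s with
    | nil => exact Set.mem_insert _ _
    | cons x R =>
      apply Set.mem_insert_of_mem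
      rw [Set.mem_iUnion₂]
      cases x with
      | s p =>
        simp only [skel, List.cons.injEq, true_and] at h3
        refine ⟨R, ⟨by simp only [List.length_cons] at h1; omega, h2.1, h3⟩, ?_⟩
        rw [Set.mem_iUnion₂]
        exact ⟨p, h2.2, by simp⟩
      | l p t =>
        simp only [skel, List.cons.injEq, Stp.l.injEq, true_and] at h3
        refine ⟨R, ⟨by simp only [List.length_cons] at h1; omega, h2.1, h3.2⟩, ?_⟩
        rw [Set.mem_iUnion₂]
        exact ⟨p, h2.2, by simp [← h3.1]⟩

/-- one threshold for all recipes of bounded length -/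
theorem machine_unif (h : MachineThm) (N : ℕ) :
    ∃ F : ℕ, ∀ (RL RR : List Stp) (l : ℕ), RL.length ≤ N → RR.length ≤ N → Wf RL → Wf RR →
      (∀ t ∈ lens RL ++ lens RR, Even t ∧ F ≤ t ∧ t ≤ l) → F ≤ l → FewLab RL RR l := by
  classical
  choose F hF using h
  set S := (skel_finite N).toFinset with hS
  refine ⟨(S ×ˢ S).sup fun q => F q.1 q.2, ?_⟩
  intro RL RR l h1 h2 h3 h4 h5 h6
  have hm : ∀ R : List Stp, R.length ≤ N → Wf R → skel R ∈ S := by
    intro R hR hw
    rw [hS, Set.Finite.mem_toFinset]
    exact ⟨by rw [length_skel]; exact hR, wf_skel hw, skel_skel R⟩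
  have hle : F (skel RL) (skel RR) ≤ (S ×ˢ S).sup fun q => F q.1 q.2 :=
    Finset.le_sup (f := fun q : List Stp × List Stp => F q.1 q.2)
      (b := (skel RL, skel RR)) (Finset.mem_product.2 ⟨hm RL h1 h3, hm RR h2 h4⟩)
  apply hF (skel RL) (skel RR) RL RR l rfl rfl h3 h4
  · intro t ht
    obtain ⟨e1, e2, e3⟩ := h5 t ht
    exact ⟨e1, hle.trans e2, e3⟩
  · exact hle.trans h6

theorem iter_mono (g : ℕ → ℕ) (hg : ∀ c, c ≤ g c) (c0 : ℕ) :
    Monotone fun i => g^[i] c0 := by
  apply monotone_nat_of_le_succ
  intro i
  rw [Function.iterate_succ_apply']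
  exact hg _

/-- some interval `[c, g c)` of the sequence `c0, g c0, g (g c0), ...` contains no element of `S` -/
theorem exists_scale (S : Finset ℕ) (g : ℕ → ℕ) (hg : ∀ c, c ≤ g c) (c0 : ℕ) :
    ∃ i ≤ S.card, ∀ b ∈ S, b < g^[i] c0 ∨ g (g^[i] c0) ≤ b := by
  by_contra hcon
  push Not at hcon
  choose! f hf1 hf2 using hcon
  have hmono := iter_mono g hg c0
  have hinj : Set.InjOn f (Finset.range (S.card + 1)) := by
    have key : ∀ i j, i < j → j ≤ S.card → f i < f j := by
      intro i j hij hj
      have h1 := (hf2 i (by omega)).2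
      have h2 := (hf2 j hj).1
      have h3 : g^[i + 1] c0 ≤ g^[j] c0 := hmono (by omega)
      rw [Function.iterate_succ_apply'] at h3
      omega
    intro i hi j hj h
    rw [Finset.mem_coe, Finset.mem_range] at hi hj
    rcases lt_trichotomy i j with h1 | h1 | h1
    · have := key i j h1 (by omega)
      omega
    · exact h1
    · have := key j i h1 (by omega)
      omega
  have := Finset.card_le_card_of_injOn (s := Finset.range (S.card + 1)) (t := S) f (by
    intro i hi
    rw [Finset.mem_coe, Finset.mem_range] at hi
    exact hf1 i (by omega)) hinj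
  rw [Finset.card_range] at this
  omega

end Pool.Agent.Few
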