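import Pool.Agent.Few.GSplit
import Pool.Agent.Graceful.Order

set_option autoImplicit false

/-! # Choice of the root: an end of a longest branch -/

namespace Pool.Agent.Few

open Pool.Agent.GracefulAsym Pool.Agent.GracefulLeaf Pool.Agent.Graceful Finset

/-- vertices of degree different from two -/
def KeyT {V : Type*} (T : SimpleGraph V) (v : V) : Prop := (T.neighborSet v).ncard ≠ 2

/-- `R` is the tree `T` with a root -/
def IsRT {V : Type*} (T : SimpleGraph V) (R : RT V) : Prop :=
  ∀ u v, T.Adj u v ↔ (u ≠ R.r ∧ R.par u = v) ∨ (v ≠ R.r ∧ R.par v = u)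

theorem exists_rt {V : Type*} (T : SimpleGraph V) (hT : T.IsTree) (r : V) :
    ∃ R : RT V, R.r = r ∧ IsRT T R := by
  obtain ⟨par, dep, h1, h2, h3, h4⟩ := exists_parent T hT r
  refine ⟨⟨r, par, dep, h3, h2⟩, rfl, ?_⟩
  intro u v
  constructor
  · exact h4 u v
  · rintro (⟨h5, h6⟩ | ⟨h5, h6⟩)
    · have := h1 u h5
      change par u = v at h6
      rw [h6] at this
      exact this
    · have := h1 v h5
      change par v = u at h6
      rw [h6] at this
      exact this.symm

theorem ncard_nbr {V : Type*} [Finite V] {T : SimpleGraph V} {R : RT V} (hR : IsRT T R) {x : V}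
    (hx : x ≠ R.r) : (T.neighborSet x).ncard = {c | c ≠ R.r ∧ R.par c = x}.ncard + 1 := by
  have h1 : T.neighborSet x = insert (R.par x) {c | c ≠ R.r ∧ R.par c = x} := by
    ext w
    rw [SimpleGraph.mem_neighborSet, Set.mem_insert_iff, hR]
    constructor
    · rintro (⟨_, h⟩ | h)
      · exact Or.inl h.symm
      · exact Or.inr h
    · rintro (h | h)
      · exact Or.inl ⟨hx, h.symm⟩
      · exact Or.inr h
  rw [h1, Set.ncard_insert_of_notMem _ (Set.toFinite _)]
  rintro ⟨h2, h3⟩
  have h4 := R.dep_par x hx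
  have h5 := R.dep_par _ h2
  rw [h3] at h5
  omega

theorem ncard_nbr_root {V : Type*} {T : SimpleGraph V} {R : RT V} (hR : IsRT T R) :
    (T.neighborSet R.r).ncard = {c | c ≠ R.r ∧ R.par c = R.r}.ncard := by
  congr 1
  ext w
  rw [SimpleGraph.mem_neighborSet, hR]
  constructor
  · rintro (⟨h, _⟩ | h)
    · exact absurd rfl h
    · exact h
  · intro h
    exact Or.inr h

theorem keys_of {V : Type*} [Finite V] {T : SimpleGraph V} {R : RT V} (hR : IsRT T R)
    (hr : KeyT T R.r) : Keys R (KeyT T) := by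
  have key : ∀ x, ¬ KeyT T x → ∃ a, {c | c ≠ R.r ∧ R.par c = x} = {a} := by
    intro x hx
    have hxr : x ≠ R.r := by
      rintro rfl
      exact hx hr
    have h1 := ncard_nbr hR hxr
    unfold KeyT at hx
    rw [not_not] at hx
    rw [← Set.ncard_eq_one]
    omega
  refine ⟨hr, ?_, ?_⟩
  · intro x hx c c' h1 h2 h3 h4
    obtain ⟨a, ha⟩ := key x hx
    have e1 : c ∈ ({a} : Set V) := by rw [← ha]; exact ⟨h1, h3⟩
    have e2 : c' ∈ ({a} : Set V) := by rw [← ha]; exact ⟨h2, h4⟩
    rw [Set.mem_singleton_iff] at e1 e2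
    rw [e1, e2]
  · intro x hx
    obtain ⟨a, ha⟩ := key x hx
    have e1 : a ∈ {c | c ≠ R.r ∧ R.par c = x} := by rw [ha]; exact Set.mem_singleton a
    exact ⟨a, e1⟩

theorem exists_child_root {V : Type*} (R : RT V) (v0 : V) (hv0 : v0 ≠ R.r) :
    ∃ u, u ≠ R.r ∧ R.par u = R.r := by
  have hex : ∀ k v, R.dep v = k + 1 → ∃ u, u ≠ R.r ∧ R.par u = R.r := by
    intro k
    induction k with
    | zero =>
      intro v hv
      have h1 : v ≠ R.r := by rintro rfl; rw [R.dep_r] at hv; omega
      refine ⟨v, h1, ?_⟩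
      by_contra h2
      have h3 := R.dep_par v h1
      have h4 := R.dep_par _ h2
      omega
    | succ k ih =>
      intro v hv
      have h1 : v ≠ R.r := by rintro rfl; rw [R.dep_r] at hv; omega
      exact ih (R.par v) (by have := R.dep_par v h1; omega)
  exact hex _ v0 (R.dep_par v0 hv0)

theorem ch_eq {V : Type*} [Fintype V] [DecidableEq V] (R : RT V) (x : V) :
    R.ch x = {c | c ≠ R.r ∧ R.par c = x}.ncard := by
  classical
  rw [Set.ncard_eq_toFinset_card']
  unfold RT.ch
  congr 1
  ext c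
  simp

/-- number of key vertices in terms of the number of leaves -/
theorem card_keys {V : Type*} [Fintype V] [DecidableEq V] {T : SimpleGraph V} {R : RT V}
    (hR : IsRT T R) (v0 : V) (hv0 : v0 ≠ R.r) :
    {v | KeyT T v}.ncard ≤ 2 * {v : V | (T.neighborSet v).ncard = 1}.ncard + 1 := by
  classical
  obtain ⟨u, hu1, hu2⟩ := exists_child_root R v0 hv0
  have h1 : {v | KeyT T v} ⊆ insert R.r {v | R.ch v ≠ 1} := by
    intro v hv
    by_cases hvr : v = R.r
    · exact Or.inl hvr
    · right
      intro h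
      apply hv
      rw [ncard_nbr hR hvr, ← ch_eq, h]
  have h2 : {v | R.ch v ≠ 1}.ncard ≤ 2 * (univ.filter fun v => R.ch v = 0).card := by
    refine le_trans (le_of_eq ?_) (card_bottom R)
    rw [Set.ncard_eq_toFinset_card']
    congr 1
    ext v
    simp
  have h3 : (univ.filter fun v => R.ch v = 0).card ≤
      {v : V | (T.neighborSet v).ncard = 1}.ncard := by
    rw [Set.ncard_eq_toFinset_card']
    apply card_le_card
    intro v hv
    rw [mem_filter] at hv
    rw [Set.mem_toFinset, Set.mem_ofPred_eq]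
    have hvr : v ≠ R.r := by
      rintro rfl
      have := hv.2
      rw [ch_eq, Set.ncard_eq_zero (Set.toFinite _)] at this
      have h4 : u ∈ {c | c ≠ R.r ∧ R.par c = R.r} := ⟨hu1, hu2⟩
      rw [this] at h4
      exact h4
    rw [ncard_nbr hR hvr, ← ch_eq, hv.2]
  have h4 := Set.ncard_le_ncard h1 (Set.toFinite _)
  have h5 := Set.ncard_insert_le R.r {v | R.ch v ≠ 1}
  omega

/-- the vertices are covered by the branches -/
theorem card_le_branches {V : Type*} [Fintype V] [DecidableEq V] {R : RT V} {K : V → Prop}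
    (hK : Keys R K) (M : ℕ) (hM : ∀ v, K v → v ≠ R.r → klen R K v ≤ M) :
    Fintype.card V ≤ {v | K v}.ncard * M + 1 := by
  classical
  have h1 : (univ : Finset V) ⊆ insert R.r ((univ.filter fun v => K v ∧ v ≠ R.r).biUnion fun v =>
      (range (klen R K v)).image fun j => R.par^[j] v) := by
    intro x _
    by_cases hx : x = R.r
    · rw [hx]; exact mem_insert_self _ _
    · obtain ⟨v, kv, hv, j, hj, hjx⟩ := cover hK x hx
      apply mem_insert_of_mem
      rw [mem_biUnion]
      exact ⟨v, by simp [kv, hv], mem_image.2 ⟨j, mem_range.2 hj, hjx⟩⟩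
  have h2 := card_le_card h1
  have h3 : ((univ.filter fun v => K v ∧ v ≠ R.r).biUnion fun v =>
      (range (klen R K v)).image fun j => R.par^[j] v).card ≤
      (univ.filter fun v => K v ∧ v ≠ R.r).card * M := by
    apply card_biUnion_le_card_mul
    intro v hv
    rw [mem_filter] at hv
    exact card_image_le.trans (by rw [card_range]; exact hM v hv.2.1 hv.2.2)
  have h4 : (univ.filter fun v => K v ∧ v ≠ R.r).card ≤ {v | K v}.ncard := by
    rw [Set.ncard_eq_toFinset_card']
    apply card_le_card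
    intro v hv
    rw [mem_filter] at hv
    rw [Set.mem_toFinset]
    exact hv.2.1
  have h5 := card_insert_le R.r ((univ.filter fun v => K v ∧ v ≠ R.r).biUnion fun v =>
      (range (klen R K v)).image fun j => R.par^[j] v)
  rw [card_univ] at h2
  have h6 := Nat.mul_le_mul_right M h4
  omega

/-- the branch above `v` does not change if its upper end becomes the root -/
theorem reroot {V : Type*} [Finite V] {T : SimpleGraph V} {R R' : RT V} (hR : IsRT T R)
    (hR' : IsRT T R') (hK : Keys R (KeyT T)) (hK' : Keys R' (KeyT T)) {v : V} (hv : v ≠ R.r)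
    (hr' : R.par^[klen R (KeyT T) v] v = R'.r) :
    v ≠ R'.r ∧ klen R' (KeyT T) v = klen R (KeyT T) v ∧
      R'.par^[klen R' (KeyT T) v] v = R'.r := by
  set b := klen R (KeyT T) v with hb
  have hb1 : 1 ≤ b := klen_pos v
  have hne : ∀ j < b, R.par^[j] v ≠ R.r := fun j hj => ne_root hK hv hj
  have hdep : ∀ j ≤ b, R.dep (R.par^[j] v) + j = R.dep v := by
    intro j hj
    exact dep_iter R v j fun i hi => hne i (by omega)
  have hne' : ∀ j < b, R.par^[j] v ≠ R'.r := by
    intro j hj h
    have h1 := hdep j (by omega)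
    have h2 := hdep b (le_refl _)
    rw [hr'] at h2
    rw [h] at h1
    omega
  have hadj : ∀ j < b, T.Adj (R.par^[j] v) (R.par^[j + 1] v) := by
    intro j hj
    rw [hR]
    left
    exact ⟨hne j hj, (Function.iterate_succ_apply' _ _ _).symm⟩
  have key : ∀ i < b, R'.par (R.par^[b - 1 - i] v) = R.par^[b - 1 - i + 1] v := by
    intro i
    induction i with
    | zero =>
      intro _
      have h1 := hadj (b - 1 - 0) (by omega)
      rw [hR'] at h1
      rcases h1 with ⟨_, h1⟩ | ⟨h1, _⟩
      · exact h1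
      · exfalso
        apply h1
        rw [← hr']
        congr 2
        omega
    | succ i ih =>
      intro hi
      have h1 := hadj (b - 1 - (i + 1)) (by omega)
      rw [hR'] at h1
      rcases h1 with ⟨_, h1⟩ | ⟨_, h1⟩
      · exact h1
      · exfalso
        have h2 := ih (by omega)
        have e : b - 1 - (i + 1) + 1 = b - 1 - i := by omega
        rw [e, h2] at h1
        have h3 := hdep (b - 1 - i + 1) (by omega)
        have h4 := hdep (b - 1 - (i + 1)) (by omega)
        rw [h1] at h3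
        omega
  have key' : ∀ j < b, R'.par (R.par^[j] v) = R.par^[j + 1] v := by
    intro j hj
    have := key (b - 1 - j) (by omega)
    have e : b - 1 - (b - 1 - j) = j := by omega
    rw [e] at this
    exact this
  have hiter : ∀ j ≤ b, R'.par^[j] v = R.par^[j] v := by
    intro j
    induction j with
    | zero => intro _; rfl
    | succ j ih =>
      intro hj
      rw [Function.iterate_succ_apply', ih (by omega), key' j (by omega)]
  have hvr' : v ≠ R'.r := hne' 0 (by omega)
  have hlen : klen R' (KeyT T) v = b := by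
    apply klen_eq hK' hvr' hb1
    · rw [hiter b (le_refl _)]
      exact klen_K hK hv
    · intro j h1 h2
      rw [hiter j (by omega)]
      exact klen_min hK hv h1 h2
  refine ⟨hvr', hlen, ?_⟩
  rw [hlen, hiter b (le_refl _)]
  exact hr'

/-- there is a root `r` of degree different from two such that a branch ending at `r` is a longest
branch -/
theorem exists_root {V : Type*} [Fintype V] [DecidableEq V] (T : SimpleGraph V) (hT : T.IsTree)
    (h2 : 2 ≤ Fintype.card V) :
    ∃ R : RT V, IsRT T R ∧ Keys R (KeyT T) ∧ ∃ z, KeyT T z ∧ z ≠ R.r ∧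
      R.par^[klen R (KeyT T) z] z = R.r ∧
      ∀ v, KeyT T v → v ≠ R.r → klen R (KeyT T) v ≤ klen R (KeyT T) z := by
  classical
  choose rt hrt1 hrt2 using exists_rt T hT
  have hkeys : ∀ r, KeyT T r → Keys (rt r) (KeyT T) := by
    intro r hr
    exact keys_of (hrt2 r) (by rw [hrt1]; exact hr)
  -- a leaf
  obtain ⟨r1, r2, h12⟩ := Fintype.exists_pair_of_one_lt_card (α := V) (by omega)
  obtain ⟨w, -, hw⟩ := exists_max_image (univ : Finset V) (rt r1).dep ⟨r1, mem_univ _⟩
  have hwr : w ≠ (rt r1).r := by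
    intro h
    have h3 := hw r2 (mem_univ _)
    rw [h, (rt r1).dep_r] at h3
    have h4 := (rt r1).dep_par r2 (by rw [hrt1]; exact h12.symm)
    omega
  have hwK : KeyT T w := by
    unfold KeyT
    rw [ncard_nbr (hrt2 r1) hwr]
    have h5 : {c | c ≠ (rt r1).r ∧ (rt r1).par c = w} = ∅ := by
      ext c
      simp only [Set.mem_ofPred_eq, Set.mem_empty_iff_false, iff_false, not_and]
      intro hc hcw
      have h6 := (rt r1).dep_par c hc
      have h7 := hw c (mem_univ _)
      rw [hcw] at h6
      omega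
    rw [h5, Set.ncard_empty]
    omega
  let S : Finset (V × V) := univ.filter fun q => KeyT T q.1 ∧ KeyT T q.2 ∧ q.2 ≠ q.1 ∧
    (rt q.1).par^[klen (rt q.1) (KeyT T) q.2] q.2 = q.1
  have mS : ∀ q : V × V, q ∈ S ↔ KeyT T q.1 ∧ KeyT T q.2 ∧ q.2 ≠ q.1 ∧
      (rt q.1).par^[klen (rt q.1) (KeyT T) q.2] q.2 = q.1 := by
    intro q
    simp [S]
  have hSne : S.Nonempty := by
    obtain ⟨x, hx⟩ : ∃ x : V, x ≠ (rt w).r := by
      rw [hrt1]
      by_cases h : r1 = w
      · exact ⟨r2, by rw [← h]; exact h12.symm⟩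
      · exact ⟨r1, h⟩
    obtain ⟨v, kv, hv, -⟩ := cover (hkeys w hwK) x hx
    obtain ⟨v1, hv1, hmin⟩ := exists_min_image (univ.filter fun v => KeyT T v ∧ v ≠ (rt w).r)
      (rt w).dep ⟨v, by simp [kv, hv]⟩
    rw [mem_filter] at hv1
    refine ⟨(w, v1), (mS _).2 ⟨hwK, hv1.2.1, ?_, ?_⟩⟩
    · have := hv1.2.2
      rw [hrt1] at this
      exact this
    · by_contra h
      have h3 := hmin _ (mem_filter.2 ⟨mem_univ _, klen_K (hkeys w hwK) hv1.2.2, by
        rw [hrt1]; exact h⟩)
      have h4 := kpar_dep (hkeys w hwK) hv1.2.2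
      omega
  obtain ⟨⟨r, z⟩, hrz, hmax⟩ := exists_max_image S
    (fun q => klen (rt q.1) (KeyT T) q.2) hSne
  rw [mS] at hrz
  obtain ⟨kr, kz, hzr, hkz⟩ := hrz
  simp only at kr kz hzr hkz hmax
  refine ⟨rt r, hrt2 r, hkeys r kr, z, kz, by rw [hrt1]; exact hzr, by rw [hkz, hrt1], ?_⟩
  intro v kv hvr
  have hku := klen_K (hkeys r kr) hvr
  obtain ⟨u, hu⟩ : ∃ u, u = (rt r).par^[klen (rt r) (KeyT T) v] v := ⟨_, rfl⟩
  rw [← hu] at hku
  obtain ⟨e1, e2, e3⟩ := reroot (hrt2 r) (hrt2 u) (hkeys r kr) (hkeys u hku) hvr (by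
    rw [← hu, hrt1])
  have h5 := hmax (u, v) ((mS _).2 ⟨hku, kv, by rw [hrt1] at e1; exact e1, by
    rw [e3, hrt1]⟩)
  simp only at h5
  omega

end Pool.Agent.Few
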