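import Pool.Agent.Few.GBranch

set_option autoImplicit false

/-! # Splitting a tree at a longest branch -/

namespace Pool.Agent.Few

open Pool.Agent.GracefulAsym Pool.Agent.GracefulLeaf

/-- `z` is on the way from `v` to the root -/
def Desc {V : Type*} (R : RT V) (z v : V) : Prop :=
  ∃ i, (∀ j < i, R.par^[j] v ≠ R.r) ∧ R.par^[i] v = z

theorem desc_self {V : Type*} (R : RT V) (z : V) : Desc R z z :=
  ⟨0, fun _ h => absurd h (Nat.not_lt_zero _), rfl⟩

theorem not_desc_root {V : Type*} (R : RT V) {z : V} (hz : z ≠ R.r) : ¬ Desc R z R.r := by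
  rintro ⟨i, h1, h2⟩
  rcases Nat.eq_zero_or_pos i with rfl | hi
  · exact hz h2.symm
  · exact h1 0 hi rfl

theorem desc_kpar {V : Type*} {R : RT V} {K : V → Prop} (hK : Keys R K) {z v : V} (kz : K z)
    (hv : v ≠ R.r) (hvz : v ≠ z) (h : Desc R z v) : Desc R z (R.par^[klen R K v] v) := by
  obtain ⟨i, h1, h2⟩ := h
  have hi : 1 ≤ i := by
    rcases Nat.eq_zero_or_pos i with rfl | hi
    · exact absurd h2 hvz
    · exact hi
  have h3 : klen R K v ≤ i := klen_le hK hv hi (by rw [h2]; exact kz)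
  refine ⟨i - klen R K v, ?_, ?_⟩
  · intro j hj
    rw [← Function.iterate_add_apply]
    exact h1 _ (by omega)
  · rw [← Function.iterate_add_apply, Nat.sub_add_cancel h3]
    exact h2

theorem desc_of_kpar {V : Type*} {R : RT V} {K : V → Prop} (hK : Keys R K) {z v : V}
    (hv : v ≠ R.r) (h : Desc R z (R.par^[klen R K v] v)) : Desc R z v := by
  obtain ⟨i, h1, h2⟩ := h
  refine ⟨i + klen R K v, ?_, ?_⟩
  · intro j hj
    by_cases hj' : j < klen R K v
    · exact ne_root hK hv hj'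
    · have := h1 (j - klen R K v) (by omega)
      rw [← Function.iterate_add_apply, Nat.sub_add_cancel (by omega)] at this
      exact this
  · rw [Function.iterate_add_apply]
    exact h2

theorem alpha_of_keys {V : Type*} [Fintype V] [DecidableEq V] (T : SimpleGraph V)
    (R : RT V) (hR : ∀ u v, T.Adj u v ↔ (u ≠ R.r ∧ R.par u = v) ∨ (v ≠ R.r ∧ R.par v = u))
    (hcard : T.edgeSet.ncard + 1 = Fintype.card V)
    (K : V → Prop) (hK : Keys R K) (z : V) (kz : K z) (hz : z ≠ R.r)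
    (hzr : R.par^[klen R K z] z = R.r)
    (hmax : ∀ v, K v → v ≠ R.r → klen R K v ≤ klen R K z) (c : ℕ) (hc4 : 4 ≤ c) (F : ℕ)
    (hgap : ∀ v, K v → v ≠ R.r → klen R K v < c ∨ F + 3 ≤ klen R K v)
    (hzl : F + 1 ≤ klen R K z) (N : ℕ) (hN : {v | K v}.ncard * c ≤ N)
    (hmach : ∀ (RL RR : List Stp) (l : ℕ), RL.length ≤ N → RR.length ≤ N → Wf RL → Wf RR →
      (∀ t ∈ lens RL ++ lens RR, Even t ∧ F ≤ t ∧ t ≤ l) → F ≤ l → FewLab RL RR l) :
    ∃ f : V → ℕ, IsAlphaLabeling T f := by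
  classical
  set D : Finset V := Finset.univ.filter K with hD
  set DR : Finset V := D.filter (Desc R z) with hDR
  set DL : Finset V := D.filter (fun v => ¬ Desc R z v) with hDL
  have hDcard : D.card = {v | K v}.ncard := by
    rw [Set.ncard_eq_toFinset_card', hD]
    congr 1
    ext v
    simp
  have mR : ∀ v, v ∈ DR ↔ K v ∧ Desc R z v := by intro v; simp [hDR, hD]
  have mL : ∀ v, v ∈ DL ↔ K v ∧ ¬ Desc R z v := by intro v; simp [hDL, hD]
  have hLr : R.r ∈ DL := (mL _).2 ⟨hK.root, not_desc_root R hz⟩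
  have hRz : z ∈ DR := (mR _).2 ⟨kz, desc_self R z⟩
  have hRne : ∀ v ∈ DR, v ≠ R.r := by
    intro v hv h
    rw [mR, h] at hv
    exact not_desc_root R hz hv.2
  obtain ⟨RL, kL, lL, a1, a2, a3, a4, a5, -, a7, a8⟩ := build hK c hc4 R.r DL.card DL rfl hLr
    (fun v hv => ((mL v).1 hv).1) (by
      intro v hv hvr
      refine ⟨hvr, (mL _).2 ⟨klen_K hK hvr, fun h => ((mL v).1 hv).2 (desc_of_kpar hK hvr h)⟩⟩)
  obtain ⟨RR, kR, lR, b1, b2, b3, b4, b5, -, b7, b8⟩ := build hK c hc4 z DR.card DR rfl hRz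
    (fun v hv => ((mR v).1 hv).1) (by
      intro v hv hvz
      have hvr := hRne v hv
      exact ⟨hvr, (mR _).2 ⟨klen_K hK hvr, desc_kpar hK kz hvr hvz ((mR v).1 hv).2⟩⟩)
  obtain ⟨l, hl⟩ : ∃ l, klen R K z = l + 1 := ⟨klen R K z - 1, by
    have := klen_pos (R := R) (K := K) z
    omega⟩
  have hsp := brl_chain R z (l + 1) (fun j hj => ne_root hK hz (by omega))
  have hspn := brl_nodup R z (l + 1) (fun j hj => ne_root hK hz (by omega))
  rw [← hl, hzr, hl, brl_succ] at hsp
  rw [brl_succ, List.nodup_append] at hspn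
  have msp : ∀ x, x ∈ brl R (R.par z) l ↔ ∃ j, 1 ≤ j ∧ j < klen R K z ∧ R.par^[j] z = x := by
    intro x
    rw [mem_brl]
    constructor
    · rintro ⟨j, hj, rfl⟩
      exact ⟨j + 1, by omega, by omega, Function.iterate_succ_apply _ _ _⟩
    · rintro ⟨j, hj, hj', rfl⟩
      obtain ⟨i, rfl⟩ : ∃ i, j = i + 1 := ⟨j - 1, by omega⟩
      exact ⟨i, by omega, (Function.iterate_succ_apply _ _ _).symm⟩
  have kv_of : ∀ v ∈ DL, K v := fun v hv => ((mL v).1 hv).1
  have kv_of' : ∀ v ∈ DR, K v := fun v hv => ((mR v).1 hv).1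
  have hLR : ∀ v ∈ DL, ∀ v' ∈ DR, v ≠ v' := by
    rintro v hv v' hv' rfl
    exact ((mL v).1 hv).2 ((mR v).1 hv').2
  have hNL : RL.length ≤ N := by
    refine a7.trans (le_trans (Nat.mul_le_mul_right _ ?_) hN)
    rw [← hDcard]
    exact Finset.card_le_card (Finset.filter_subset _ _)
  have hNR : RR.length ≤ N := by
    refine b7.trans (le_trans (Nat.mul_le_mul_right _ ?_) hN)
    rw [← hDcard]
    exact Finset.card_le_card (Finset.filter_subset _ _)
  refine alpha_of_few T R hR hcard RL RR l a1 b1 kL lL kR lR (brl R (R.par z) l) a2 b2 ?_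
    (brl_length _ _ _) a3 ?_ ?_ (hmach RL RR l hNL hNR a1 b1 ?_ (by omega))
  · rw [a3, b3]
    exact hsp
  · rw [List.nodup_append, List.nodup_append]
    refine ⟨⟨a4, b4, ?_⟩, hspn.1, ?_⟩
    · rintro x hx y hy rfl
      rw [a5] at hx
      rw [b5] at hy
      rcases hx with hx | ⟨v, hv, hvr, j, hj, hjx⟩
      · rcases hy with hy | ⟨v', hv', hvz', j', hj', hjx'⟩
        · exact hz (hy.symm.trans hx)
        · exact ne_root hK (hRne v' hv') hj' (hjx'.trans hx)
      · rcases hy with hy | ⟨v', hv', hvz', j', hj', hjx'⟩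
        · have := key_inj hK hvr hz (kv_of v hv) kz j 0 hj (klen_pos z) (hjx.trans hy)
          exact hLR v hv z hRz this.1
        · have := key_inj hK hvr (hRne v' hv') (kv_of v hv) (kv_of' v' hv') j j' hj hj'
            (hjx.trans hjx'.symm)
          exact hLR v hv v' hv' this.1
    · rintro x hx y hy rfl
      rw [msp] at hy
      obtain ⟨i, hi1, hi2, hi3⟩ := hy
      rw [List.mem_append, a5, b5] at hx
      rcases hx with (hx | ⟨v, hv, hvr, j, hj, hjx⟩) | (hx | ⟨v', hv', hvz', j', hj', hjx'⟩)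
      · exact ne_root hK hz hi2 (hi3.trans hx)
      · have := key_inj hK hvr hz (kv_of v hv) kz j i hj hi2 (hjx.trans hi3.symm)
        exact hLR v hv z hRz this.1
      · have := key_inj hK hz hz kz kz i 0 hi2 (klen_pos z) (hi3.trans hx)
        omega
      · have := key_inj hK (hRne v' hv') hz (kv_of' v' hv') kz j' i hj' hi2
          (hjx'.trans hi3.symm)
        exact hvz' this.1
  · intro x
    rw [List.mem_append, List.mem_append, a5, b5, msp]
    by_cases hx : x = R.r
    · exact Or.inl (Or.inl (Or.inl hx))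
    · obtain ⟨v, kv, hv, j, hj, hjx⟩ := cover hK x hx
      by_cases hvz : v = z
      · subst hvz
        rcases Nat.eq_zero_or_pos j with rfl | hj0
        · exact Or.inl (Or.inr (Or.inl hjx.symm))
        · exact Or.inr ⟨j, hj0, hj, hjx⟩
      · by_cases hd : Desc R z v
        · exact Or.inl (Or.inr (Or.inr ⟨v, (mR v).2 ⟨kv, hd⟩, hvz, j, hj, hjx⟩))
        · exact Or.inl (Or.inl (Or.inr ⟨v, (mL v).2 ⟨kv, hd⟩, hv, j, hj, hjx⟩))
  · intro t ht
    rw [List.mem_append] at ht
    rcases ht with ht | ht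
    · obtain ⟨h1, v, hv, hvr, h2, h3, h4⟩ := a8 t ht
      have h5 := hmax v (kv_of v hv) hvr
      rcases hgap v (kv_of v hv) hvr with h6 | h6
      · omega
      · exact ⟨h1, by omega, by omega⟩
    · obtain ⟨h1, v, hv, hvz, h2, h3, h4⟩ := b8 t ht
      have hvr := hRne v hv
      have h5 := hmax v (kv_of' v hv) hvr
      rcases hgap v (kv_of' v hv) hvr with h6 | h6
      · omega
      · exact ⟨h1, by omega, by omega⟩

end Pool.Agent.Few
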