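import Pool.Agent.Few.GGen
import Pool.Agent.Graceful.Completion
import Pool.Agent.GracefulAsym.Defs

set_option autoImplicit false

/-! # From labelled recipes to alpha-labellings of trees -/

namespace Pool.Agent.Few

open Pool.Agent.Graceful Pool.Agent.GracefulAsym

/-- `f` is an alpha-labelling (Rosa): a graceful labelling such that for some `k` every edge has one
end with label at most `k` and the other end with label larger than `k`. -/
def IsAlphaLabeling {V : Type*} (G : SimpleGraph V) (f : V → ℕ) : Prop :=
  IsGracefulLabeling G f ∧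
    ∃ k, ∀ u v, G.Adj u v → (f u ≤ k ∧ k < f v) ∨ (f v ≤ k ∧ k < f u)

theorem exists_map {α β : Type*} [DecidableEq α] [Inhabited β] (l : List α) (l' : List β)
    (hl : l.Nodup) (hlen : l.length = l'.length) : ∃ g : α → β, l.map g = l' := by
  refine ⟨fun x => l'.getD (l.idxOf x) default, ?_⟩
  apply List.ext_getElem
  · simpa using hlen
  · intro i h1 h2
    rw [List.getElem_map]
    have h3 : i < l.length := by simpa using h1
    rw [hl.idxOf_getElem i h3, List.getD_eq_getElem _ _ h2]

/-- the relation parent of -/
abbrev rel {V : Type*} (R : RT V) : V → V → Prop := fun x y => y ≠ R.r ∧ R.par y = x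

theorem alpha_of_lab {V : Type*} [Fintype V] [DecidableEq V] (T : SimpleGraph V) (R : RT V)
    (hR : ∀ u v, T.Adj u v ↔ (u ≠ R.r ∧ R.par u = v) ∨ (v ≠ R.r ∧ R.par v = u))
    (a : ℕ → ℕ) (m A B : ℕ) (g : V → Lab) (hm : T.edgeSet.ncard = m) (hAB : A + B = m + 1)
    (hinj : Function.Injective g) (hlt : ∀ v, (g v).2 < bif (g v).1 then B else A)
    (hadj : ∀ v, v ≠ R.r → Adj a m (g (R.par v)) (g v)) :
    ∃ f : V → ℕ, IsAlphaLabeling T f := by
  have hadj' : ∀ u v, T.Adj u v → Adj a m (g u) (g v) := by
    have hsymm : ∀ x y : Lab, Adj a m x y → Adj a m y x := by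
      intro x y h
      obtain ⟨h1, h2, h3⟩ := h
      refine ⟨h1.symm, by omega, ?_⟩
      rw [Nat.add_comm, h3]
      cases hx : x.1 <;> cases hy : y.1 <;> simp_all
    intro u v huv
    rcases (hR u v).1 huv with ⟨h1, h2⟩ | ⟨h1, h2⟩
    · have := hadj u h1
      rw [h2] at this
      exact hsymm _ _ this
    · have := hadj v h1
      rw [h2] at this
      exact this
  let f : V → ℕ := fun v => bif (g v).1 then m - (g v).2 else (g v).2
  have hf0 : ∀ v, (g v).1 = false → f v = (g v).2 ∧ (g v).2 < A := by
    intro v hv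
    have h1 := hlt v
    simp only [hv, cond_false] at h1
    refine ⟨?_, h1⟩
    simp only [f, hv, cond_false]
  have hf1 : ∀ v, (g v).1 = true → f v + (g v).2 = m ∧ (g v).2 < B ∧ A ≤ f v := by
    intro v hv
    have h1 := hlt v
    simp only [hv, cond_true] at h1
    have h2 : f v = m - (g v).2 := by simp only [f, hv, cond_true]
    -- B ≤ m needs an element of colour false; if A = 0 then B = m + 1
    refine ⟨?_, h1, ?_⟩
    · rw [h2]
      omega
    · rw [h2]
      omega
  -- edges
  have hedge : ∀ u v, T.Adj u v → (f u < A ∧ A ≤ f v ∧ f v + a ((g u).2 + (g v).2) =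
      f u + (m - ((g u).2 + (g v).2)) + a ((g u).2 + (g v).2) ∧ f u = a ((g u).2 + (g v).2) ∧
      (g u).1 = false ∧ (g v).1 = true ∧ (g u).2 + (g v).2 < m) ∨
      (f v < A ∧ A ≤ f u ∧ f u + a ((g u).2 + (g v).2) =
      f v + (m - ((g u).2 + (g v).2)) + a ((g u).2 + (g v).2) ∧ f v = a ((g u).2 + (g v).2) ∧
      (g u).1 = true ∧ (g v).1 = false ∧ (g u).2 + (g v).2 < m) := by
    intro u v huv
    obtain ⟨h1, h2, h3⟩ := hadj' u v huv
    cases hu : (g u).1
    · have hv : (g v).1 = true := by
        cases hv : (g v).1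
        · rw [hu, hv] at h1; exact absurd rfl h1
        · rfl
      left
      obtain ⟨e1, e2⟩ := hf0 u hu
      obtain ⟨e3, e4, e5⟩ := hf1 v hv
      rw [hu, cond_false] at h3
      refine ⟨by omega, e5, by omega, by omega, rfl, hv, h2⟩
    · have hv : (g v).1 = false := by
        cases hv : (g v).1
        · rfl
        · rw [hu, hv] at h1; exact absurd rfl h1
      right
      obtain ⟨e1, e2⟩ := hf0 v hv
      obtain ⟨e3, e4, e5⟩ := hf1 u hu
      rw [hu, cond_true] at h3
      refine ⟨by omega, e5, by omega, by omega, rfl, hv, h2⟩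
  have hfinj : Function.Injective f := by
    intro u v huv
    apply hinj
    cases hu : (g u).1 <;> cases hv : (g v).1
    · have h1 := (hf0 u hu).1
      have h2 := (hf0 v hv).1
      apply Prod.ext
      · rw [hu, hv]
      · omega
    · have h1 := hf0 u hu
      have h2 := hf1 v hv
      omega
    · have h1 := hf1 u hu
      have h2 := hf0 v hv
      omega
    · have h1 := hf1 u hu
      have h2 := hf1 v hv
      apply Prod.ext
      · rw [hu, hv]
      · omega
  have hgfalse : ∀ u v, (g u).1 = false → (g v).1 = false → f u = f v → u = v :=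
    fun u v _ _ h => hfinj h
  refine ⟨f, ⟨hfinj, ?_, ?_⟩, ?_⟩
  · intro v
    rw [hm]
    cases hv : (g v).1
    · have h1 := hf0 v hv
      by_contra hc
      -- then f v = m, A = m + 1, B = 0
      have hA : A = m + 1 ∧ B = 0 := by omega
      have hall : ∀ w, (g w).1 = false := by
        intro w
        cases hw : (g w).1
        · rfl
        · have := (hf1 w hw).2.1
          omega
      omega
    · have := hf1 v hv
      omega
  · intro u v u' v' h1 h2 h3
    have key : ∀ u v u' v', T.Adj u v → T.Adj u' v' →
        |(f u : ℤ) - f v| = |(f u' : ℤ) - f v'| → (g u).1 = false → (g u').1 = false →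
        u = u' ∧ v = v' := by
      intro u v u' v' h1 h2 h3 hu hu'
      rcases hedge u v h1 with e | e
      · rcases hedge u' v' h2 with e' | e'
        · obtain ⟨p1, p2, p3, p4, p5, p6, p7⟩ := e
          obtain ⟨q1, q2, q3, q4, q5, q6, q7⟩ := e'
          have hd : (g u).2 + (g v).2 = (g u').2 + (g v').2 := by
            rw [abs_sub_comm, abs_of_nonneg (by push_cast [sub_nonneg]; exact_mod_cast (by omega)),
              abs_sub_comm, abs_of_nonneg (by push_cast [sub_nonneg]; exact_mod_cast (by omega))]
              at h3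
            omega
          have hu2 : u = u' := by
            apply hfinj
            rw [p4, q4, hd]
          refine ⟨hu2, ?_⟩
          apply hfinj
          subst hu2
          omega
        · rw [e'.2.2.2.2.1] at hu'
          exact absurd hu' (by decide)
      · rw [e.2.2.2.2.1] at hu
        exact absurd hu (by decide)
    cases hu : (g u).1 <;> cases hu' : (g u').1
    · obtain ⟨rfl, rfl⟩ := key u v u' v' h1 h2 h3 hu hu'
      rfl
    · have hv' : (g v').1 = false := by
        rcases hedge u' v' h2 with e | e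
        · rw [e.2.2.2.2.1] at hu'
          exact absurd hu' (by decide)
        · exact e.2.2.2.2.2.1
      rw [abs_sub_comm (f u' : ℤ)] at h3
      obtain ⟨rfl, rfl⟩ := key u v v' u' h1 h2.symm h3 hu hv'
      exact Sym2.eq_swap
    · have hv : (g v).1 = false := by
        rcases hedge u v h1 with e | e
        · rw [e.2.2.2.2.1] at hu
          exact absurd hu (by decide)
        · exact e.2.2.2.2.2.1
      rw [abs_sub_comm (f u : ℤ)] at h3
      obtain ⟨rfl, rfl⟩ := key v u u' v' h1.symm h2 h3 hv hu'
      exact Sym2.eq_swap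
    · have hv : (g v).1 = false := by
        rcases hedge u v h1 with e | e
        · rw [e.2.2.2.2.1] at hu
          exact absurd hu (by decide)
        · exact e.2.2.2.2.2.1
      have hv' : (g v').1 = false := by
        rcases hedge u' v' h2 with e | e
        · rw [e.2.2.2.2.1] at hu'
          exact absurd hu' (by decide)
        · exact e.2.2.2.2.2.1
      rw [abs_sub_comm (f u : ℤ), abs_sub_comm (f u' : ℤ)] at h3
      obtain ⟨rfl, rfl⟩ := key v u v' u' h1.symm h2.symm h3 hv hv'
      rfl
  · refine ⟨A - 1, fun u v huv => ?_⟩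
    rcases hedge u v huv with e | e
    · left
      omega
    · right
      omega

/-- a labelled recipe gives an alpha-labelling -/
theorem alpha_of_few {V : Type*} [Fintype V] [DecidableEq V] (T : SimpleGraph V)
    (R : RT V) (hR : ∀ u v, T.Adj u v ↔ (u ≠ R.r ∧ R.par u = v) ∨ (v ≠ R.r ∧ R.par v = u))
    (hcard : T.edgeSet.ncard + 1 = Fintype.card V)
    (RL RR : List Stp) (l : ℕ) (hwL : Wf RL) (hwR : Wf RR)
    (kL : ℕ → V) (lL : ℕ → List V) (kR : ℕ → V) (lR : ℕ → List V) (sp : List V)
    (hL : EmbG (rel R) kL lL RL) (hRR : EmbG (rel R) kR lR RR)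
    (hsp : List.IsChain (rel R) (kL 0 :: sp ++ [kR 0])) (hl : sp.length = l)
    (h0 : kL 0 = R.r)
    (hnd : (labsG kL lL RL ++ labsG kR lR RR ++ sp).Nodup)
    (hall : ∀ v, v ∈ labsG kL lL RL ++ labsG kR lR RR ++ sp)
    (h : FewLab RL RR l) : ∃ f : V → ℕ, IsAlphaLabeling T f := by
  obtain ⟨a, kapL, legL, kapR, legR, sp', A, B, hAB, eL, eR, esp, hl', hnd', hlt⟩ := h
  rw [emb_iff] at eL eR
  rw [labs_eq, labs_eq] at hnd' hlt
  have hlen1 := labsG_length hL
  have hlen2 := labsG_length hRR
  have hlen1' := labsG_length eL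
  have hlen2' := labsG_length eR
  obtain ⟨g, hg⟩ := exists_map (labsG kL lL RL ++ labsG kR lR RR ++ sp)
    (labsG kapL legL RL ++ labsG kapR legR RR ++ sp') hnd (by
      simp only [List.length_append, hlen1, hlen2, hlen1', hlen2', hl, hl'])
  have hgmem : ∀ v, g v ∈ labsG kapL legL RL ++ labsG kapR legR RR ++ sp' := by
    intro v
    rw [← hg]
    exact List.mem_map_of_mem (hall v)
  have hg' := hg
  rw [List.map_append, List.map_append] at hg'
  obtain ⟨hg12, hg3⟩ := List.append_inj hg' (by
    simp only [List.length_append, List.length_map, hlen1, hlen2, hlen1', hlen2'])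
  obtain ⟨hg1, hg2⟩ := List.append_inj hg12 (by simp only [List.length_map, hlen1, hlen1'])
  obtain ⟨t1, t2⟩ := emb_transfer g RL hwL hL eL hg1
  obtain ⟨t3, t4⟩ := emb_transfer g RR hwR hRR eR hg2
  have hn0 : ∀ R : List Stp, 0 < nodes R := by
    intro R
    cases R with
    | nil => simp [nodes]
    | cons x R => cases x <;> simp [nodes]
  have hch : List.IsChain (Adj a (size RL + size RR + l + 1))
      ((kL 0 :: (sp ++ [kR 0])).map g) := by
    simp only [List.map_cons, List.map_append, List.map_nil, t1 0 (hn0 _), t3 0 (hn0 _), hg3]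
    exact esp
  have t5 := chain_transfer g _ _ hsp hch
  have hcardV : Fintype.card V = size RL + size RR + l + 2 := by
    have h1 : (Finset.univ : Finset V) =
        (labsG kL lL RL ++ labsG kR lR RR ++ sp).toFinset := by
      ext v
      simp only [Finset.mem_univ, List.mem_toFinset, true_iff]
      exact hall v
    rw [← Finset.card_univ, h1, List.toFinset_card_of_nodup hnd]
    simp only [List.length_append, hlen1, hlen2, hl]
    omega
  refine alpha_of_lab T R hR a (size RL + size RR + l + 1) A B g (by omega) (by omega) ?_ ?_ ?_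
  · intro u v huv
    have h1 := hall u
    have h2 := hall v
    have h3 : (List.map g (labsG kL lL RL ++ labsG kR lR RR ++ sp)).Nodup := by
      rw [hg]
      exact hnd'
    exact List.inj_on_of_nodup_map h3 h1 h2 huv
  · intro v
    exact hlt _ (hgmem v)
  · intro v hv
    have key : ∃ z, rel R z v ∧ Adj a (size RL + size RR + l + 1) (g z) (g v) := by
      have h1 := hall v
      rw [List.mem_append, List.mem_append] at h1
      rcases h1 with (h1 | h1) | h1
      · exact t2 v h1 (by rw [h0]; exact hv)
      · by_cases h2 : v = kR 0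
        · exact t5 v (by simp [h2])
        · exact t4 v h1 h2
      · exact t5 v (by simp [h1])
    obtain ⟨z, ⟨_, hz⟩, hz'⟩ := key
    rw [hz]
    exact hz'

end Pool.Agent.Few
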