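import Pool.Agent.Few.GSplit
import Pool.Agent.FLV.GDefs

set_option autoImplicit false

/-! # Rooted trees with given key vertices are grown by pendant vertices and long branches -/

namespace Pool.Agent.Few

open Pool.Agent.GracefulAsym Pool.Agent.GracefulLeaf Pool.Agent.FLV

variable {V : Type*} {G : V → V → Prop} {b : V}

/-- adding a list of pendant vertices, each one attached to the previous one -/
theorem grow_list : ∀ (ys : List V) (ops : List (Op V)) (SV AV : List V) (v : V),
    Grown G b ops SV AV → v ∈ AV → List.IsChain G (v :: ys) → ys.Nodup → (∀ y ∈ ys, y ∉ SV) →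
    ∃ (ops' : List (Op V)) (SV' AV' : List V), Grown G b ops' SV' AV' ∧
      (∀ x, x ∈ SV' ↔ x ∈ ys ∨ x ∈ SV) ∧ (∀ x ∈ AV, x ∈ AV') ∧
      (v :: ys).getLast (by simp) ∈ AV' ∧ ops'.length = ops.length + ys.length ∧
      ops'.flatMap Op.mids = ops.flatMap Op.mids := by
  intro ys
  induction ys with
  | nil =>
    intro ops SV AV v hg hv _ _ _
    exact ⟨ops, SV, AV, hg, by simp, fun _ h => h, hv, rfl, rfl⟩
  | cons y ys ih =>
    intro ops SV AV v hg hv hc hn hd
    rw [List.isChain_cons_cons] at hc
    rw [List.nodup_cons] at hn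
    have hg' := Grown.pend hg hv (hd y (by simp)) hc.1
    obtain ⟨ops', SV', AV', a1, a2, a3, a4, a5, a6⟩ := ih _ _ _ y hg' (by simp) hc.2 hn.2 (by
      intro z hz hz'
      rcases List.mem_cons.1 hz' with rfl | hz'
      · exact hn.1 hz
      · exact hd z (by simp [hz]) hz')
    refine ⟨ops', SV', AV', a1, ?_, fun x hx => a3 x (by simp [hx]), ?_, ?_, ?_⟩
    · intro x
      rw [a2, List.mem_cons, List.mem_cons]
      tauto
    · rw [List.getLast_cons (by simp)]
      exact a4
    · rw [a5, List.length_cons, List.length_cons]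
      omega
    · rw [a6]
      simp [Op.mids]

/-- adding a branch of length `n`; branches shorter than `c` are added vertex by vertex -/
theorem grow_branch (R : RT V) (hG : ∀ x y, rel R x y → G x y) (c : ℕ) (hc5 : 5 ≤ c)
    (ops : List (Op V)) (SV AV : List V) (v : V) (n : ℕ) (hn : 1 ≤ n)
    (hg : Grown G b ops SV AV) (hv : R.par^[n] v ∈ AV) (hr : ∀ j < n, R.par^[j] v ≠ R.r)
    (hd : ∀ j < n, R.par^[j] v ∉ SV) :
    ∃ (ops' : List (Op V)) (SV' AV' : List V), Grown G b ops' SV' AV' ∧
      (∀ x, x ∈ SV' ↔ (∃ j < n, R.par^[j] v = x) ∨ x ∈ SV) ∧ (∀ x ∈ AV, x ∈ AV') ∧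
      v ∈ AV' ∧ ops'.length ≤ ops.length + c ∧
      (∀ t ∈ ops'.flatMap Op.mids, t ∈ ops.flatMap Op.mids ∨ (c ≤ n ∧ t + 3 ≤ n ∧ n ≤ t + 4)) := by
  have hch : List.IsChain G (R.par^[n] v :: brl R v n) :=
    List.IsChain.imp hG (brl_chain R v n hr)
  have hnd := brl_nodup R v n hr
  have hd' : ∀ y ∈ brl R v n, y ∉ SV := by
    intro y hy
    rw [mem_brl] at hy
    obtain ⟨j, hj, rfl⟩ := hy
    exact hd j hj
  by_cases hbc : n < c
  · obtain ⟨ops', SV', AV', a1, a2, a3, a4, a5, a6⟩ :=
      grow_list (brl R v n) ops SV AV _ hg hv hch hnd hd'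
    refine ⟨ops', SV', AV', a1, ?_, a3, ?_, ?_, ?_⟩
    · intro x
      rw [a2, mem_brl]
    · obtain ⟨n', rfl⟩ : ∃ n', n = n' + 1 := ⟨n - 1, by omega⟩
      simp only [brl_succ] at a4
      rw [List.getLast_cons (by simp), List.getLast_append_singleton] at a4
      exact a4
    · rw [a5, brl_length]; omega
    · intro t ht
      rw [a6] at ht
      exact Or.inl ht
  · rcases Nat.even_or_odd n with hev | hodd
    · obtain ⟨m, rfl⟩ : ∃ m, n = m + 3 := ⟨n - 3, by omega⟩
      have hbr : brl R v (m + 3) =
          R.par^[m + 2] v :: R.par^[m + 1] v :: (brl R (R.par v) m ++ [v]) := by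
        rw [brl, brl, brl_succ]
      rw [hbr] at hch hnd hd'
      rw [List.isChain_cons_cons] at hch
      have hodd : Odd (brl R (R.par v) m).length := by
        rw [brl_length]
        rcases Nat.even_or_odd m with h | h
        · exfalso
          rw [Nat.even_iff] at h hev
          omega
        · exact h
      refine ⟨_, _, _, Grown.branch hg hv hch.1 hch.2 hnd hd' hodd, ?_, ?_, ?_, ?_, ?_⟩
      · intro x
        rw [List.mem_append, ← mem_brl, hbr]
      · intro x hx
        simp [hx]
      · simp
      · simp only [List.length_cons]; omega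
      · intro t ht
        simp only [List.flatMap_cons, Op.mids, List.mem_append, List.mem_singleton] at ht
        rcases ht with rfl | ht
        · right
          rw [brl_length]
          omega
        · exact Or.inl ht
    · obtain ⟨m, rfl⟩ : ∃ m, n = m + 4 := ⟨n - 4, by omega⟩
      have hbr : brl R v (m + 4) =
          R.par^[m + 3] v :: R.par^[m + 2] v :: R.par^[m + 1] v ::
            (brl R (R.par v) m ++ [v]) := by
        rw [brl, brl, brl, brl_succ]
      rw [hbr] at hch hnd hd'
      rw [List.isChain_cons_cons, List.isChain_cons_cons] at hch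
      have hn' := List.nodup_cons.1 hnd
      have hodd : Odd (brl R (R.par v) m).length := by
        rw [brl_length]
        rcases Nat.even_or_odd m with h | h
        · exfalso
          rw [Nat.even_iff] at h
          rw [Nat.odd_iff] at hodd
          omega
        · exact h
      have hg1 := Grown.pend hg hv (hd' _ (by simp)) hch.1
      refine ⟨_, _, _, Grown.branch hg1 (by simp) hch.2.1 hch.2.2 hn'.2 ?_ hodd, ?_, ?_, ?_,
        ?_, ?_⟩
      · intro y hy hy'
        rcases List.mem_cons.1 hy' with rfl | hy'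
        · exact hn'.1 hy
        · exact hd' y (List.mem_cons_of_mem _ hy) hy'
      · intro x
        rw [← mem_brl, hbr]
        simp only [List.mem_append, List.mem_cons]
        tauto
      · intro x hx
        simp [hx]
      · simp
      · simp only [List.length_cons]; omega
      · intro t ht
        simp only [List.flatMap_cons, Op.mids, List.mem_append, List.mem_singleton,
          List.nil_append] at ht
        rcases ht with rfl | ht
        · right
          rw [brl_length]
          omega
        · exact Or.inl ht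

/-- a set of key vertices closed under the map next key vertex above -/
theorem grow [DecidableEq V] {R : RT V} (hG : ∀ x y, rel R x y → G x y) {K : V → Prop}
    (hK : Keys R K) (c : ℕ) (hc5 : 5 ≤ c) (r0 : V) :
    ∀ (n : ℕ) (D : Finset V), D.card = n → r0 ∈ D → (∀ v ∈ D, K v) →
      (∀ v ∈ D, v ≠ r0 → v ≠ R.r ∧ R.par^[klen R K v] v ∈ D) →
      ∃ (ops : List (Op V)) (SV AV : List V), Grown G r0 ops SV AV ∧
        (∀ x, x ∈ SV ↔ x = r0 ∨ ∃ v ∈ D, v ≠ r0 ∧ ∃ j < klen R K v, R.par^[j] v = x) ∧
        (∀ v ∈ D, v ∈ AV) ∧ ops.length ≤ D.card * c ∧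
        ∀ t ∈ ops.flatMap Op.mids, ∃ v ∈ D, v ≠ r0 ∧ c ≤ klen R K v ∧ t + 3 ≤ klen R K v ∧
          klen R K v ≤ t + 4 := by
  intro n
  induction n with
  | zero =>
    intro D hD h0 _ _
    rw [Finset.card_eq_zero] at hD
    rw [hD] at h0
    simp at h0
  | succ n ih =>
    intro D hD h0 hDK hcl
    by_cases hE : (D.erase r0).Nonempty
    · obtain ⟨v, hv, hmax⟩ := Finset.exists_max_image (D.erase r0) R.dep hE
      rw [Finset.mem_erase] at hv
      obtain ⟨hvr0, hvD⟩ := hv
      obtain ⟨hvr, hkD⟩ := hcl v hvD hvr0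
      have hcard : (D.erase v).card = n := by
        rw [Finset.card_erase_of_mem hvD]; omega
      have hne : ∀ u ∈ D, u ≠ r0 → R.par^[klen R K u] u ≠ v := by
        intro u hu hur h
        have h1 := kpar_dep hK (hcl u hu hur).1
        have h2 := hmax u (Finset.mem_erase.2 ⟨hur, hu⟩)
        rw [h] at h1
        omega
      obtain ⟨ops, SV, AV, a1, a5, a6, a7, a8⟩ := ih (D.erase v) hcard
        (Finset.mem_erase.2 ⟨fun h => hvr0 h.symm, h0⟩)
        (fun u hu => hDK u (Finset.mem_of_mem_erase hu))
        (fun u hu hur => ⟨(hcl u (Finset.mem_of_mem_erase hu) hur).1,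
          Finset.mem_erase.2 ⟨hne u (Finset.mem_of_mem_erase hu) hur,
            (hcl u (Finset.mem_of_mem_erase hu) hur).2⟩⟩)
      obtain ⟨ops', SV', AV', b1, b2, b3, b4, b7, b8⟩ :=
        grow_branch R hG c hc5 ops SV AV v (klen R K v) (klen_pos v) a1
          (a6 _ (Finset.mem_erase.2 ⟨hne v hvD hvr0, hkD⟩))
          (fun j hj => ne_root hK hvr hj) (by
            intro j hj hm
            rw [a5] at hm
            rcases hm with hm | ⟨u, hu, hur, i, hi, hui⟩
            · rcases Nat.eq_zero_or_pos j with rfl | hj0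
              · exact hvr0 hm
              · have := klen_min hK hvr hj0 hj
                rw [hm] at this
                exact this (hDK r0 h0)
            · rw [Finset.mem_erase] at hu
              have := (key_inj hK (hcl u hu.2 hur).1 hvr (hDK u hu.2) (hDK v hvD) i j hi hj hui).1
              exact hu.1 this)
      refine ⟨ops', SV', AV', b1, ?_, ?_, ?_, ?_⟩
      · intro x
        rw [b2, a5]
        constructor
        · rintro (⟨j, hj, rfl⟩ | rfl | ⟨u, hu, hur, i, hi, rfl⟩)
          · exact Or.inr ⟨v, hvD, hvr0, j, hj, rfl⟩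
          · exact Or.inl rfl
          · exact Or.inr ⟨u, Finset.mem_of_mem_erase hu, hur, i, hi, rfl⟩
        · rintro (rfl | ⟨u, hu, hur, i, hi, rfl⟩)
          · exact Or.inr (Or.inl rfl)
          · by_cases huv : u = v
            · subst huv
              exact Or.inl ⟨i, hi, rfl⟩
            · exact Or.inr (Or.inr ⟨u, Finset.mem_erase.2 ⟨huv, hu⟩, hur, i, hi, rfl⟩)
      · intro u hu
        by_cases huv : u = v
        · subst huv
          exact b4
        · exact b3 u (a6 u (Finset.mem_erase.2 ⟨huv, hu⟩))
      · rw [hcard] at a7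
        rw [hD]
        calc ops'.length ≤ ops.length + c := b7
          _ ≤ n * c + c := by omega
          _ = (n + 1) * c := by ring
      · intro t ht
        rcases b8 t ht with ht | ht
        · obtain ⟨u, hu, h2⟩ := a8 t ht
          exact ⟨u, Finset.mem_of_mem_erase hu, h2⟩
        · exact ⟨v, hvD, hvr0, ht⟩
    · have hDr : ∀ v ∈ D, v = r0 := by
        intro v hv
        by_contra h
        exact hE ⟨v, Finset.mem_erase.2 ⟨h, hv⟩⟩
      refine ⟨[], [r0], [r0], Grown.nil, ?_, ?_, by simp, by simp⟩
      · intro x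
        rw [List.mem_singleton]
        constructor
        · intro h
          exact Or.inl h
        · rintro (h | ⟨v, hv, hv', _⟩)
          · exact h
          · exact absurd (hDr v hv) hv'
      · intro v hv
        rw [hDr v hv]
        exact List.mem_singleton_self _

theorem grown_nodup {ops : List (Op V)} {SV AV : List V} (h : Grown G b ops SV AV) : SV.Nodup := by
  induction h with
  | nil => simp
  | pend hg hv hw hvw ih => exact List.nodup_cons.2 ⟨hw, ih⟩
  | branch hg hv hvw hch hnd hdis hodd ih =>
    rw [List.nodup_append]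
    exact ⟨hnd, ih, fun a ha b hb hab => hdis a ha (hab ▸ hb)⟩

end Pool.Agent.Few
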