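import Pool.Agent.Few.HSplit
import Pool.Agent.Few.GMain

set_option autoImplicit false

/-! # Large trees with few leaves have alpha-labellings (from the machine for grown trees) -/

namespace Pool.Agent.Few

open Pool.Agent.GracefulAsym Pool.Agent.GracefulLeaf Pool.Agent.Graceful Pool.Agent.FLV

theorem few_alpha' (h : MachineGrown) (k : ℕ) : ∃ m0 : ℕ, ∀ (V : Type) [Fintype V] [DecidableEq V]
    (T : SimpleGraph V), T.IsTree → {v : V | (T.neighborSet v).ncard = 1}.ncard ≤ k →
      m0 ≤ Fintype.card V → ∃ f : V → ℕ, IsAlphaLabeling T f := by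
  classical
  obtain ⟨κ, hκ⟩ : ∃ κ, κ = 2 * k + 1 := ⟨_, rfl⟩
  choose F hF using fun c => h (2 * (κ * c))
  let g : ℕ → ℕ := fun c => c + F c + 4
  have hg : ∀ c, c ≤ g c := fun c => by simp only [g]; omega
  have hmono := iter_mono g hg 5
  obtain ⟨M, hM⟩ : ∃ M, M = g^[κ + 1] 5 := ⟨_, rfl⟩
  refine ⟨κ * M + 2, ?_⟩
  intro V _ _ T hT hk hcard
  obtain ⟨R, hR, hK, z, kz, hz, hzr, hmax⟩ := exists_root T hT (by omega)
  have hkeys : {v | KeyT T v}.ncard ≤ κ := by
    have := card_keys hR z hz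
    omega
  have hzM : M ≤ klen R (KeyT T) z := by
    by_contra hlt
    have h1 := card_le_branches hK (klen R (KeyT T) z) hmax
    have h2 : {v | KeyT T v}.ncard * klen R (KeyT T) z ≤ κ * M :=
      Nat.mul_le_mul hkeys (by omega)
    omega
  obtain ⟨S, hS⟩ : ∃ S : Finset ℕ, S = (Finset.univ.filter fun v => KeyT T v ∧ v ≠ R.r).image
    (klen R (KeyT T)) := ⟨_, rfl⟩
  have hScard : S.card ≤ κ := by
    rw [hS]
    refine Finset.card_image_le.trans (le_trans ?_ hkeys)
    rw [Set.ncard_eq_toFinset_card']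
    apply Finset.card_le_card
    intro v hv
    rw [Finset.mem_filter] at hv
    rw [Set.mem_toFinset]
    exact hv.2.1
  obtain ⟨i, hi, hgap⟩ := exists_scale S g hg 5
  obtain ⟨c, hc⟩ : ∃ c, c = g^[i] 5 := ⟨_, rfl⟩
  rw [← hc] at hgap
  have hc5 : 5 ≤ c := by
    have : g^[0] 5 ≤ g^[i] 5 := hmono (Nat.zero_le i)
    rw [hc]
    exact this
  have hcM : g c ≤ M := by
    rw [hc, hM, ← Function.iterate_succ_apply' g]
    exact hmono (by omega)
  have hgc : g c = c + F c + 4 := rfl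
  have hcardT : T.edgeSet.ncard + 1 = Fintype.card V := by
    have := (SimpleGraph.isTree_iff_connected_and_card.1 hT).2
    rw [Nat.card_coe_set_eq, Nat.card_eq_fintype_card] at this
    exact this
  refine alpha_of_grown T R hR hcardT (KeyT T) hK z kz hz hzr hmax c hc5 (F c) ?_ (by omega)
    (κ * c) (Nat.mul_le_mul_right _ hkeys) (hF c V inferInstance)
  intro v kv hv
  have hvS : klen R (KeyT T) v ∈ S := by
    rw [hS, Finset.mem_image]
    exact ⟨v, by simp [kv, hv], rfl⟩
  rcases hgap _ hvS with h1 | h1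
  · exact Or.inl h1
  · right
    omega

/-- **Main theorem** (from the machine for grown trees): for every `k` every sufficiently large tree with
at most `k` leaves has an alpha-labelling; in particular it is graceful and `γ(T) = |E(T)|`. -/
theorem few_main' (h : MachineGrown) (k : ℕ) : ∃ n0 : ℕ, ∀ n : ℕ, n0 ≤ n →
    ∀ T : SimpleGraph (Fin n), T.IsTree → {v | (T.neighborSet v).ncard = 1}.ncard ≤ k →
      (∃ f : Fin n → ℕ, IsAlphaLabeling T f) ∧ IsGraceful T ∧ gamma T = T.edgeSet.ncard := by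
  obtain ⟨m0, hm0⟩ := few_alpha' h k
  refine ⟨m0, fun n hn T hT hk => ?_⟩
  obtain ⟨f, hf⟩ := hm0 (Fin n) T hT hk (by rw [Fintype.card_fin]; exact hn)
  exact ⟨⟨f, hf⟩, ⟨f, hf.1⟩, gamma_eq_of_graceful hT ⟨f, hf.1⟩⟩

end Pool.Agent.Few
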