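import Pool.Agent.Few.GRoot
import Pool.Agent.Few.GScale

set_option autoImplicit false

/-! # From two rows covering all sums to an alpha-labelling -/

namespace Pool.Agent.Few

open Pool.Agent.Graceful

/-- Two lists `X`, `Y` which together contain every vertex of a tree with `m` edges exactly once and such
that every sum of positions `s < m` is the sum of the positions of two adjacent vertices give an
alpha-labelling. -/
theorem alpha_of_rows {V : Type*} [Fintype V] [DecidableEq V] (T : SimpleGraph V) (m : ℕ)
    (hm : T.edgeSet.ncard = m) (hc : Fintype.card V = m + 1) (X Y : List V)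
    (hnd : (X ++ Y).Nodup) (hall : ∀ v, v ∈ X ++ Y)
    (hcov : ∀ s, s < m → ∃ i j x y, X[i]? = some x ∧ Y[j]? = some y ∧ i + j = s ∧ T.Adj x y) :
    ∃ f : V → ℕ, IsAlphaLabeling T f := by
  classical
  rw [List.nodup_append] at hnd
  obtain ⟨hX, hY, hXY⟩ := hnd
  have hlen : X.length + Y.length = m + 1 := by
    have h1 : (Finset.univ : Finset V) = (X ++ Y).toFinset := by
      ext v
      simp only [Finset.mem_univ, List.mem_toFinset, true_iff]
      exact hall v
    have h2 : (X ++ Y).Nodup := by
      rw [List.nodup_append]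
      exact ⟨hX, hY, hXY⟩
    rw [← hc, ← Finset.card_univ, h1, List.toFinset_card_of_nodup h2, List.length_append]
  have hne : Nonempty V := Fintype.card_pos_iff.1 (by omega)
  choose! pi pj px py h1 h2 h3 h4 using hcov
  have hxX : ∀ s, s < m → px s ∈ X := fun s hs => List.mem_of_getElem? (h1 s hs)
  have hyY : ∀ s, s < m → py s ∈ Y := fun s hs => List.mem_of_getElem? (h2 s hs)
  have hix : ∀ s, s < m → X.idxOf (px s) = pi s := by
    intro s hs
    obtain ⟨hlt, he⟩ := List.getElem?_eq_some_iff.1 (h1 s hs)
    rw [← he, hX.idxOf_getElem _ hlt]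
  have hiy : ∀ s, s < m → Y.idxOf (py s) = pj s := by
    intro s hs
    obtain ⟨hlt, he⟩ := List.getElem?_eq_some_iff.1 (h2 s hs)
    rw [← he, hY.idxOf_getElem _ hlt]
  -- all edges are of this form
  have hedge : ∀ e ∈ T.edgeSet, ∃ s, s < m ∧ s(px s, py s) = e := by
    have hinj : Set.InjOn (fun s => s(px s, py s)) (Finset.range m : Set ℕ) := by
      intro s hs t ht hst
      rw [Finset.mem_coe, Finset.mem_range] at hs ht
      simp only [Sym2.eq_iff] at hst
      rcases hst with ⟨e1, e2⟩ | ⟨e1, e2⟩
      · have a1 := hix s hs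
        have a2 := hix t ht
        have a3 := hiy s hs
        have a4 := hiy t ht
        rw [e1] at a1
        rw [e2] at a3
        have := h3 s hs
        have := h3 t ht
        omega
      · exact absurd e1 (hXY _ (hxX s hs) _ (hyY t ht))
    have hsub : ((Finset.range m).image fun s => s(px s, py s) : Finset (Sym2 V)) ⊆
        T.edgeSet.toFinset := by
      intro e he
      rw [Finset.mem_image] at he
      obtain ⟨s, hs, rfl⟩ := he
      rw [Finset.mem_range] at hs
      rw [Set.mem_toFinset]
      exact h4 s hs
    have heq := Finset.eq_of_subset_of_card_le hsub (by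
      rw [Finset.card_image_of_injOn hinj, Finset.card_range, ← Set.ncard_eq_toFinset_card']
      omega)
    intro e he
    have : e ∈ T.edgeSet.toFinset := by rw [Set.mem_toFinset]; exact he
    rw [← heq, Finset.mem_image] at this
    obtain ⟨s, hs, hs'⟩ := this
    rw [Finset.mem_range] at hs
    exact ⟨s, hs, hs'⟩
  let f : V → ℕ := fun v => if v ∈ X then X.idxOf v else m - Y.idxOf v
  have hfX : ∀ v ∈ X, f v = X.idxOf v ∧ f v < X.length := by
    intro v hv
    have : f v = X.idxOf v := by simp only [f, hv, if_true]
    exact ⟨this, by rw [this]; exact List.idxOf_lt_length_iff.2 hv⟩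
  have hfY : ∀ v ∈ Y, f v + Y.idxOf v = m ∧ Y.idxOf v < Y.length ∧ X.length ≤ f v := by
    intro v hv
    have hv' : v ∉ X := fun h => hXY v h v hv rfl
    have h5 : f v = m - Y.idxOf v := by simp only [f, hv', if_false]
    have h6 : Y.idxOf v < Y.length := List.idxOf_lt_length_iff.2 hv
    omega
  have hfinj : Function.Injective f := by
    intro u v huv
    have hu := hall u
    have hv := hall v
    rw [List.mem_append] at hu hv
    rcases hu with hu | hu <;> rcases hv with hv | hv
    · have a1 := (hfX u hu).1
      have a2 := (hfX v hv).1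
      exact (List.idxOf_inj hu).1 (by omega)
    · have a1 := hfX u hu
      have a2 := hfY v hv
      omega
    · have a1 := hfY u hu
      have a2 := hfX v hv
      omega
    · have a1 := hfY u hu
      have a2 := hfY v hv
      exact (List.idxOf_inj hu).1 (by omega)
  have hval : ∀ u v, T.Adj u v → ∃ s, s < m ∧ s(u, v) = s(px s, py s) ∧
      |(f u : ℤ) - f v| = (m : ℤ) - s ∧
      ((f u < X.length ∧ X.length ≤ f v) ∨ (f v < X.length ∧ X.length ≤ f u)) := by
    intro u v huv
    obtain ⟨s, hs, he⟩ := hedge s(u, v) huv
    refine ⟨s, hs, he.symm, ?_⟩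
    have a1 := hfX _ (hxX s hs)
    have a2 := hfY _ (hyY s hs)
    have a3 := hix s hs
    have a4 := hiy s hs
    have a5 := h3 s hs
    rw [Sym2.eq_iff] at he
    rcases he with ⟨rfl, rfl⟩ | ⟨rfl, rfl⟩
    · refine ⟨?_, Or.inl ⟨a1.2, a2.2.2⟩⟩
      rw [abs_sub_comm, abs_of_nonneg (by
        rw [sub_nonneg]
        exact_mod_cast (by omega))]
      omega
    · refine ⟨?_, Or.inr ⟨a1.2, a2.2.2⟩⟩
      rw [abs_of_nonneg (by
        rw [sub_nonneg]
        exact_mod_cast (by omega))]
      omega
  refine ⟨f, ⟨hfinj, ?_, ?_⟩, X.length - 1, ?_⟩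
  · intro v
    rw [hm]
    have hv := hall v
    rw [List.mem_append] at hv
    rcases hv with hv | hv
    · have a1 := hfX v hv
      rcases Nat.eq_zero_or_pos Y.length with h5 | h5
      · -- no `Y`: then `m = 0`
        have hm0 : m = 0 := by
          by_contra hne
          have := hyY 0 (by omega)
          rw [List.length_eq_zero_iff.1 h5] at this
          simp at this
        omega
      · omega
    · have a1 := hfY v hv
      omega
  · intro u v u' v' e1 e2 e3
    obtain ⟨s, hs, b1, b2, -⟩ := hval u v e1
    obtain ⟨s', hs', c1, c2, -⟩ := hval u' v' e2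
    have : s = s' := by
      rw [b2, c2] at e3
      omega
    rw [b1, c1, this]
  · intro u v huv
    obtain ⟨s, hs, b1, b2, b3⟩ := hval u v huv
    rcases b3 with b3 | b3
    · left; omega
    · right; omega

end Pool.Agent.Few
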