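import Pool.Agent.Few.HGrown
import Pool.Agent.Few.HRows

set_option autoImplicit false

/-! # The labelling of a tree from the machine for grown trees -/

namespace Pool.Agent.Few

open Pool.Agent.GracefulAsym Pool.Agent.GracefulLeaf Pool.Agent.FLV

/-- from the rows of the machine to rows of vertices of the tree -/
theorem rows_of {V : Type} [DecidableEq V] (T : SimpleGraph V) (bL bR : V) (SVL SVR spT : List V)
    (sp : List ℕ) (X Y : List (V ⊕ ℕ)) (m : ℕ) (hsp : sp.length = spT.length) (hspn : sp.Nodup)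
    (hch : List.IsChain T.Adj (bL :: (spT ++ [bR])))
    (hperm : (X ++ Y).Perm ((SVL ++ SVR).map Sum.inl ++ sp.map Sum.inr))
    (hcov : CovI (fun x y => (∃ a c, x = Sum.inl a ∧ y = Sum.inl c ∧ T.Adj a c) ∨
      SpAdj bL bR sp x y) X Y 0 m) :
    ∃ X' Y' : List V, (X' ++ Y').Perm (SVL ++ SVR ++ spT) ∧
      ∀ s, s < m → ∃ i j x y, X'[i]? = some x ∧ Y'[j]? = some y ∧ i + j = s ∧ T.Adj x y := by
  classical
  have : Inhabited V := ⟨bL⟩
  obtain ⟨g, hg⟩ := exists_map sp spT hspn hsp
  let φ : V ⊕ ℕ → V := Sum.elim id g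
  have hφ : (sp.map Sum.inr).map φ = spT := by
    rw [List.map_map]
    exact hg
  have hφ' : ∀ L : List V, (L.map (Sum.inl : V → V ⊕ ℕ)).map φ = L := by
    intro L
    rw [List.map_map]
    have : φ ∘ Sum.inl = id := rfl
    rw [this, List.map_id]
  have hE : ∀ x y : V ⊕ ℕ, ((∃ a c, x = Sum.inl a ∧ y = Sum.inl c ∧ T.Adj a c) ∨
      SpAdj bL bR sp x y) → T.Adj (φ x) (φ y) := by
    rintro x y (⟨a, c, rfl, rfl, h⟩ | ⟨L1, L2, h⟩)
    · exact h
    · have h1 := congrArg (List.map φ) h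
      have h2 : List.map φ (Sum.inl bL :: (sp.map Sum.inr ++ [Sum.inl bR])) =
          bL :: (spT ++ [bR]) := by
        rw [List.map_cons, List.map_append, hφ]
        rfl
      rw [h2, List.map_append, List.map_cons, List.map_cons] at h1
      rw [h1, List.isChain_append] at hch
      exact (List.isChain_cons_cons.1 hch.2.1).1
  refine ⟨X.map φ, Y.map φ, ?_, ?_⟩
  · rw [← List.map_append]
    have e : List.map φ (List.map Sum.inl (SVL ++ SVR) ++ List.map Sum.inr sp) =
        SVL ++ SVR ++ spT := by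
      rw [List.map_append, hφ', hφ]
    have := hperm.map φ
    rw [e] at this
    exact this
  · intro s hs
    obtain ⟨i, j, x, y, h1, h2, h3, h4⟩ := hcov s (Nat.zero_le s) hs
    refine ⟨i, j, φ x, φ y, by simp [h1], by simp [h2], h3, ?_⟩
    rcases h4 with h4 | h4
    · exact hE x y h4
    · exact (hE y x h4).symm

theorem alpha_of_grown {V : Type} [Fintype V] [DecidableEq V] (T : SimpleGraph V)
    (R : RT V) (hR : ∀ u v, T.Adj u v ↔ (u ≠ R.r ∧ R.par u = v) ∨ (v ≠ R.r ∧ R.par v = u))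
    (hcard : T.edgeSet.ncard + 1 = Fintype.card V)
    (K : V → Prop) (hK : Keys R K) (z : V) (kz : K z) (hz : z ≠ R.r)
    (hzr : R.par^[klen R K z] z = R.r)
    (hmax : ∀ v, K v → v ≠ R.r → klen R K v ≤ klen R K z) (c : ℕ) (hc5 : 5 ≤ c) (F : ℕ)
    (hgap : ∀ v, K v → v ≠ R.r → klen R K v < c ∨ F + 4 ≤ klen R K v)
    (hzl : F + 1 ≤ klen R K z) (N : ℕ) (hN : {v | K v}.ncard * c ≤ N)
    (hmach : ∀ (G : V → V → Prop) (col : V → Bool)
      (bL bR : V) (opsL opsR : List (Op V)) (SVL AVL SVR AVR : List V) (l : ℕ),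
      (∀ a c, G a c → G c a) → (∀ a c, G a c → col a ≠ col c) →
      Grown G bL opsL SVL AVL → Grown G bR opsR SVR AVR → (∀ a ∈ SVL, a ∉ SVR) →
      opsL.length + opsR.length ≤ 2 * N →
      (∀ t ∈ (opsL ++ opsR).flatMap Op.mids, F ≤ t ∧ t ≤ l) → F ≤ l →
      ∃ (X Y : List (V ⊕ ℕ)) (sp : List ℕ), sp.length = l ∧ sp.Nodup ∧
        (X ++ Y).Perm ((SVL ++ SVR).map Sum.inl ++ sp.map Sum.inr) ∧
        CovI (fun x y => (∃ a c, x = Sum.inl a ∧ y = Sum.inl c ∧ G a c) ∨ SpAdj bL bR sp x y)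
          X Y 0 (SVL.length + SVR.length + l - 1)) :
    ∃ f : V → ℕ, IsAlphaLabeling T f := by
  classical
  set D : Finset V := Finset.univ.filter K with hD
  set DR : Finset V := D.filter (Desc R z) with hDR
  set DL : Finset V := D.filter (fun v => ¬ Desc R z v) with hDL
  have hDcard : D.card = {v | K v}.ncard := by
    rw [Set.ncard_eq_toFinset_card', hD]
    congr 1
    ext v
    simp
  have mR : ∀ v, v ∈ DR ↔ K v ∧ Desc R z v := by intro v; simp [hDR, hD]
  have mL : ∀ v, v ∈ DL ↔ K v ∧ ¬ Desc R z v := by intro v; simp [hDL, hD]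
  have hLr : R.r ∈ DL := (mL _).2 ⟨hK.root, not_desc_root R hz⟩
  have hRz : z ∈ DR := (mR _).2 ⟨kz, desc_self R z⟩
  have hRne : ∀ v ∈ DR, v ≠ R.r := by
    intro v hv h
    rw [mR, h] at hv
    exact not_desc_root R hz hv.2
  have hG : ∀ x y, rel R x y → T.Adj x y := by
    rintro x y ⟨h1, h2⟩
    rw [hR]
    exact Or.inr ⟨h1, h2⟩
  obtain ⟨opsL, SVL, AVL, a1, a5, -, a7, a8⟩ := grow hG hK c hc5 R.r DL.card DL rfl hLr
    (fun v hv => ((mL v).1 hv).1) (by
      intro v hv hvr
      refine ⟨hvr, (mL _).2 ⟨klen_K hK hvr, fun h => ((mL v).1 hv).2 (desc_of_kpar hK hvr h)⟩⟩)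
  obtain ⟨opsR, SVR, AVR, b1, b5, -, b7, b8⟩ := grow hG hK c hc5 z DR.card DR rfl hRz
    (fun v hv => ((mR v).1 hv).1) (by
      intro v hv hvz
      have hvr := hRne v hv
      exact ⟨hvr, (mR _).2 ⟨klen_K hK hvr, desc_kpar hK kz hvr hvz ((mR v).1 hv).2⟩⟩)
  obtain ⟨l, hl⟩ : ∃ l, klen R K z = l + 1 := ⟨klen R K z - 1, by
    have := klen_pos (R := R) (K := K) z
    omega⟩
  have hsp := brl_chain R z (l + 1) (fun j hj => ne_root hK hz (by omega))
  have hspn := brl_nodup R z (l + 1) (fun j hj => ne_root hK hz (by omega))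
  rw [← hl, hzr, hl, brl_succ] at hsp
  rw [brl_succ, List.nodup_append] at hspn
  have msp : ∀ x, x ∈ brl R (R.par z) l ↔ ∃ j, 1 ≤ j ∧ j < klen R K z ∧ R.par^[j] z = x := by
    intro x
    rw [mem_brl]
    constructor
    · rintro ⟨j, hj, rfl⟩
      exact ⟨j + 1, by omega, by omega, Function.iterate_succ_apply _ _ _⟩
    · rintro ⟨j, hj, hj', rfl⟩
      obtain ⟨i, rfl⟩ : ∃ i, j = i + 1 := ⟨j - 1, by omega⟩
      exact ⟨i, by omega, (Function.iterate_succ_apply _ _ _).symm⟩
  have kv_of : ∀ v ∈ DL, K v := fun v hv => ((mL v).1 hv).1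
  have kv_of' : ∀ v ∈ DR, K v := fun v hv => ((mR v).1 hv).1
  have hLR : ∀ v ∈ DL, ∀ v' ∈ DR, v ≠ v' := by
    rintro v hv v' hv' rfl
    exact ((mL v).1 hv).2 ((mR v).1 hv').2
  have hNL : opsL.length ≤ N := by
    refine a7.trans (le_trans (Nat.mul_le_mul_right _ ?_) hN)
    rw [← hDcard]
    exact Finset.card_le_card (Finset.filter_subset _ _)
  have hNR : opsR.length ≤ N := by
    refine b7.trans (le_trans (Nat.mul_le_mul_right _ ?_) hN)
    rw [← hDcard]
    exact Finset.card_le_card (Finset.filter_subset _ _)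
  have dLR : ∀ x ∈ SVL, x ∉ SVR := by
    intro x hx hy
    rw [a5] at hx
    rw [b5] at hy
    rcases hx with hx | ⟨v, hv, hvr, j, hj, hjx⟩
    · rcases hy with hy | ⟨v', hv', hvz', j', hj', hjx'⟩
      · exact hz (hy.symm.trans hx)
      · exact ne_root hK (hRne v' hv') hj' (hjx'.trans hx)
    · rcases hy with hy | ⟨v', hv', hvz', j', hj', hjx'⟩
      · have := key_inj hK hvr hz (kv_of v hv) kz j 0 hj (klen_pos z) (hjx.trans hy)
        exact hLR v hv z hRz this.1
      · have := key_inj hK hvr (hRne v' hv') (kv_of v hv) (kv_of' v' hv') j j' hj hj'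
          (hjx.trans hjx'.symm)
        exact hLR v hv v' hv' this.1
  have hndall : (SVL ++ SVR ++ brl R (R.par z) l).Nodup := by
    rw [List.nodup_append, List.nodup_append]
    refine ⟨⟨grown_nodup a1, grown_nodup b1, ?_⟩, hspn.1, ?_⟩
    · rintro x hx y hy rfl
      exact dLR x hx hy
    · rintro x hx y hy rfl
      rw [msp] at hy
      obtain ⟨i, hi1, hi2, hi3⟩ := hy
      rw [List.mem_append, a5, b5] at hx
      rcases hx with (hx | ⟨v, hv, hvr, j, hj, hjx⟩) | (hx | ⟨v', hv', hvz', j', hj', hjx'⟩)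
      · exact ne_root hK hz hi2 (hi3.trans hx)
      · have := key_inj hK hvr hz (kv_of v hv) kz j i hj hi2 (hjx.trans hi3.symm)
        exact hLR v hv z hRz this.1
      · have := key_inj hK hz hz kz kz i 0 hi2 (klen_pos z) (hi3.trans hx)
        omega
      · have := key_inj hK (hRne v' hv') hz (kv_of' v' hv') kz j' i hj' hi2
          (hjx'.trans hi3.symm)
        exact hvz' this.1
  have hall : ∀ x, x ∈ SVL ++ SVR ++ brl R (R.par z) l := by
    intro x
    rw [List.mem_append, List.mem_append, a5, b5, msp]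
    by_cases hx : x = R.r
    · exact Or.inl (Or.inl (Or.inl hx))
    · obtain ⟨v, kv, hv, j, hj, hjx⟩ := cover hK x hx
      by_cases hvz : v = z
      · subst hvz
        rcases Nat.eq_zero_or_pos j with rfl | hj0
        · exact Or.inl (Or.inr (Or.inl hjx.symm))
        · exact Or.inr ⟨j, hj0, hj, hjx⟩
      · by_cases hd : Desc R z v
        · exact Or.inl (Or.inr (Or.inr ⟨v, (mR v).2 ⟨kv, hd⟩, hvz, j, hj, hjx⟩))
        · exact Or.inl (Or.inl (Or.inr ⟨v, (mL v).2 ⟨kv, hd⟩, hv, j, hj, hjx⟩))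
  obtain ⟨X, Y, sp, c1, c2, c3, c4⟩ := hmach T.Adj (fun v => decide (R.dep v % 2 = 0)) R.r z opsL
    opsR SVL AVL SVR AVR l (fun a c h => h.symm) (by
      intro u v huv
      rcases (hR u v).1 huv with ⟨h1, rfl⟩ | ⟨h1, rfl⟩
      · have := R.dep_par u h1
        intro h
        rw [decide_eq_decide] at h
        omega
      · have := R.dep_par v h1
        intro h
        rw [decide_eq_decide] at h
        omega) a1 b1 dLR (by omega) (by
      intro t ht
      rw [List.flatMap_append, List.mem_append] at ht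
      rcases ht with ht | ht
      · obtain ⟨v, hv, hvr, h2, h3, h4⟩ := a8 t ht
        have h5 := hmax v (kv_of v hv) hvr
        rcases hgap v (kv_of v hv) hvr with h6 | h6
        · omega
        · omega
      · obtain ⟨v, hv, hvz, h2, h3, h4⟩ := b8 t ht
        have hvr := hRne v hv
        have h5 := hmax v (kv_of' v hv) hvr
        rcases hgap v (kv_of' v hv) hvr with h6 | h6
        · omega
        · omega) (by omega)
  obtain ⟨X', Y', d1, d2⟩ := rows_of T R.r z SVL SVR (brl R (R.par z) l) sp X Y _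
    (by rw [c1, brl_length]) c2 (List.IsChain.imp hG hsp) c3 c4
  have hlen : Fintype.card V = SVL.length + SVR.length + l := by
    have h1 : (Finset.univ : Finset V) = (SVL ++ SVR ++ brl R (R.par z) l).toFinset := by
      ext v
      simp only [Finset.mem_univ, List.mem_toFinset, true_iff]
      exact hall v
    rw [← Finset.card_univ, h1, List.toFinset_card_of_nodup hndall]
    simp only [List.length_append, brl_length]
  refine alpha_of_rows T T.edgeSet.ncard rfl hcard.symm X' Y' (d1.nodup_iff.2 hndall)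
    (fun v => d1.mem_iff.2 (hall v)) ?_
  intro s hs
  exact d2 s (by omega)

end Pool.Agent.Few
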