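import Mathlib

set_option autoImplicit false

/-!
# Interface of the few-leaves theorem (recipes, labelled recipes)

A recipe describes a rooted tree; it is a list of steps with the LAST step FIRST. Nodes are numbered in
the order of creation; node `0` is the root.
-/

namespace Pool.Agent.Few

/-- A label: colour and number. -/
abbrev Lab := Bool × ℕ

/-- `x` and `y` are the two ends of the edge of sum `x.2 + y.2 < m`; for every `t < m` there is exactly
one edge of sum `t`: its end of colour `false` is number `a t`. -/
def Adj (a : ℕ → ℕ) (m : ℕ) (x y : Lab) : Prop :=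
  x.1 ≠ y.1 ∧ x.2 + y.2 < m ∧ a (x.2 + y.2) = bif x.1 then y.2 else x.2

/-- A step of a recipe. `s p`: a new node joined to node `p`. `l p t`: two new nodes `w, v` (in this
order), `w` joined to `p`, and a path with `t` inner vertices from `w` to `v`. -/
inductive Stp
  | s (p : ℕ)
  | l (p t : ℕ)
  deriving DecidableEq

/-- Number of nodes (last step first). -/
def nodes : List Stp → ℕ
  | [] => 1
  | .s _ :: R => nodes R + 1
  | .l _ _ :: R => nodes R + 2

/-- Number of edges of the tree. -/
def size : List Stp → ℕ
  | [] => 0
  | .s _ :: R => size R + 1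
  | .l _ t :: R => size R + (t + 2)

/-- Every step refers to an existing node. -/
def Wf : List Stp → Prop
  | [] => True
  | .s p :: R => Wf R ∧ p < nodes R
  | .l p _ :: R => Wf R ∧ p < nodes R

/-- The numbers of inner vertices of the long legs. -/
def lens : List Stp → List ℕ
  | [] => []
  | .s _ :: R => lens R
  | .l _ t :: R => t :: lens R

/-- The recipe without the lengths of its legs. -/
def skel : List Stp → List Stp
  | [] => []
  | .s p :: R => .s p :: skel R
  | .l p _ :: R => .l p 0 :: skel R

/-- `kap` (nodes) and `leg` (inner vertices of the leg from node `i` to node `i + 1`) are an embedding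
of the tree of the recipe into the graph with adjacency `Adj a m`. -/
def Emb (a : ℕ → ℕ) (m : ℕ) (kap : ℕ → Lab) (leg : ℕ → List Lab) : List Stp → Prop
  | [] => True
  | .s p :: R => Emb a m kap leg R ∧ Adj a m (kap p) (kap (nodes R))
  | .l p t :: R => Emb a m kap leg R ∧ Adj a m (kap p) (kap (nodes R)) ∧
      List.IsChain (Adj a m) (kap (nodes R) :: leg (nodes R) ++ [kap (nodes R + 1)]) ∧
      (leg (nodes R)).length = t

/-- All labels used by the recipe. -/
def labs (kap : ℕ → Lab) (leg : ℕ → List Lab) : List Stp → List Lab
  | [] => [kap 0]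
  | .s _ :: R => kap (nodes R) :: labs kap leg R
  | .l _ _ :: R => kap (nodes R) :: kap (nodes R + 1) :: (leg (nodes R) ++ labs kap leg R)

/-- The tree made of the trees of `RL` and `RR` and a path with `l` inner vertices joining their roots
has an alpha-labelling: labels `(false, i)`, `i < A` and `(true, i)`, `i < B`, each used exactly once
(`A + B = m + 1`, where `m` is the number of edges), and edge sums `0, ..., m - 1`. -/
def FewLab (RL RR : List Stp) (l : ℕ) : Prop :=
  ∃ (a : ℕ → ℕ) (kapL : ℕ → Lab) (legL : ℕ → List Lab) (kapR : ℕ → Lab) (legR : ℕ → List Lab)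
    (sp : List Lab) (A B : ℕ),
    A + B = size RL + size RR + l + 2 ∧
    Emb a (size RL + size RR + l + 1) kapL legL RL ∧
    Emb a (size RL + size RR + l + 1) kapR legR RR ∧
    List.IsChain (Adj a (size RL + size RR + l + 1)) (kapL 0 :: sp ++ [kapR 0]) ∧
    sp.length = l ∧
    (labs kapL legL RL ++ labs kapR legR RR ++ sp).Nodup ∧
    ∀ x ∈ labs kapL legL RL ++ labs kapR legR RR ++ sp, x.2 < bif x.1 then B else A

/-- The machine theorem. -/
def MachineThm : Prop :=
  ∀ sL sR : List Stp, ∃ F : ℕ, ∀ (RL RR : List Stp) (l : ℕ), skel RL = sL → skel RR = sR →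
    Wf RL → Wf RR → (∀ t ∈ lens RL ++ lens RR, Even t ∧ F ≤ t ∧ t ≤ l) → F ≤ l → FewLab RL RR l

end Pool.Agent.Few
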