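import Pool.Agent.Few.MArc

set_option autoImplicit false

/-! # Graph level: a strand swallows an arc -/

namespace Pool.Agent.Few

theorem absT_eq_op {x y z u : ℕ} {t : St} (hzx : z ≠ x) (hzy : z ≠ y) :
    absT x y z t = .op u ↔ (u = x ∧ t = .op z) ∨ (u ≠ x ∧ u ≠ y ∧ u ≠ z ∧ t = .op u) := by
  cases t with
  | free => simp [absT]
  | full => simp [absT]
  | op t =>
    simp only [absT]
    split_ifs with h1 h2 h3
    · subst h1
      constructor
      · intro h; cases h
      · rintro (⟨-, h⟩ | ⟨h1, -, -, h⟩)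
        · cases h; exact absurd rfl hzx
        · cases h; exact absurd rfl h1
    · subst h2
      constructor
      · intro h; cases h
      · rintro (⟨-, h⟩ | ⟨-, h1, -, h⟩)
        · cases h; exact absurd rfl hzy
        · cases h; exact absurd rfl h1
    · subst h3
      constructor
      · intro h; cases h; exact Or.inl ⟨rfl, rfl⟩
      · rintro (⟨h, -⟩ | ⟨-, -, h1, h⟩)
        · rw [h]
        · cases h; exact absurd rfl h1
    · constructor
      · intro h; cases h; exact Or.inr ⟨h1, h2, h3, rfl⟩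
      · rintro (⟨-, h⟩ | ⟨-, -, -, h⟩)
        · cases h; exact absurd rfl h3
        · exact h

theorem absT_eq_free {x y z : ℕ} {t : St} : absT x y z t = .free ↔ t = .free := by
  cases t with
  | free => simp [absT]
  | full => simp [absT]
  | op t => simp only [absT]; split_ifs <;> simp

/-- The strand with open end `x` swallows the arc with open ends `y` and `z`. -/
theorem G.absorb {s : ℕ} {st : Lab → St} {C : Cfg} (h : G s st C) {l l' : Lab} {x y z : ℕ}
    (hl : st l = .op x) (hl' : st l' = .op y) (hc : l.1 ≠ l'.1) (hs : l.2 + l'.2 = s)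
    (hm : C.mate y = .nm z) (hz : z ≠ x) :
    G (s + 1) (absT x y z ∘ st)
      { C with w := Function.update C.w x (C.w x + C.w y + C.w z) } := by
  obtain ⟨names, used, hsf, a, leg, I⟩ := h
  have hll : l ≠ l' := by rintro rfl; exact hc rfl
  have hxn : x ∈ names := (I.names_iff x).2 ⟨l, hl⟩
  have hyn : y ∈ names := (I.names_iff y).2 ⟨l', hl'⟩
  obtain ⟨hzn, hzy, hmz⟩ := I.mate_nm y hyn z hm
  have hxy : x ≠ y := by rintro rfl; exact hll (I.inj _ _ _ hl hl')
  set v := aval l l'
  have hadj : Adj (Function.update a s v) (s + 1) l l' := Adj.new a hc hs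
  set hs' := Function.update hsf x (hsf x ++ ((hsf y).reverse ++ hsf z)) with hhs'
  have hsx : hs' x = hsf x ++ ((hsf y).reverse ++ hsf z) := by rw [hhs', Function.update_self]
  have hso : ∀ u, u ≠ x → hs' u = hsf u := fun u hu => by rw [hhs', Function.update_of_ne hu]
  have hmem : ∀ u, u ∈ (names.erase y).erase z ↔ u ≠ z ∧ u ≠ y ∧ u ∈ names := by
    intro u; rw [Finset.mem_erase, Finset.mem_erase]
  -- the mate of `x`
  have hmx : ∀ u, C.mate x = .nm u → u ≠ x ∧ u ≠ y ∧ u ≠ z ∧ u ∈ names ∧ C.mate u = .nm x := by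
    intro u hu
    obtain ⟨h1, h2, h3⟩ := I.mate_nm x hxn u hu
    refine ⟨h2, ?_, ?_, h1, h3⟩
    · rintro rfl; rw [hm] at h3; cases h3; exact hz rfl
    · rintro rfl; rw [hmz] at h3; cases h3; exact hxy rfl
  have hfz : fullS C.kap C.mate hsf z = (hsf y).reverse ++ hsf z := fullS_nm hmz
  have hfx : fullS C.kap C.mate hs' x = fullS C.kap C.mate hsf x ++ fullS C.kap C.mate hsf z := by
    rw [hfz]
    cases hmm : C.mate x with
    | kv k => rw [fullS_kv hmm, fullS_kv hmm, hsx]; rfl
    | nm u =>
      obtain ⟨h1, -, -, -, -⟩ := hmx u hmm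
      rw [fullS_nm hmm, fullS_nm hmm, hsx, hso u h1]
      simp only [List.append_assoc]
  have hfo : ∀ u ∈ names, u ≠ x → C.mate x ≠ .nm u →
      fullS C.kap C.mate hs' u = fullS C.kap C.mate hsf u := by
    intro u hu hux hxu
    refine fullS_congr rfl (hso u hux) (fun w hw => hso w ?_) (fun _ _ => rfl)
    rintro rfl
    exact hxu (I.mate_nm u hu w hw).2.2
  have hfm : ∀ u, C.mate x = .nm u →
      fullS C.kap C.mate hs' u = fullS C.kap C.mate hsf y ++ fullS C.kap C.mate hsf u := by
    intro u hu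
    obtain ⟨h1, -, -, -, h5⟩ := hmx u hu
    rw [← fullS_reverse hu h5, hfx, List.reverse_append, fullS_reverse hmz hm,
      fullS_reverse hu h5]
  have hchx : List.IsChain (Adj (Function.update a s v) (s + 1)) (fullS C.kap C.mate hs' x) := by
    rw [hfx, List.isChain_append]
    refine ⟨chain_mono (I.chain x hxn) v, chain_mono (I.chain z hzn) v, ?_⟩
    intro p hp q hq
    rw [Option.mem_def] at hp hq
    rw [I.last l x hl] at hp
    rw [← fullS_reverse hm hmz, List.head?_reverse, I.last l' y hl'] at hq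
    cases hp; cases hq
    exact hadj
  have hnz : fullS C.kap C.mate hsf z ≠ [] := by
    intro h0
    have := I.last l' y hl'
    rw [← fullS_reverse hmz hm, h0] at this
    simp at this
  refine ⟨(names.erase y).erase z, used, hs', Function.update a s v, leg, ?_⟩
  constructor
  · intro u
    rw [hmem]
    constructor
    · rintro ⟨h1, h2, h3⟩
      by_cases hux : u = x
      · obtain ⟨m, hm'⟩ := (I.names_iff z).1 hzn
        exact ⟨m, (absT_eq_op hz hzy).2 (Or.inl ⟨hux, hm'⟩)⟩
      · obtain ⟨m, hm'⟩ := (I.names_iff u).1 h3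
        exact ⟨m, (absT_eq_op hz hzy).2 (Or.inr ⟨hux, h2, h1, hm'⟩)⟩
    · rintro ⟨m, hm'⟩
      rcases (absT_eq_op hz hzy).1 hm' with ⟨rfl, -⟩ | ⟨h1, h2, h3, h4⟩
      · exact ⟨fun h => hz h.symm, hxy, hxn⟩
      · exact ⟨h3, h2, (I.names_iff u).2 ⟨m, h4⟩⟩
  · intro m
    rw [I.used_iff, Function.comp_apply, Ne, Ne, absT_eq_free]
  · intro m m' u hmu hmu'
    rcases (absT_eq_op hz hzy).1 hmu with ⟨h1, h2⟩ | ⟨h1, -, -, h2⟩ <;>
      rcases (absT_eq_op hz hzy).1 hmu' with ⟨h1', h2'⟩ | ⟨h1', -, -, h2'⟩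
    · exact I.inj _ _ _ h2 h2'
    · exact absurd h1 h1'
    · exact absurd h1' h1
    · exact I.inj _ _ _ h2 h2'
  · intro u hu w hw
    rw [hmem] at hu ⊢
    obtain ⟨h1, h2, h3⟩ := I.mate_nm u hu.2.2 w hw
    refine ⟨⟨?_, ?_, h1⟩, h2, h3⟩
    · rintro rfl; rw [hmz] at h3; cases h3; exact hu.2.1 rfl
    · rintro rfl; rw [hm] at h3; cases h3; exact hu.1 rfl
  · intro u hu k hk
    rw [hmem] at hu
    exact I.mate_kv u hu.2.2 k hk
  · intro u hu u' hu' k hk hk'
    rw [hmem] at hu hu'
    exact I.kv_inj u hu.2.2 u' hu'.2.2 k hk hk'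
  · intro k hk
    obtain ⟨u, hu, hk'⟩ := I.tile k hk
    refine ⟨u, ?_, hk'⟩
    rw [hmem]
    refine ⟨?_, ?_, hu⟩
    · rintro rfl; rw [hmz] at hk'; cases hk'
    · rintro rfl; rw [hm] at hk'; cases hk'
  · intro u hu
    rw [hmem] at hu
    by_cases hux : u = x
    · subst hux; exact hchx
    · by_cases hxu : C.mate x = .nm u
      · obtain ⟨-, -, -, -, h5⟩ := hmx u hxu
        simp only
        rw [← fullS_reverse hxu h5]
        exact chain_reverse hchx
      · simp only
        rw [hfo u hu.2.2 hux hxu]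
        exact chain_mono (I.chain u hu.2.2) v
  · intro m u hmu
    simp only
    rcases (absT_eq_op hz hzy).1 hmu with ⟨rfl, h2⟩ | ⟨h1, h2, h3, h4⟩
    · rw [hfx, List.getLast?_append, I.last m z h2]; rfl
    · have hun : u ∈ names := (I.names_iff u).2 ⟨m, h4⟩
      by_cases hxu : C.mate x = .nm u
      · rw [hfm u hxu, List.getLast?_append, I.last m u h4]; rfl
      · rw [hfo u hun h1 hxu]
        exact I.last m u h4
  · intro u hu
    rw [hmem] at hu
    simp only
    by_cases hux : u = x
    · subst hux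
      rw [hsx, Function.update_self, List.length_append, List.length_append, List.length_reverse,
        I.len _ hxn, I.len _ hyn, I.len _ hzn, add_assoc]
    · rw [hso u hux, Function.update_of_ne hux]
      exact I.len u hu.2.2
  · exact I.far.mono v
  · intro i t hi
    obtain ⟨h1, h2, h3⟩ := I.legc i t hi
    exact ⟨h1, h2, chain_mono h3 v⟩
  · exact I.lego
  · rw [← I.flat]
    congr 1
    have hze : z ∈ names.erase y := Finset.mem_erase.2 ⟨hzy, hzn⟩
    have hxe : x ∈ (names.erase y).erase z := by rw [hmem]; exact ⟨fun h => hz h.symm, hxy, hxn⟩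
    rw [← Finset.add_sum_erase names (fun u => (hsf u : Multiset Lab)) hyn,
      ← Finset.add_sum_erase (names.erase y) (fun u => (hsf u : Multiset Lab)) hze,
      ← Finset.add_sum_erase ((names.erase y).erase z) (fun u => (hsf u : Multiset Lab)) hxe,
      ← Finset.add_sum_erase ((names.erase y).erase z) (fun u => (hs' u : Multiset Lab)) hxe]
    have : ∑ u ∈ ((names.erase y).erase z).erase x, (hs' u : Multiset Lab) =
        ∑ u ∈ ((names.erase y).erase z).erase x, (hsf u : Multiset Lab) :=
      Finset.sum_congr rfl fun u hu => by rw [hso u (Finset.ne_of_mem_erase hu)]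
    simp only [this, hsx]
    rw [← Multiset.coe_add, ← Multiset.coe_add, Multiset.coe_reverse]
    abel

end Pool.Agent.Few
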