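import Pool.Agent.Few.MExt

set_option autoImplicit false

/-! # Graph level: a new arc -/

namespace Pool.Agent.Few

/-- The full strands do not depend on the half strands and mates of names outside `names`. -/
theorem fullS_congr {kap kap' : ℕ → Lab} {mate mate' : ℕ → End} {hs hs' : ℕ → List Lab} {z : ℕ}
    (h1 : mate' z = mate z) (h2 : hs' z = hs z) (h3 : ∀ u, mate z = .nm u → hs' u = hs u)
    (h4 : ∀ k, mate z = .kv k → kap' k = kap k) :
    fullS kap' mate' hs' z = fullS kap mate hs z := by
  cases hm : mate z with
  | kv k => rw [fullS_kv hm, fullS_kv (h1.trans hm), h2, h4 k hm]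
  | nm u => rw [fullS_nm hm, fullS_nm (h1.trans hm), h2, h3 u hm]

/-- A new arc. -/
theorem G.arc {s : ℕ} {st : Lab → St} {C : Cfg} (h : G s st C) {l l' : Lab} {x y : ℕ}
    (hl : st l = .free) (hl' : st l' = .free) (hc : l.1 ≠ l'.1) (hs : l.2 + l'.2 = s)
    (hxy : x ≠ y) (hx : ∀ m, st m ≠ .op x) (hy : ∀ m, st m ≠ .op y) :
    G (s + 1) (Function.update (Function.update st l (.op x)) l' (.op y))
      { C with
        mate := Function.update (Function.update C.mate x (.nm y)) y (.nm x)
        w := Function.update (Function.update C.w x 1) y 1 } := by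
  obtain ⟨names, used, hsf, a, leg, I⟩ := h
  have hll : l ≠ l' := by rintro rfl; exact hc rfl
  have hxn : x ∉ names := fun h => by
    obtain ⟨m, hm⟩ := (I.names_iff x).1 h
    exact hx m hm
  have hyn : y ∉ names := fun h => by
    obtain ⟨m, hm⟩ := (I.names_iff y).1 h
    exact hy m hm
  set v := aval l l'
  refine ⟨insert x (insert y names), insert l (insert l' used),
    Function.update (Function.update hsf x [l]) y [l'], Function.update a s v, leg, ?_⟩
  have hadj : Adj (Function.update a s v) (s + 1) l l' := Adj.new a hc hs
  have hne : ∀ z ∈ names, z ≠ x ∧ z ≠ y := fun z hz =>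
    ⟨fun h => hxn (h ▸ hz), fun h => hyn (h ▸ hz)⟩
  -- the status
  have key : ∀ m z, Function.update (Function.update st l (.op x)) l' (.op y) m = .op z →
      (m = l' ∧ z = y) ∨ (m = l ∧ z = x) ∨ (m ≠ l' ∧ m ≠ l ∧ st m = .op z) := by
    intro m z hm
    by_cases hml' : m = l'
    · subst hml'; rw [Function.update_self] at hm; cases hm; exact Or.inl ⟨rfl, rfl⟩
    · rw [Function.update_of_ne hml'] at hm
      by_cases hml : m = l
      · subst hml; rw [Function.update_self] at hm; cases hm; exact Or.inr (Or.inl ⟨rfl, rfl⟩)
      · rw [Function.update_of_ne hml] at hm; exact Or.inr (Or.inr ⟨hml', hml, hm⟩)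
  have hstl' : Function.update (Function.update st l (.op x)) l' (.op y) l' = .op y := by simp
  have hstl : Function.update (Function.update st l (.op x)) l' (.op y) l = .op x := by
    rw [Function.update_of_ne hll, Function.update_self]
  -- the full strands
  have hmx : Function.update (Function.update C.mate x (.nm y)) y (.nm x) x = .nm y := by
    rw [Function.update_of_ne hxy, Function.update_self]
  have hmy : Function.update (Function.update C.mate x (.nm y)) y (.nm x) y = .nm x := by
    rw [Function.update_self]
  have hmo : ∀ z ∈ names, Function.update (Function.update C.mate x (.nm y)) y (.nm x) z =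
      C.mate z := by
    intro z hz
    rw [Function.update_of_ne (hne z hz).2, Function.update_of_ne (hne z hz).1]
  have hhx : Function.update (Function.update hsf x [l]) y [l'] x = [l] := by
    rw [Function.update_of_ne hxy, Function.update_self]
  have hhy : Function.update (Function.update hsf x [l]) y [l'] y = [l'] := by
    rw [Function.update_self]
  have hho : ∀ z ∈ names, Function.update (Function.update hsf x [l]) y [l'] z = hsf z := by
    intro z hz
    rw [Function.update_of_ne (hne z hz).2, Function.update_of_ne (hne z hz).1]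
  have hfx : fullS C.kap (Function.update (Function.update C.mate x (.nm y)) y (.nm x))
      (Function.update (Function.update hsf x [l]) y [l']) x = [l', l] := by
    rw [fullS_nm hmx, hhx, hhy]; rfl
  have hfy : fullS C.kap (Function.update (Function.update C.mate x (.nm y)) y (.nm x))
      (Function.update (Function.update hsf x [l]) y [l']) y = [l, l'] := by
    rw [fullS_nm hmy, hhx, hhy]; rfl
  have hfo : ∀ z ∈ names, fullS C.kap
      (Function.update (Function.update C.mate x (.nm y)) y (.nm x))
      (Function.update (Function.update hsf x [l]) y [l']) z = fullS C.kap C.mate hsf z := by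
    intro z hz
    exact fullS_congr (hmo z hz) (hho z hz) (fun u hu => hho u (I.mate_nm z hz u hu).1)
      (fun _ _ => rfl)
  constructor
  · intro z
    rw [Finset.mem_insert, Finset.mem_insert]
    constructor
    · rintro (rfl | rfl | hz)
      · exact ⟨l, hstl⟩
      · exact ⟨l', hstl'⟩
      · obtain ⟨m, hm⟩ := (I.names_iff z).1 hz
        have h1 : m ≠ l' := by rintro rfl; rw [hl'] at hm; exact absurd hm (by simp)
        have h2 : m ≠ l := by rintro rfl; rw [hl] at hm; exact absurd hm (by simp)
        exact ⟨m, by rw [Function.update_of_ne h1, Function.update_of_ne h2, hm]⟩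
    · rintro ⟨m, hm⟩
      rcases key m z hm with ⟨-, rfl⟩ | ⟨-, rfl⟩ | ⟨-, -, h3⟩
      · exact Or.inr (Or.inl rfl)
      · exact Or.inl rfl
      · exact Or.inr (Or.inr ((I.names_iff z).2 ⟨m, h3⟩))
  · intro m
    rw [Finset.mem_insert, Finset.mem_insert, I.used_iff]
    by_cases hml' : m = l'
    · subst hml'; simp
    · rw [Function.update_of_ne hml']
      by_cases hml : m = l
      · subst hml; simp
      · rw [Function.update_of_ne hml]; simp [hml', hml]
  · intro m m' z hm hm'
    rcases key m z hm with ⟨h1, h2⟩ | ⟨h1, h2⟩ | ⟨h1, h2, h3⟩ <;>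
      rcases key m' z hm' with ⟨h1', h2'⟩ | ⟨h1', h2'⟩ | ⟨h1', h2', h3'⟩
    · rw [h1, h1']
    · exact absurd (h2'.symm.trans h2) hxy
    · exact absurd (h2 ▸ h3') (hy m')
    · exact absurd (h2.symm.trans h2') hxy
    · rw [h1, h1']
    · exact absurd (h2 ▸ h3') (hx m')
    · exact absurd (h2' ▸ h3) (hy m)
    · exact absurd (h2' ▸ h3) (hx m)
    · exact I.inj _ _ _ h3 h3'
  · intro z hz u hu
    simp only [Finset.mem_insert] at hz ⊢
    rcases hz with rfl | rfl | hz
    · simp only [hmx] at hu
      cases hu
      exact ⟨Or.inr (Or.inl rfl), hxy.symm, hmy⟩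
    · simp only [hmy] at hu
      cases hu
      exact ⟨Or.inl rfl, hxy, hmx⟩
    · simp only [hmo z hz] at hu
      obtain ⟨h1, h2, h3⟩ := I.mate_nm z hz u hu
      exact ⟨Or.inr (Or.inr h1), h2, by rw [hmo u h1]; exact h3⟩
  · intro z hz k hk
    simp only [Finset.mem_insert] at hz
    rcases hz with rfl | rfl | hz
    · simp only [hmx] at hk; exact absurd hk (by simp)
    · simp only [hmy] at hk; exact absurd hk (by simp)
    · simp only [hmo z hz] at hk
      exact I.mate_kv z hz k hk
  · intro z hz z' hz' k hk hk'
    simp only [Finset.mem_insert] at hz hz'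
    rcases hz with rfl | rfl | hz
    · simp only [hmx] at hk; cases hk
    · simp only [hmy] at hk; cases hk
    · rcases hz' with rfl | rfl | hz'
      · simp only [hmx] at hk'; cases hk'
      · simp only [hmy] at hk'; cases hk'
      · simp only [hmo z hz] at hk
        simp only [hmo z' hz'] at hk'
        exact I.kv_inj z hz z' hz' k hk hk'
  · intro k hk
    obtain ⟨z, hz, hk'⟩ := I.tile k hk
    refine ⟨z, ?_, ?_⟩
    · simp only [Finset.mem_insert]; exact Or.inr (Or.inr hz)
    · simp only [hmo z hz]; exact hk'
  · intro z hz
    simp only [Finset.mem_insert] at hz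
    simp only
    rcases hz with rfl | rfl | hz
    · rw [hfx]
      simp only [List.isChain_cons_cons, List.isChain_singleton, and_true]
      exact hadj.symm
    · rw [hfy]
      simp only [List.isChain_cons_cons, List.isChain_singleton, and_true]
      exact hadj
    · rw [hfo z hz]
      exact chain_mono (I.chain z hz) v
  · intro m z hm
    simp only
    rcases key m z hm with ⟨rfl, rfl⟩ | ⟨rfl, rfl⟩ | ⟨-, -, h3⟩
    · rw [hfy]; rfl
    · rw [hfx]; rfl
    · rw [hfo z ((I.names_iff z).2 ⟨m, h3⟩)]
      exact I.last m z h3
  · intro z hz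
    simp only [Finset.mem_insert] at hz
    simp only
    rcases hz with rfl | rfl | hz
    · rw [hhx, Function.update_of_ne hxy, Function.update_self]; rfl
    · rw [hhy, Function.update_self]; rfl
    · rw [hho z hz, Function.update_of_ne (hne z hz).2, Function.update_of_ne (hne z hz).1]
      exact I.len z hz
  · exact I.far.mono v
  · intro i t hi
    obtain ⟨h1, h2, h3⟩ := I.legc i t hi
    exact ⟨h1, h2, chain_mono h3 v⟩
  · exact I.lego
  · have hnot' : l' ∉ used := by rw [I.used_iff]; simp [hl']
    have hnot : l ∉ insert l' used := by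
      rw [Finset.mem_insert, I.used_iff]; simp [hl, hll]
    have hx' : x ∉ insert y names := by
      rw [Finset.mem_insert]; rintro (h | h)
      · exact hxy h
      · exact hxn h
    rw [Finset.insert_val_of_notMem hnot, Finset.insert_val_of_notMem hnot', ← I.flat,
      Finset.sum_insert hx', Finset.sum_insert hyn, hhx, hhy]
    have : ∑ z ∈ names, (Function.update (Function.update hsf x [l]) y [l'] z : Multiset Lab) =
        ∑ z ∈ names, (hsf z : Multiset Lab) :=
      Finset.sum_congr rfl fun z hz => by rw [hho z hz]
    rw [this, ← Multiset.singleton_add l, ← Multiset.singleton_add l']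
    have e1 : (([l] : List Lab) : Multiset Lab) = {l} := rfl
    have e2 : (([l'] : List Lab) : Multiset Lab) = {l'} := rfl
    rw [e1, e2]
    abel

end Pool.Agent.Few
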