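import Pool.Agent.Few.Core

set_option autoImplicit false

/-! # Graph level: basic lemmas -/

namespace Pool.Agent.Few

theorem Adj.symm {a : ℕ → ℕ} {m : ℕ} {x y : Lab} (h : Adj a m x y) : Adj a m y x := by
  obtain ⟨h1, h2, h3⟩ := h
  refine ⟨fun h => h1 h.symm, by omega, ?_⟩
  rw [add_comm, h3]
  rcases x with ⟨b, i⟩
  rcases y with ⟨b', j⟩
  cases b <;> cases b' <;> simp_all

theorem Adj.mono {a : ℕ → ℕ} {s : ℕ} {x y : Lab} (h : Adj a s x y) (v : ℕ) :
    Adj (Function.update a s v) (s + 1) x y := by
  obtain ⟨h1, h2, h3⟩ := h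
  refine ⟨h1, by omega, ?_⟩
  rw [Function.update_of_ne (by omega)]
  exact h3

/-- The value of `a` at the sum of a new edge. -/
def aval (x y : Lab) : ℕ := bif x.1 then y.2 else x.2

theorem Adj.new (a : ℕ → ℕ) {s : ℕ} {x y : Lab} (hc : x.1 ≠ y.1) (hs : x.2 + y.2 = s) :
    Adj (Function.update a s (aval x y)) (s + 1) x y := by
  refine ⟨hc, by omega, ?_⟩
  rw [hs, Function.update_self]
  rfl

theorem chain_mono {a : ℕ → ℕ} {s : ℕ} {L : List Lab} (h : List.IsChain (Adj a s) L) (v : ℕ) :
    List.IsChain (Adj (Function.update a s v) (s + 1)) L :=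
  List.IsChain.imp (fun _ _ h => h.mono v) h

theorem Far.mono {a : ℕ → ℕ} {s : ℕ} {kap : ℕ → Lab} {R : List Stp} (h : Far a s kap R) (v : ℕ) :
    Far (Function.update a s v) (s + 1) kap R := by
  induction R with
  | nil => trivial
  | cons st R ih =>
    cases st with
    | s p => exact ⟨ih h.1, h.2.1, h.2.2.mono v⟩
    | l p t => exact ⟨ih h.1, h.2.1, h.2.2.1.mono v, h.2.2.2⟩

theorem chain_reverse {a : ℕ → ℕ} {s : ℕ} {L : List Lab} (h : List.IsChain (Adj a s) L) :
    List.IsChain (Adj a s) L.reverse := by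
  rw [List.isChain_reverse]
  exact List.IsChain.imp (fun _ _ h => h.symm) h

theorem fullS_nm {kap : ℕ → Lab} {mate : ℕ → End} {hs : ℕ → List Lab} {x y : ℕ}
    (h : mate x = .nm y) : fullS kap mate hs x = (hs y).reverse ++ hs x := by
  simp [fullS, h]

theorem fullS_kv {kap : ℕ → Lab} {mate : ℕ → End} {hs : ℕ → List Lab} {x k : ℕ}
    (h : mate x = .kv k) : fullS kap mate hs x = kap k :: hs x := by
  simp [fullS, h]

theorem fullS_reverse {kap : ℕ → Lab} {mate : ℕ → End} {hs : ℕ → List Lab} {x y : ℕ}
    (h : mate x = .nm y) (h' : mate y = .nm x) :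
    (fullS kap mate hs x).reverse = fullS kap mate hs y := by
  simp [fullS, h, h']

/-- Effect of `absorb` on the status: the ends `x` and `y` are joined, the end `z` (the mate of `y`)
gets the name `x`. -/
def absT (x y z : ℕ) : St → St
  | .op t => if t = x then .full else if t = y then .full else if t = z then .op x else .op t
  | .free => .free
  | .full => .full

/-- Effect of `close` on the status. -/
def closeT (x y : ℕ) : St → St
  | .op t => if t = x then .full else if t = y then .full else .op t
  | .free => .free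
  | .full => .full

theorem nodes_pos (R : List Stp) : 0 < nodes R := by
  cases R with
  | nil => simp [nodes]
  | cons st R => cases st <;> simp [nodes]

end Pool.Agent.Few
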