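import Pool.Agent.Few.MCrystal

set_option autoImplicit false

/-!
# Crystal states as one list

`CW n s W C`: the list `W = P ++ A` (`n` passive names, then `n + 1` active names) is the word of a
crystal state after `s` sums.
-/

namespace Pool.Agent.Few

/-- Crystal state given by its word. -/
def CW (n s : ℕ) (W : List ℕ) (C : Cfg) : Prop :=
  ∃ c h h', Cr n s c h (W.drop n) h' (W.take n) C

/-- Same nodes, same legs. -/
def SameK (C C' : Cfg) : Prop := C'.kap = C.kap ∧ C'.sk = C.sk ∧ C'.cl = C.cl ∧ C'.tl = C.tl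

/-- On the names in `L`: same mates, lengths have grown by at most `d`. -/
def GrowOn (L : List ℕ) (d : ℕ) (C C' : Cfg) : Prop :=
  ∀ t ∈ L, C'.mate t = C.mate t ∧ C.w t ≤ C'.w t ∧ C'.w t ≤ C.w t + d

/-- Replace the name `z` by `x`. -/
def ren (z x : ℕ) (t : ℕ) : ℕ := if t = z then x else t

theorem CW.length {n s : ℕ} {W : List ℕ} {C : Cfg} (H : CW n s W C) : W.length = 2 * n + 1 := by
  obtain ⟨c, h, h', H⟩ := H
  have h1 := H.lenA
  have h2 := H.lenP
  rw [List.length_drop] at h1
  rw [List.length_take] at h2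
  omega

theorem CW.nodup {n s : ℕ} {W : List ℕ} {C : Cfg} (H : CW n s W C) : W.Nodup := by
  obtain ⟨c, h, h', H⟩ := H
  have := H.nodup
  rwa [List.take_append_drop] at this

/-- Mates are in the word. -/
theorem CW.mate {n s : ℕ} {W : List ℕ} {C : Cfg} (H : CW n s W C) {x y : ℕ} (hx : x ∈ W)
    (hm : C.mate x = .nm y) : y ∈ W ∧ y ≠ x ∧ C.mate y = .nm x := by
  obtain ⟨c, h, h', H⟩ := H
  have := H.mate (x := x) (y := y) (by rwa [List.take_append_drop]) hm
  rwa [List.take_append_drop] at this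

/-- Every node in `tl` has its strand in the word. -/
theorem CW.tile {n s : ℕ} {W : List ℕ} {C : Cfg} (H : CW n s W C) {k : ℕ} (hk : k ∈ C.tl) :
    ∃ x ∈ W, C.mate x = .kv k := by
  obtain ⟨c, h, h', H⟩ := H
  obtain ⟨x, l, hl, hm⟩ := G.tile H.mq hk
  have h1 := (H.mem_iff x).2 ⟨l, hl⟩
  rw [List.take_append_drop] at h1
  exact ⟨x, h1, hm⟩

theorem CW.mate_kv {n s : ℕ} {W : List ℕ} {C : Cfg} (H : CW n s W C) {x k : ℕ} (hx : x ∈ W)
    (hm : C.mate x = .kv k) : k < nodes C.sk ∧ k ∈ C.tl := by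
  obtain ⟨c, h, h', H⟩ := H
  obtain ⟨l, hl⟩ := (H.mem_iff x).1 (by rwa [List.take_append_drop])
  exact G.mate_kv H.mq hl hm

theorem CW.kv_inj {n s : ℕ} {W : List ℕ} {C : Cfg} (H : CW n s W C) {x y k : ℕ} (hx : x ∈ W)
    (hy : y ∈ W) (hm : C.mate x = .kv k) (hm' : C.mate y = .kv k) : x = y := by
  obtain ⟨c, h, h', H⟩ := H
  obtain ⟨l, hl⟩ := (H.mem_iff x).1 (by rwa [List.take_append_drop])
  obtain ⟨l', hl'⟩ := (H.mem_iff y).1 (by rwa [List.take_append_drop])
  exact G.kv_inj H.mq hl hl' hm hm'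

/-- The two nodes of a long leg have opposite colours; closed legs are even. -/
theorem CW.even {n s : ℕ} {W : List ℕ} {C : Cfg} (H : CW n s W C) {i t : ℕ} (hi : i ∈ legsOf C.sk)
    (ht : C.cl i = some t) : Even t := by
  obtain ⟨c, h, h', H⟩ := H
  exact G.even H.mq ht (G.legcol H.mq hi)

theorem MCW_Gcongr {s : ℕ} {st : Lab → St} {C C' : Cfg} (h : G s st C) (hk : SameK C C')
    (hW : ∀ t, (∃ l, st l = .op t) → C'.mate t = C.mate t ∧ C'.w t = C.w t) : G s st C' := by
  obtain ⟨names, used, hs, a, leg, I⟩ := h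
  obtain ⟨k1, k2, k3, k4⟩ := hk
  have hm : ∀ x ∈ names, C'.mate x = C.mate x := fun x hx => (hW x ((I.names_iff x).1 hx)).1
  have hw : ∀ x ∈ names, C'.w x = C.w x := fun x hx => (hW x ((I.names_iff x).1 hx)).2
  have hf : ∀ x ∈ names, fullS C'.kap C'.mate hs x = fullS C.kap C.mate hs x := by
    intro x hx
    simp only [fullS, hm x hx, k1]
  refine ⟨names, used, hs, a, leg, ?_⟩
  constructor
  · exact I.names_iff
  · exact I.used_iff
  · exact I.inj
  · intro x hx y hy
    rw [hm x hx] at hy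
    obtain ⟨h1, h2, h3⟩ := I.mate_nm x hx y hy
    exact ⟨h1, h2, by rw [hm y h1]; exact h3⟩
  · intro x hx k hk
    rw [hm x hx] at hk
    rw [k2, k4]
    exact I.mate_kv x hx k hk
  · intro x hx y hy k hk hk'
    rw [hm x hx] at hk
    rw [hm y hy] at hk'
    exact I.kv_inj x hx y hy k hk hk'
  · intro k hk
    rw [k4] at hk
    obtain ⟨x, hx, h1⟩ := I.tile k hk
    exact ⟨x, hx, by rw [hm x hx]; exact h1⟩
  · intro x hx
    rw [hf x hx]
    exact I.chain x hx
  · intro l x hx
    rw [hf x ((I.names_iff x).2 ⟨l, hx⟩)]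
    exact I.last l x hx
  · intro x hx
    rw [hw x hx]
    exact I.len x hx
  · rw [k1, k2]; exact I.far
  · intro i t ht
    rw [k3] at ht
    rw [k1, k2]
    exact I.legc i t ht
  · intro i ht
    rw [k3] at ht
    exact I.lego i ht
  · rw [k1, k2]; exact I.flat

/-- Only the mates and the lengths of the names in the word matter. -/
theorem CW.congr {n s : ℕ} {W : List ℕ} {C C' : Cfg} (H : CW n s W C) (hk : SameK C C')
    (hW : ∀ t ∈ W, C'.mate t = C.mate t ∧ C'.w t = C.w t) : CW n s W C' := by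
  obtain ⟨c, h, h', H⟩ := H
  refine ⟨c, h, h', ?_, H.lenA, H.lenP, H.sum⟩
  refine MCW_Gcongr H.mq hk ?_
  intro t ht
  apply hW
  have h1 := (H.mem_iff t).2 ht
  rwa [List.take_append_drop] at h1

/-- One step. -/
theorem CW.step {n s : ℕ} {W1 W2 : List ℕ} {x : ℕ} {C : Cfg} (H : CW n s (W1 ++ x :: W2) C)
    (h1 : W1.length = n) : CW n (s + 1) (W2 ++ W1 ++ [x]) (bump [x] C) := by
  obtain ⟨c, h, h', H⟩ := H
  have hd : (W1 ++ x :: W2).drop n = x :: W2 := by
    rw [← h1]; simp
  have ht : (W1 ++ x :: W2).take n = W1 := by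
    rw [← h1]; simp
  rw [hd, ht] at H
  have h2 : W2.length = n := by
    have := H.lenA
    simpa using this
  have H' := H.step
  refine ⟨!c, h', h + 1, ?_⟩
  have hd' : (W2 ++ W1 ++ [x]).drop n = W1 ++ [x] := by
    rw [← h2, List.append_assoc]; simp
  have ht' : (W2 ++ W1 ++ [x]).take n = W2 := by
    rw [← h2, List.append_assoc]; simp
  rw [hd', ht']
  exact H'

theorem MCW_bump_bump (L L' : List ℕ) (C : Cfg) : bump L (bump L' C) = bump (L' ++ L) C := by
  unfold bump
  simp only [List.count_append]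
  congr 1
  funext x
  ring

/-- The names which are extended in the first `t` steps. -/
def MCW_L (n : ℕ) (W : List ℕ) (t : ℕ) : List ℕ :=
  (List.range t).map fun j => W.getD ((j * (n + 1) + n) % (2 * n + 1)) 0

theorem MCW_stepsL {n s : ℕ} {W : List ℕ} {C : Cfg} (H : CW n s W C) (t : ℕ) :
    CW n (s + t) (W.rotate (t * (n + 1))) (bump (MCW_L n W t) C) := by
  induction t with
  | zero =>
    have : bump (MCW_L n W 0) C = C := by
      simp [bump, MCW_L]
    rw [this]
    simpa using H
  | succ t ih =>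
    have hlen := H.length
    have hlt : (W.rotate (t * (n + 1))).length = 2 * n + 1 := by rw [List.length_rotate, hlen]
    set V := W.rotate (t * (n + 1)) with hV
    have hn : n < V.length := by omega
    have hsplit : V = V.take n ++ V[n] :: V.drop (n + 1) := by
      rw [List.getElem_cons_drop, List.take_append_drop]
    have h1 : (V.take n).length = n := by rw [List.length_take]; omega
    rw [hsplit] at ih
    have h2 := CW.step ih h1
    have hr : V.drop (n + 1) ++ V.take n ++ [V[n]] = W.rotate ((t + 1) * (n + 1)) := by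
      rw [show (t + 1) * (n + 1) = t * (n + 1) + (n + 1) by ring, ← List.rotate_rotate, ← hV]
      rw [List.rotate_eq_drop_append_take (by omega), List.append_assoc]
      congr 1
      rw [List.take_add_one]
      simp [hn]
    rw [hr, MCW_bump_bump] at h2
    have hL : MCW_L n W t ++ [V[n]] = MCW_L n W (t + 1) := by
      unfold MCW_L
      rw [List.range_succ, List.map_append]
      congr 1
      simp only [List.map_cons, List.map_nil, List.cons.injEq, and_true]
      have h3 : V[n] = W[(n + t * (n + 1)) % W.length]'(Nat.mod_lt _ (by omega)) := by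
        rw [← List.getElem_rotate W (t * (n + 1)) n (by rw [← hV]; exact hn)]
      rw [h3, List.getD_eq_getElem?_getD]
      have h4 : (t * (n + 1) + n) % (2 * n + 1) = (n + t * (n + 1)) % W.length := by
        rw [hlen, add_comm]
      rw [h4, List.getElem?_eq_getElem (Nat.mod_lt _ (by omega))]
      rfl
    rw [hL] at h2
    exact h2

theorem MCW_L_length (n : ℕ) (W : List ℕ) (t : ℕ) : (MCW_L n W t).length = t := by
  simp [MCW_L]

theorem MCW_L_perm {n : ℕ} {W : List ℕ} (hW : W.length = 2 * n + 1) (hn : W.Nodup) :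
    (MCW_L n W (2 * n + 1)).Perm W := by
  have hsub : ∀ x ∈ MCW_L n W (2 * n + 1), x ∈ W := by
    intro x hx
    simp only [MCW_L, List.mem_map, List.mem_range] at hx
    obtain ⟨j, hj, rfl⟩ := hx
    rw [List.getD_eq_getElem _ _ (by rw [hW]; exact Nat.mod_lt _ (by omega))]
    exact List.getElem_mem _
  have hnd : (MCW_L n W (2 * n + 1)).Nodup := by
    unfold MCW_L
    refine List.Nodup.map_on ?_ List.nodup_range
    intro i hi j hj hij
    rw [List.mem_range] at hi hj
    rw [List.getD_eq_getElem _ _ (by rw [hW]; exact Nat.mod_lt _ (by omega)),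
      List.getD_eq_getElem _ _ (by rw [hW]; exact Nat.mod_lt _ (by omega)),
      List.Nodup.getElem_inj_iff hn] at hij
    -- multiply by 2
    have h1 : (2 * (i * (n + 1) + n)) ≡ (2 * (j * (n + 1) + n)) [MOD (2 * n + 1)] :=
      Nat.ModEq.mul_left 2 hij
    have h2 : 2 * (i * (n + 1) + n) = (i + 1) * (2 * n + 1) + (i + 2 * n - 2 * n) - 1 := by
      have : i + 2 * n - 2 * n = i := by omega
      rw [this]
      have : (i + 1) * (2 * n + 1) = 2 * (i * n) + i + 2 * n + 1 := by ring
      have : 2 * (i * (n + 1) + n) = 2 * (i * n) + 2 * i + 2 * n := by ring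
      omega
    have h3 : ∀ k : ℕ, 2 * (k * (n + 1) + n) + 1 = (k + 1) * (2 * n + 1) + k := by
      intro k; ring
    have h4 := Nat.ModEq.add_right 1 h1
    rw [h3, h3] at h4
    have h5 : i ≡ j [MOD (2 * n + 1)] := by
      have e1 : (i + 1) * (2 * n + 1) + i ≡ i [MOD (2 * n + 1)] := by
        simp [Nat.ModEq, Nat.add_mod]
      have e2 : (j + 1) * (2 * n + 1) + j ≡ j [MOD (2 * n + 1)] := by
        simp [Nat.ModEq, Nat.add_mod]
      exact e1.symm.trans (h4.trans e2)
    exact Nat.ModEq.eq_of_lt_of_lt h5 hi hj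
  refine List.Subperm.perm_of_length_le (List.Nodup.subperm hnd hsub) ?_
  rw [MCW_L_length, hW]

/-- Any number of steps. -/
theorem CW.steps {n s : ℕ} {W : List ℕ} {C : Cfg} (H : CW n s W C) (t : ℕ) :
    ∃ C', CW n (s + t) (W.rotate (t * (n + 1))) C' ∧ SameK C C' ∧ GrowOn W t C C' := by
  refine ⟨_, MCW_stepsL H t, ⟨rfl, rfl, rfl, rfl⟩, ?_⟩
  intro x _
  refine ⟨rfl, ?_, ?_⟩
  · show C.w x ≤ C.w x + _
    omega
  · show C.w x + List.count x (MCW_L n W t) ≤ C.w x + t
    have h1 : List.count x (MCW_L n W t) ≤ (MCW_L n W t).length := List.count_le_length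
    rw [MCW_L_length] at h1
    omega

/-- A row (`2 n + 1` steps) extends every strand end by one vertex. -/
theorem CW.row {n s : ℕ} {W : List ℕ} {C : Cfg} (H : CW n s W C) :
    CW n (s + (2 * n + 1)) W (bump W C) := by
  have h1 := MCW_stepsL H (2 * n + 1)
  have h2 : W.rotate ((2 * n + 1) * (n + 1)) = W := by
    have h3 := List.rotate_length_mul W (n + 1)
    rwa [H.length] at h3
  have h4 : bump (MCW_L n W (2 * n + 1)) C = bump W C := by
    unfold bump
    congr 1
    funext x
    rw [(MCW_L_perm H.length H.nodup).count_eq]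
  rwa [h2, h4] at h1

/-- `i` rows. -/
theorem CW.rows {n s : ℕ} {W : List ℕ} {C : Cfg} (H : CW n s W C) (i : ℕ) :
    ∃ C', CW n (s + i * (2 * n + 1)) W C' ∧ SameK C C' ∧
      ∀ t ∈ W, C'.mate t = C.mate t ∧ C'.w t = C.w t + i := by
  induction i with
  | zero => exact ⟨C, by simpa using H, ⟨rfl, rfl, rfl, rfl⟩, fun t _ => ⟨rfl, rfl⟩⟩
  | succ i ih =>
    obtain ⟨C', h1, ⟨k1, k2, k3, k4⟩, h2⟩ := ih
    refine ⟨bump W C', ?_, ⟨k1, k2, k3, k4⟩, ?_⟩
    · have h3 := h1.row
      have h4 : s + (i + 1) * (2 * n + 1) = s + i * (2 * n + 1) + (2 * n + 1) := by ring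
      rw [h4]
      exact h3
    · intro t ht
      refine ⟨(h2 t ht).1, ?_⟩
      show C'.w t + List.count t W = _
      rw [(h2 t ht).2, List.count_eq_one_of_mem H.nodup ht]
      ring

end Pool.Agent.Few
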