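import Pool.Agent.Few.MArc

set_option autoImplicit false

/-! # Graph level: closing a leg -/

namespace Pool.Agent.Few

theorem closeT_eq_op {x y u : ℕ} {t : St} :
    closeT x y t = .op u ↔ u ≠ x ∧ u ≠ y ∧ t = .op u := by
  cases t with
  | free => simp [closeT]
  | full => simp [closeT]
  | op t =>
    simp only [closeT]
    split_ifs with h1 h2
    · subst h1
      constructor
      · intro h; cases h
      · rintro ⟨h1, -, h⟩; cases h; exact absurd rfl h1
    · subst h2
      constructor
      · intro h; cases h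
      · rintro ⟨-, h1, h⟩; cases h; exact absurd rfl h1
    · constructor
      · intro h; cases h; exact ⟨h1, h2, rfl⟩
      · rintro ⟨-, -, h⟩; exact h

theorem closeT_eq_free {x y : ℕ} {t : St} : closeT x y t = .free ↔ t = .free := by
  cases t with
  | free => simp [closeT]
  | full => simp [closeT]
  | op t => simp only [closeT]; split_ifs <;> simp

/-- Closing the leg from node `i` to node `i + 1`. -/
theorem G.close {s : ℕ} {st : Lab → St} {C : Cfg} (h : G s st C) {l l' : Lab} {x y i : ℕ}
    (hl : st l = .op x) (hl' : st l' = .op y) (hc : l.1 ≠ l'.1) (hs : l.2 + l'.2 = s)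
    (hx : C.mate x = .kv i) (hy : C.mate y = .kv (i + 1)) (hi : C.cl i = none) :
    G (s + 1) (closeT x y ∘ st)
      { C with
        cl := Function.update C.cl i (some (C.w x + C.w y))
        tl := (C.tl.erase i).erase (i + 1) } := by
  obtain ⟨names, used, hsf, a, leg, I⟩ := h
  have hxn : x ∈ names := (I.names_iff x).2 ⟨l, hl⟩
  have hyn : y ∈ names := (I.names_iff y).2 ⟨l', hl'⟩
  have hxy : x ≠ y := by rintro rfl; rw [hx] at hy; cases hy
  set v := aval l l'
  have hadj : Adj (Function.update a s v) (s + 1) l l' := Adj.new a hc hs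
  have hmem : ∀ u, u ∈ (names.erase x).erase y ↔ u ≠ y ∧ u ≠ x ∧ u ∈ names := by
    intro u; rw [Finset.mem_erase, Finset.mem_erase]
  have hi1 : i + 1 < nodes C.sk := (I.mate_kv y hyn _ hy).1
  have hchain : List.IsChain (Adj (Function.update a s v) (s + 1))
      (C.kap i :: (hsf x ++ (hsf y).reverse) ++ [C.kap (i + 1)]) := by
    have e : C.kap i :: (hsf x ++ (hsf y).reverse) ++ [C.kap (i + 1)] =
        fullS C.kap C.mate hsf x ++ (fullS C.kap C.mate hsf y).reverse := by
      rw [fullS_kv hx, fullS_kv hy]; simp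
    rw [e, List.isChain_append]
    refine ⟨chain_mono (I.chain x hxn) v, chain_reverse (chain_mono (I.chain y hyn) v), ?_⟩
    intro p hp q hq
    rw [Option.mem_def] at hp hq
    rw [I.last l x hl] at hp
    rw [List.head?_reverse, I.last l' y hl'] at hq
    cases hp; cases hq
    exact hadj
  refine ⟨(names.erase x).erase y, used, hsf, Function.update a s v,
    Function.update leg i (hsf x ++ (hsf y).reverse), ?_⟩
  constructor
  · intro u
    rw [hmem]
    constructor
    · rintro ⟨h1, h2, h3⟩
      obtain ⟨m, hm'⟩ := (I.names_iff u).1 h3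
      exact ⟨m, closeT_eq_op.2 ⟨h2, h1, hm'⟩⟩
    · rintro ⟨m, hm'⟩
      obtain ⟨h1, h2, h3⟩ := closeT_eq_op.1 hm'
      exact ⟨h2, h1, (I.names_iff u).2 ⟨m, h3⟩⟩
  · intro m
    rw [I.used_iff, Function.comp_apply, Ne, Ne, closeT_eq_free]
  · intro m m' u hmu hmu'
    exact I.inj _ _ _ (closeT_eq_op.1 hmu).2.2 (closeT_eq_op.1 hmu').2.2
  · intro u hu w hw
    rw [hmem] at hu ⊢
    obtain ⟨h1, h2, h3⟩ := I.mate_nm u hu.2.2 w hw
    refine ⟨⟨?_, ?_, h1⟩, h2, h3⟩
    · rintro rfl; rw [hy] at h3; cases h3
    · rintro rfl; rw [hx] at h3; cases h3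
  · intro u hu k hk
    rw [hmem] at hu
    obtain ⟨h1, h2⟩ := I.mate_kv u hu.2.2 k hk
    refine ⟨h1, ?_⟩
    simp only [Finset.mem_erase]
    refine ⟨?_, ?_, h2⟩
    · rintro rfl; exact hu.1 (I.kv_inj u hu.2.2 y hyn _ hk hy)
    · rintro rfl; exact hu.2.1 (I.kv_inj u hu.2.2 x hxn _ hk hx)
  · intro u hu u' hu' k hk hk'
    rw [hmem] at hu hu'
    exact I.kv_inj u hu.2.2 u' hu'.2.2 k hk hk'
  · intro k hk
    simp only [Finset.mem_erase] at hk
    obtain ⟨u, hu, hk'⟩ := I.tile k hk.2.2
    refine ⟨u, ?_, hk'⟩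
    rw [hmem]
    refine ⟨?_, ?_, hu⟩
    · rintro rfl; rw [hy] at hk'; cases hk'; exact hk.1 rfl
    · rintro rfl; rw [hx] at hk'; cases hk'; exact hk.2.1 rfl
  · intro u hu
    rw [hmem] at hu
    exact chain_mono (I.chain u hu.2.2) v
  · intro m u hmu
    exact I.last m u (closeT_eq_op.1 hmu).2.2
  · intro u hu
    rw [hmem] at hu
    exact I.len u hu.2.2
  · exact I.far.mono v
  · intro j t hj
    dsimp only at hj ⊢
    by_cases hji : j = i
    · subst hji
      rw [Function.update_self] at hj
      cases hj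
      refine ⟨hi1, ?_, ?_⟩
      · rw [Function.update_self, List.length_append, List.length_reverse, I.len _ hxn, I.len _ hyn]
      · rw [Function.update_self]; exact hchain
    · rw [Function.update_of_ne hji] at hj
      obtain ⟨h1, h2, h3⟩ := I.legc j t hj
      rw [Function.update_of_ne hji]
      exact ⟨h1, h2, chain_mono h3 v⟩
  · intro j hj
    dsimp only at hj ⊢
    by_cases hji : j = i
    · subst hji; rw [Function.update_self] at hj; cases hj
    · rw [Function.update_of_ne hji] at hj ⊢
      exact I.lego j hj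
  · rw [← I.flat]
    have hye : y ∈ names.erase x := Finset.mem_erase.2 ⟨hxy.symm, hyn⟩
    have hir : i ∈ Finset.range (nodes C.sk) := Finset.mem_range.2 (by omega)
    rw [← Finset.add_sum_erase names (fun u => (hsf u : Multiset Lab)) hxn,
      ← Finset.add_sum_erase (names.erase x) (fun u => (hsf u : Multiset Lab)) hye,
      ← Finset.add_sum_erase (Finset.range (nodes C.sk))
        (fun j => ({C.kap j} + (leg j : Multiset Lab))) hir,
      ← Finset.add_sum_erase (Finset.range (nodes C.sk)) (fun j => ({C.kap j} +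
        (Function.update leg i (hsf x ++ (hsf y).reverse) j : Multiset Lab))) hir]
    have : ∑ j ∈ (Finset.range (nodes C.sk)).erase i,
        ({C.kap j} + (Function.update leg i (hsf x ++ (hsf y).reverse) j : Multiset Lab)) =
        ∑ j ∈ (Finset.range (nodes C.sk)).erase i, ({C.kap j} + (leg j : Multiset Lab)) :=
      Finset.sum_congr rfl fun u hu => by rw [Function.update_of_ne (Finset.ne_of_mem_erase hu)]
    simp only [this, Function.update_self, I.lego i hi]
    rw [← Multiset.coe_add, Multiset.coe_reverse, Multiset.coe_nil]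
    abel

end Pool.Agent.Few
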