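import Pool.Agent.Few.MQueue

set_option autoImplicit false

/-!
# Crystal states

In a crystal state all tokens are open ends. Queue `A` (`n + 1` tokens, colour `c`, head at number `h`) is
the active one, queue `P` (`n` tokens, colour `!c`, head at number `h'`) is the passive one.
-/

namespace Pool.Agent.Few

/-- Crystal state. -/
structure Cr (n s : ℕ) (c : Bool) (h : ℕ) (A : List ℕ) (h' : ℕ) (P : List ℕ) (C : Cfg) : Prop where
  mq : MQ s c h (A.map .op) h' (P.map .op) none C
  lenA : A.length = n + 1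
  lenP : P.length = n
  sum : h + h' + n = s

/-- The status of labels contains no name which does not occur in the queues. -/
theorem stq_ne {c : Bool} {h1 h2 x : ℕ} {q1 q2 : List St} (h : .op x ∉ q1) (h' : .op x ∉ q2) (m : Lab) :
    stq c h1 q1 h2 q2 m ≠ .op x := by
  unfold stq
  split_ifs
  · simp
  · intro h0
    rcases lt_or_ge (m.2 - h1) q1.length with hlt | hge
    · rw [List.getD_eq_getElem _ _ hlt] at h0
      exact h (h0 ▸ List.getElem_mem hlt)
    · rw [List.getD_eq_default _ _ hge] at h0; exact absurd h0 (by simp)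
  · simp
  · intro h0
    rcases lt_or_ge (m.2 - h2) q2.length with hlt | hge
    · rw [List.getD_eq_getElem _ _ hlt] at h0
      exact h' (h0 ▸ List.getElem_mem hlt)
    · rw [List.getD_eq_default _ _ hge] at h0; exact absurd h0 (by simp)

/-- A normal step of a crystal. -/
theorem Cr.step {n s : ℕ} {c : Bool} {h h' x : ℕ} {A P : List ℕ} {C : Cfg}
    (H : Cr n s c h (x :: A) h' P C) : Cr n (s + 1) (!c) h' (P ++ [x]) (h + 1) A (bump [x] C) := by
  obtain ⟨mq, hA, hP, hs⟩ := H
  have hs' : h + (h' + (P.map St.op).length) = s := by simp [hP]; omega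
  have h1 := MQ.pop (x := x) (q1 := A.map .op) (q2 := P.map .op) (by simpa using mq) hs'
    (by intro _ _ h; cases h) (by intro _ _ h; cases h)
  refine ⟨?_, by simp [hP], by simpa using hA, by omega⟩
  have h2 := h1.swap
  simpa using h2

/-- The status of the `i`-th label of the first queue. -/
theorem stq_get1 {c : Bool} {h1 h2 : ℕ} {q1 : List ℕ} {q2 : List St} {i : ℕ} (hi : i < q1.length) :
    stq c h1 (q1.map .op) h2 q2 (c, h1 + i) = .op q1[i] := by
  rw [stq_eq, if_pos rfl]
  simp only [qf]
  rw [if_neg (by omega), Nat.add_sub_cancel_left, List.getD_eq_getElem _ _ (by simpa using hi)]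
  simp

/-- The status of the `i`-th label of the second queue. -/
theorem stq_get2 {c : Bool} {h1 h2 : ℕ} {q1 : List St} {q2 : List ℕ} {i : ℕ} (hi : i < q2.length) :
    stq c h1 q1 h2 (q2.map .op) (!c, h2 + i) = .op q2[i] := by
  rw [← stq_swap]
  exact stq_get1 hi

/-- The names in a crystal are pairwise different. -/
theorem Cr.nodup {n s : ℕ} {c : Bool} {h h' : ℕ} {A P : List ℕ} {C : Cfg}
    (H : Cr n s c h A h' P C) : (P ++ A).Nodup := by
  have hG : G s (stq c h (A.map .op) h' (P.map .op)) C := H.mq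
  rw [List.nodup_append']
  refine ⟨?_, ?_, ?_⟩
  · rw [List.nodup_iff_injective_getElem]
    rintro ⟨i, hi⟩ ⟨j, hj⟩ hij
    simp only at hij
    have := hG.inj (stq_get2 (c := c) (h1 := h) (h2 := h') (q1 := A.map .op) hi)
      (by rw [hij]; exact stq_get2 hj)
    simp only [Prod.mk.injEq, add_right_inj, true_and] at this
    simp only [Fin.mk.injEq]; exact this
  · rw [List.nodup_iff_injective_getElem]
    rintro ⟨i, hi⟩ ⟨j, hj⟩ hij
    simp only at hij
    have := hG.inj (stq_get1 (c := c) (h1 := h) (h2 := h') (q2 := P.map .op) hi)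
      (by rw [hij]; exact stq_get1 hj)
    simp only [Prod.mk.injEq, add_right_inj, true_and] at this
    simp only [Fin.mk.injEq]; exact this
  · intro x hx hx'
    obtain ⟨i, hi, hix⟩ := List.getElem_of_mem hx
    obtain ⟨j, hj, hjx⟩ := List.getElem_of_mem hx'
    have := hG.inj (stq_get2 (c := c) (h1 := h) (h2 := h') (q1 := A.map .op) hi)
      (by rw [hix, ← hjx]; exact stq_get1 hj)
    simp only [Prod.mk.injEq] at this
    exact absurd this.1 (by cases c <;> simp)

/-- A name occurs in the status iff it occurs in the queues. -/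
theorem Cr.mem_iff {n s : ℕ} {c : Bool} {h h' : ℕ} {A P : List ℕ} {C : Cfg}
    (H : Cr n s c h A h' P C) (x : ℕ) :
    x ∈ P ++ A ↔ ∃ m, exq none (stq c h (A.map .op) h' (P.map .op)) m = .op x := by
  have _ := H.sum
  constructor
  · intro hx
    rcases List.mem_append.1 hx with hx | hx
    · obtain ⟨i, hi, rfl⟩ := List.getElem_of_mem hx
      exact ⟨_, stq_get2 hi⟩
    · obtain ⟨i, hi, rfl⟩ := List.getElem_of_mem hx
      exact ⟨_, stq_get1 hi⟩
  · rintro ⟨m, hm⟩
    by_contra hx
    rw [List.mem_append, not_or] at hx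
    refine stq_ne (x := x) (q1 := A.map .op) (q2 := P.map .op) ?_ ?_ m hm
    · simpa using hx.2
    · simpa using hx.1

theorem Cr.mate {n s : ℕ} {c : Bool} {h h' : ℕ} {A P : List ℕ} {C : Cfg}
    (H : Cr n s c h A h' P C) {x y : ℕ} (hx : x ∈ P ++ A) (hm : C.mate x = .nm y) :
    y ∈ P ++ A ∧ y ≠ x ∧ C.mate y = .nm x := by
  obtain ⟨m, hm'⟩ := (H.mem_iff x).1 hx
  obtain ⟨h1, h2, h3⟩ := G.mate H.mq hm' hm
  exact ⟨(H.mem_iff y).2 h1, h2, h3⟩

end Pool.Agent.Few
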