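import Pool.Agent.Few.MArc

set_option autoImplicit false

/-! # Graph level: parity of closed legs -/

namespace Pool.Agent.Few

theorem chain_even {a : ℕ → ℕ} {s : ℕ} : ∀ (M : List Lab) (x y : Lab),
    List.IsChain (Adj a s) (x :: M ++ [y]) → (x.1 ≠ y.1 ↔ Even M.length) := by
  intro M
  induction M with
  | nil =>
    intro x y h
    simp only [List.cons_append, List.nil_append, List.isChain_cons_cons,
      List.isChain_singleton, and_true] at h
    simp [h.1]
  | cons z M ih =>
    intro x y h
    rw [List.cons_append, List.cons_append, List.isChain_cons_cons] at h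
    have h1 := ih z y h.2
    have h2 := h.1.1
    rw [List.length_cons, Nat.even_add_one, ← h1]
    revert h2
    rcases x.1 <;> rcases y.1 <;> rcases z.1 <;> simp

/-- Closed legs between nodes of opposite colours have an even number of inner vertices. -/
theorem G.even {s : ℕ} {st : Lab → St} {C : Cfg} (h : G s st C) {i t : ℕ} (hi : C.cl i = some t)
    (hc : (C.kap i).1 ≠ (C.kap (i + 1)).1) : Even t := by
  obtain ⟨names, used, hsf, a, leg, I⟩ := h
  obtain ⟨-, h2, h3⟩ := I.legc i t hi
  rw [← h2]
  exact (chain_even _ _ _ h3).1 hc

end Pool.Agent.Few
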