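import Pool.Agent.Few.MBase

set_option autoImplicit false

/-! # Graph level: extending a strand by one vertex -/

namespace Pool.Agent.Few

theorem chain_append_last {a : ℕ → ℕ} {s : ℕ} {L : List Lab} {l l' : Lab}
    (h : List.IsChain (Adj a s) L) (hl : L.getLast? = some l) (ha : Adj a s l l') :
    List.IsChain (Adj a s) (L ++ [l']) := by
  rw [List.isChain_append]
  refine ⟨h, List.isChain_singleton _, ?_⟩
  intro x hx y hy
  simp only [List.head?_cons, Option.mem_def, Option.some.injEq] at hy
  rw [hl] at hx
  simp only [Option.mem_def, Option.some.injEq] at hx
  subst hx hy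
  exact ha

theorem G.ext {s : ℕ} {st : Lab → St} {C : Cfg} (h : G s st C) {l l' : Lab} {x : ℕ}
    (hl : st l = .op x) (hl' : st l' = .free) (hc : l.1 ≠ l'.1) (hs : l.2 + l'.2 = s) :
    G (s + 1) (Function.update (Function.update st l .full) l' (.op x))
      { C with w := Function.update C.w x (C.w x + 1) } := by
  obtain ⟨names, used, hsf, a, leg, I⟩ := h
  have hll : l ≠ l' := by rintro rfl; exact hc rfl
  have hx : x ∈ names := (I.names_iff x).2 ⟨l, hl⟩
  set v := aval l l'
  refine ⟨names, insert l' used, Function.update hsf x (hsf x ++ [l']), Function.update a s v, leg, ?_⟩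
  -- the new full strands
  have hfull : ∀ y ∈ names, fullS C.kap C.mate (Function.update hsf x (hsf x ++ [l'])) y =
      if y = x then fullS C.kap C.mate hsf y ++ [l'] else
        if C.mate x = .nm y then l' :: fullS C.kap C.mate hsf y else fullS C.kap C.mate hsf y := by
    intro y hy
    by_cases hyx : y = x
    · subst hyx
      rw [if_pos rfl]
      cases hm : C.mate y with
      | kv k => simp [fullS, hm]
      | nm z =>
        have := (I.mate_nm y hy z hm).2.1
        simp [fullS, hm, Function.update_of_ne this]
    · rw [if_neg hyx]
      cases hm : C.mate y with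
      | kv k =>
        have : C.mate x ≠ .nm y := fun h => by
          have := (I.mate_nm x hx y h).2.2
          rw [hm] at this; exact absurd this (by simp)
        rw [if_neg this]
        simp [fullS, hm, Function.update_of_ne hyx]
      | nm z =>
        by_cases hz : z = x
        · subst hz
          have := (I.mate_nm y hy z hm).2.2
          rw [if_pos this]
          simp [fullS, hm, Function.update_of_ne hyx]
        · have : C.mate x ≠ .nm y := fun h => by
            have := (I.mate_nm x hx y h).2.2
            rw [hm] at this; exact hz (by simpa using this)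
          rw [if_neg this]
          simp [fullS, hm, Function.update_of_ne hyx, Function.update_of_ne hz]
  have hlast : (fullS C.kap C.mate hsf x).getLast? = some l := I.last l x hl
  have hne : fullS C.kap C.mate hsf x ≠ [] := by
    intro h0; rw [h0] at hlast; simp at hlast
  have hadj : Adj (Function.update a s v) (s + 1) l l' := Adj.new a hc hs
  constructor
  · intro y
    rw [I.names_iff]
    constructor
    · rintro ⟨m, hm⟩
      by_cases hml : m = l
      · subst hml
        rw [hl] at hm
        cases hm
        exact ⟨l', by simp⟩
      · have : m ≠ l' := by rintro rfl; rw [hl'] at hm; exact absurd hm (by simp)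
        exact ⟨m, by simp [Function.update_of_ne this, Function.update_of_ne hml, hm]⟩
    · rintro ⟨m, hm⟩
      by_cases hml' : m = l'
      · subst hml'
        rw [Function.update_self] at hm
        cases hm
        exact ⟨l, hl⟩
      · rw [Function.update_of_ne hml'] at hm
        by_cases hml : m = l
        · subst hml; rw [Function.update_self] at hm; exact absurd hm (by simp)
        · rw [Function.update_of_ne hml] at hm; exact ⟨m, hm⟩
  · intro m
    rw [Finset.mem_insert, I.used_iff]
    by_cases hml' : m = l'
    · subst hml'; simp
    · rw [Function.update_of_ne hml']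
      by_cases hml : m = l
      · subst hml; simp [hl]
      · rw [Function.update_of_ne hml]; simp [hml']
  · have key : ∀ m y, Function.update (Function.update st l .full) l' (.op x) m = .op y →
        (m = l' ∧ y = x) ∨ (m ≠ l' ∧ m ≠ l ∧ st m = .op y) := by
      intro m y hm
      by_cases hml' : m = l'
      · subst hml'; rw [Function.update_self] at hm; cases hm; exact Or.inl ⟨rfl, rfl⟩
      · rw [Function.update_of_ne hml'] at hm
        by_cases hml : m = l
        · subst hml; rw [Function.update_self] at hm; exact absurd hm (by simp)
        · rw [Function.update_of_ne hml] at hm; exact Or.inr ⟨hml', hml, hm⟩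
    intro m m' y hm hm'
    rcases key m y hm with ⟨h1, h2⟩ | ⟨h1, h2, h3⟩ <;> rcases key m' y hm' with ⟨h1', h2'⟩ | ⟨h1', h2', h3'⟩
    · rw [h1, h1']
    · subst h2; exact absurd (I.inj _ _ _ h3' hl) h2'
    · subst h2'; exact absurd (I.inj _ _ _ h3 hl) h2
    · exact I.inj _ _ _ h3 h3'
  · exact I.mate_nm
  · exact I.mate_kv
  · exact I.kv_inj
  · exact I.tile
  · intro y hy
    simp only
    rw [hfull y hy]
    by_cases hyx : y = x
    · subst hyx
      rw [if_pos rfl]
      exact chain_append_last (chain_mono (I.chain y hy) v) hlast hadj
    · rw [if_neg hyx]
      by_cases hm : C.mate x = .nm y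
      · rw [if_pos hm]
        have h2 := (I.mate_nm x hx y hm).2.2
        have e : l' :: fullS C.kap C.mate hsf y = (fullS C.kap C.mate hsf x ++ [l']).reverse := by
          simp [fullS_reverse hm h2]
        rw [e]
        exact chain_reverse (chain_append_last (chain_mono (I.chain x hx) v) hlast hadj)
      · rw [if_neg hm]; exact chain_mono (I.chain y hy) v
  · intro m y hm
    simp only
    have hy : y ∈ names := by
      rw [I.names_iff]
      by_cases hml' : m = l'
      · subst hml'; rw [Function.update_self] at hm; cases hm; exact ⟨l, hl⟩
      · rw [Function.update_of_ne hml'] at hm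
        by_cases hml : m = l
        · subst hml; rw [Function.update_self] at hm; exact absurd hm (by simp)
        · rw [Function.update_of_ne hml] at hm; exact ⟨m, hm⟩
    rw [hfull y hy]
    by_cases hml' : m = l'
    · subst hml'; rw [Function.update_self] at hm; cases hm; simp
    · rw [Function.update_of_ne hml'] at hm
      by_cases hml : m = l
      · subst hml; rw [Function.update_self] at hm; exact absurd hm (by simp)
      · rw [Function.update_of_ne hml] at hm
        have hyx : y ≠ x := by rintro rfl; exact hml (I.inj _ _ _ hm hl)
        rw [if_neg hyx]
        have := I.last m y hm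
        split_ifs
        · rw [List.getLast?_cons, this]; rfl
        · exact this
  · intro y hy
    simp only
    by_cases hyx : y = x
    · subst hyx; simp [I.len y hy]
    · simp [Function.update_of_ne hyx, I.len y hy]
  · exact I.far.mono v
  · intro i t hi
    obtain ⟨h1, h2, h3⟩ := I.legc i t hi
    exact ⟨h1, h2, chain_mono h3 v⟩
  · exact I.lego
  · have hnot : l' ∉ used := by rw [I.used_iff]; simp [hl']
    rw [Finset.insert_val_of_notMem hnot, ← I.flat]
    rw [← Finset.add_sum_erase names _ hx, ← Finset.add_sum_erase names (fun x => (hsf x : Multiset Lab)) hx]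
    rw [Function.update_self]
    have : ∑ y ∈ names.erase x, (Function.update hsf x (hsf x ++ [l']) y : Multiset Lab) =
        ∑ y ∈ names.erase x, (hsf y : Multiset Lab) := by
      refine Finset.sum_congr rfl fun y hy => ?_
      rw [Function.update_of_ne (Finset.ne_of_mem_erase hy)]
    rw [this, ← Multiset.coe_add, ← Multiset.singleton_add]
    have : (([l'] : List Lab) : Multiset Lab) = {l'} := rfl
    rw [this]
    abel

end Pool.Agent.Few
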