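import Pool.Agent.Few.MArc

set_option autoImplicit false

/-! # Graph level: far edges and new nodes -/

namespace Pool.Agent.Few

theorem Far.congr {a : ℕ → ℕ} {s : ℕ} {kap kap' : ℕ → Lab} {R : List Stp}
    (h : Far a s kap R) (hk : ∀ k < nodes R, kap' k = kap k) : Far a s kap' R := by
  induction R with
  | nil => trivial
  | cons st R ih =>
    cases st with
    | s p =>
      obtain ⟨h1, h2, h3⟩ := h
      simp only [nodes] at hk
      exact ⟨ih h1 fun k hk' => hk k (by omega), h2, by
        rw [hk p (by omega), hk (nodes R) (by omega)]; exact h3⟩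
    | l p t =>
      obtain ⟨h1, h2, h3, h4⟩ := h
      simp only [nodes] at hk
      exact ⟨ih h1 fun k hk' => hk k (by omega), h2, by
        rw [hk p (by omega), hk (nodes R) (by omega)]; exact h3, by
        rw [hk (nodes R + 1) (by omega), hk (nodes R) (by omega)]; exact h4⟩

theorem Inv.cl_none {s : ℕ} {st : Lab → St} {C : Cfg} {names : Finset ℕ} {used : Finset Lab}
    {hs : ℕ → List Lab} {a : ℕ → ℕ} {leg : ℕ → List Lab} (I : Inv s st C names used hs a leg)
    {j : ℕ} (hj : nodes C.sk ≤ j + 1) : C.cl j = none := by
  cases hc : C.cl j with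
  | none => rfl
  | some t => exact absurd (I.legc j t hc).1 (by omega)

theorem Inv.addFull {s s' : ℕ} {st : Lab → St} {C : Cfg} {names : Finset ℕ} {used : Finset Lab}
    {hs : ℕ → List Lab} {a a' : ℕ → ℕ} {leg : ℕ → List Lab} (I : Inv s st C names used hs a leg)
    {l : Lab} (hl : st l = .free) (sk' : List Stp) (hn : nodes sk' = nodes C.sk + 1)
    (hadj : ∀ x y, Adj a s x y → Adj a' s' x y)
    (hfar : Far a' s' (Function.update C.kap (nodes C.sk) l) sk') :
    Inv s' (Function.update st l .full)
      { C with
        kap := Function.update C.kap (nodes C.sk) l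
        sk := sk' } names (insert l used) hs a' leg := by
  have hko : ∀ k, k < nodes C.sk → Function.update C.kap (nodes C.sk) l k = C.kap k :=
    fun k hk => Function.update_of_ne (by omega) _ _
  have hfo : ∀ z ∈ names, fullS (Function.update C.kap (nodes C.sk) l) C.mate hs z =
      fullS C.kap C.mate hs z := by
    intro z hz
    exact fullS_congr rfl rfl (fun _ _ => rfl) (fun k hk => hko k (I.mate_kv z hz k hk).1)
  have key : ∀ m z, Function.update st l .full m = .op z ↔ st m = .op z := by
    intro m z
    by_cases hml : m = l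
    · subst hml; rw [Function.update_self, hl]; simp
    · rw [Function.update_of_ne hml]
  constructor
  · intro z
    rw [I.names_iff]
    simp only [key]
  · intro m
    rw [Finset.mem_insert, I.used_iff]
    by_cases hml : m = l
    · subst hml; simp
    · rw [Function.update_of_ne hml]; simp [hml]
  · intro m m' z hm hm'
    exact I.inj _ _ _ ((key m z).1 hm) ((key m' z).1 hm')
  · exact I.mate_nm
  · intro z hz k hk
    simp only [hn]
    exact ⟨Nat.lt_succ_of_lt (I.mate_kv z hz k hk).1, (I.mate_kv z hz k hk).2⟩
  · exact I.kv_inj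
  · exact I.tile
  · intro z hz
    simp only
    rw [hfo z hz]
    exact List.IsChain.imp hadj (I.chain z hz)
  · intro m z hm
    rw [key] at hm
    simp only
    rw [hfo z ((I.names_iff z).2 ⟨m, hm⟩)]
    exact I.last m z hm
  · exact I.len
  · exact hfar
  · intro i t hi
    dsimp only at hi ⊢
    obtain ⟨h1, h2, h3⟩ := I.legc i t hi
    rw [hko i (by omega), hko (i + 1) h1]
    exact ⟨by omega, h2, List.IsChain.imp hadj h3⟩
  · exact I.lego
  · have hnot : l ∉ used := by rw [I.used_iff]; simp [hl]
    have hlg : leg (nodes C.sk) = [] := I.lego _ (I.cl_none (by omega))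
    simp only [hn]
    rw [Finset.insert_val_of_notMem hnot, ← I.flat, Finset.sum_range_succ, hlg,
      Function.update_self]
    have : ∑ j ∈ Finset.range (nodes C.sk),
        ({Function.update C.kap (nodes C.sk) l j} + (leg j : Multiset Lab)) =
        ∑ j ∈ Finset.range (nodes C.sk), ({C.kap j} + (leg j : Multiset Lab)) :=
      Finset.sum_congr rfl fun j hj => by rw [hko j (Finset.mem_range.1 hj)]
    rw [this, ← Multiset.singleton_add l, Multiset.coe_nil]
    abel

theorem Inv.addOpen {s s' : ℕ} {st : Lab → St} {C : Cfg} {names : Finset ℕ} {used : Finset Lab}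
    {hs : ℕ → List Lab} {a a' : ℕ → ℕ} {leg : ℕ → List Lab} (I : Inv s st C names used hs a leg)
    {l : Lab} {x : ℕ} (hl : st l = .free) (hx : ∀ m, st m ≠ .op x) (sk' : List Stp)
    (hn : nodes sk' = nodes C.sk + 1) (hadj : ∀ x y, Adj a s x y → Adj a' s' x y)
    (hfar : Far a' s' (Function.update C.kap (nodes C.sk) l) sk') :
    Inv s' (Function.update st l (.op x))
      { C with
        mate := Function.update C.mate x (.kv (nodes C.sk))
        w := Function.update C.w x 0
        kap := Function.update C.kap (nodes C.sk) l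
        sk := sk'
        tl := insert (nodes C.sk) C.tl } (insert x names) (insert l used) (Function.update hs x []) a' leg := by
  have hxn : x ∉ names := fun h => by
    obtain ⟨m, hm⟩ := (I.names_iff x).1 h
    exact hx m hm
  have hne : ∀ z ∈ names, z ≠ x := fun z hz h => hxn (h ▸ hz)
  have hko : ∀ k, k < nodes C.sk → Function.update C.kap (nodes C.sk) l k = C.kap k :=
    fun k hk => Function.update_of_ne (by omega) _ _
  have hmo : ∀ z ∈ names, Function.update C.mate x (.kv (nodes C.sk)) z = C.mate z :=
    fun z hz => Function.update_of_ne (hne z hz) _ _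
  have hho : ∀ z ∈ names, Function.update hs x [] z = hs z :=
    fun z hz => Function.update_of_ne (hne z hz) _ _
  have hfo : ∀ z ∈ names, fullS (Function.update C.kap (nodes C.sk) l)
      (Function.update C.mate x (.kv (nodes C.sk))) (Function.update hs x []) z =
      fullS C.kap C.mate hs z := by
    intro z hz
    exact fullS_congr (hmo z hz) (hho z hz) (fun u hu => hho u (I.mate_nm z hz u hu).1)
      (fun k hk => hko k (I.mate_kv z hz k hk).1)
  have hmx : Function.update C.mate x (.kv (nodes C.sk)) x = .kv (nodes C.sk) := by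
    rw [Function.update_self]
  have hfx : fullS (Function.update C.kap (nodes C.sk) l)
      (Function.update C.mate x (.kv (nodes C.sk))) (Function.update hs x []) x = [l] := by
    rw [fullS_kv hmx, Function.update_self, Function.update_self]
  have key : ∀ m z, Function.update st l (.op x) m = .op z ↔
      (m = l ∧ z = x) ∨ (m ≠ l ∧ st m = .op z) := by
    intro m z
    by_cases hml : m = l
    · subst hml; rw [Function.update_self]
      constructor
      · intro h; cases h; exact Or.inl ⟨rfl, rfl⟩
      · rintro (⟨-, rfl⟩ | ⟨h, -⟩)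
        · rfl
        · exact absurd rfl h
    · rw [Function.update_of_ne hml]; simp [hml]
  constructor
  · intro z
    rw [Finset.mem_insert, I.names_iff]
    constructor
    · rintro (rfl | ⟨m, hm⟩)
      · exact ⟨l, (key l _).2 (Or.inl ⟨rfl, rfl⟩)⟩
      · refine ⟨m, (key m z).2 (Or.inr ⟨?_, hm⟩)⟩
        rintro rfl; rw [hl] at hm; cases hm
    · rintro ⟨m, hm⟩
      rcases (key m z).1 hm with ⟨-, h⟩ | ⟨-, h⟩
      · exact Or.inl h
      · exact Or.inr ⟨m, h⟩
  · intro m
    rw [Finset.mem_insert, I.used_iff]
    by_cases hml : m = l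
    · subst hml; simp
    · rw [Function.update_of_ne hml]; simp [hml]
  · intro m m' z hm hm'
    rcases (key m z).1 hm with ⟨h1, h2⟩ | ⟨h1, h2⟩ <;>
      rcases (key m' z).1 hm' with ⟨h1', h2'⟩ | ⟨h1', h2'⟩
    · rw [h1, h1']
    · exact absurd (h2 ▸ h2') (hx m')
    · exact absurd (h2' ▸ h2) (hx m)
    · exact I.inj _ _ _ h2 h2'
  · intro z hz u hu
    simp only [Finset.mem_insert] at hz ⊢
    rcases hz with rfl | hz
    · simp only [hmx] at hu; cases hu
    · simp only [hmo z hz] at hu
      obtain ⟨h1, h2, h3⟩ := I.mate_nm z hz u hu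
      exact ⟨Or.inr h1, h2, by rw [hmo u h1]; exact h3⟩
  · intro z hz k hk
    simp only [Finset.mem_insert] at hz
    simp only [hn]
    rcases hz with rfl | hz
    · simp only [hmx] at hk
      cases hk
      exact ⟨Nat.lt_succ_self _, Finset.mem_insert_self _ _⟩
    · simp only [hmo z hz] at hk
      exact ⟨Nat.lt_succ_of_lt (I.mate_kv z hz k hk).1,
        Finset.mem_insert_of_mem (I.mate_kv z hz k hk).2⟩
  · intro z hz z' hz' k hk hk'
    simp only [Finset.mem_insert] at hz hz'
    rcases hz with rfl | hz
    · rcases hz' with rfl | hz'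
      · rfl
      · simp only [hmx] at hk
        simp only [hmo z' hz'] at hk'
        cases hk
        exact absurd (I.mate_kv z' hz' _ hk').1 (lt_irrefl _)
    · rcases hz' with rfl | hz'
      · simp only [hmx] at hk'
        simp only [hmo z hz] at hk
        cases hk'
        exact absurd (I.mate_kv z hz _ hk).1 (lt_irrefl _)
      · simp only [hmo z hz] at hk
        simp only [hmo z' hz'] at hk'
        exact I.kv_inj z hz z' hz' k hk hk'
  · intro k hk
    rcases Finset.mem_insert.1 hk with rfl | hk
    · exact ⟨x, Finset.mem_insert_self _ _, hmx⟩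
    · obtain ⟨z, hz, hk'⟩ := I.tile k hk
      refine ⟨z, Finset.mem_insert_of_mem hz, ?_⟩
      simp only [hmo z hz]; exact hk'
  · intro z hz
    simp only [Finset.mem_insert] at hz
    simp only
    rcases hz with rfl | hz
    · rw [hfx]; exact List.isChain_singleton _
    · rw [hfo z hz]
      exact List.IsChain.imp hadj (I.chain z hz)
  · intro m z hm
    simp only
    rcases (key m z).1 hm with ⟨rfl, rfl⟩ | ⟨-, h2⟩
    · rw [hfx]; rfl
    · rw [hfo z ((I.names_iff z).2 ⟨m, h2⟩)]
      exact I.last m z h2
  · intro z hz
    simp only [Finset.mem_insert] at hz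
    simp only
    rcases hz with rfl | hz
    · rw [Function.update_self, Function.update_self]; rfl
    · rw [hho z hz, Function.update_of_ne (hne z hz)]
      exact I.len z hz
  · exact hfar
  · intro i t hi
    dsimp only at hi ⊢
    obtain ⟨h1, h2, h3⟩ := I.legc i t hi
    rw [hko i (by omega), hko (i + 1) h1]
    exact ⟨by omega, h2, List.IsChain.imp hadj h3⟩
  · exact I.lego
  · have hnot : l ∉ used := by rw [I.used_iff]; simp [hl]
    have hlg : leg (nodes C.sk) = [] := I.lego _ (I.cl_none (by omega))
    simp only [hn]
    rw [Finset.insert_val_of_notMem hnot, ← I.flat, Finset.sum_range_succ, hlg,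
      Function.update_self, Finset.sum_insert hxn, Function.update_self]
    have h1 : ∑ j ∈ Finset.range (nodes C.sk),
        ({Function.update C.kap (nodes C.sk) l j} + (leg j : Multiset Lab)) =
        ∑ j ∈ Finset.range (nodes C.sk), ({C.kap j} + (leg j : Multiset Lab)) :=
      Finset.sum_congr rfl fun j hj => by rw [hko j (Finset.mem_range.1 hj)]
    have h2 : ∑ z ∈ names, (Function.update hs x [] z : Multiset Lab) =
        ∑ z ∈ names, (hs z : Multiset Lab) :=
      Finset.sum_congr rfl fun z hz => by rw [hho z hz]
    rw [h1, h2, ← Multiset.singleton_add l, Multiset.coe_nil]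
    abel

/-- The new far edge. -/
theorem Far.new {s : ℕ} {C : Cfg} {a : ℕ → ℕ} {l : Lab} {p : ℕ} (h : Far a s C.kap C.sk)
    (hp : p < nodes C.sk) (hc : (C.kap p).1 ≠ l.1) (hs : (C.kap p).2 + l.2 = s) :
    Far (Function.update a s (aval (C.kap p) l)) (s + 1)
      (Function.update C.kap (nodes C.sk) l) (.s p :: C.sk) := by
  refine ⟨(h.mono _).congr fun k hk => Function.update_of_ne (by omega) _ _, hp, ?_⟩
  rw [Function.update_self, Function.update_of_ne (by omega)]
  exact Adj.new a hc hs

/-- A far edge from node `p` to a new node with label `l`. -/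
theorem G.far {s : ℕ} {st : Lab → St} {C : Cfg} (h : G s st C) {l : Lab} {p : ℕ}
    (hp : p < nodes C.sk) (hl : st l = .free) (hc : (C.kap p).1 ≠ l.1) (hs : (C.kap p).2 + l.2 = s) :
    G (s + 1) (Function.update st l .full)
      { C with
        kap := Function.update C.kap (nodes C.sk) l
        sk := .s p :: C.sk } := by
  obtain ⟨names, used, hsf, a, leg, I⟩ := h
  exact ⟨_, _, _, _, _, I.addFull hl _ rfl (fun _ _ h => h.mono _) (I.far.new hp hc hs)⟩

/-- A far edge from node `p` to a new node with label `l`, which is the beginning of a strand with open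
end `x`. -/
theorem G.farT {s : ℕ} {st : Lab → St} {C : Cfg} (h : G s st C) {l : Lab} {p x : ℕ}
    (hp : p < nodes C.sk) (hl : st l = .free) (hc : (C.kap p).1 ≠ l.1) (hs : (C.kap p).2 + l.2 = s)
    (hx : ∀ m, st m ≠ .op x) :
    G (s + 1) (Function.update st l (.op x))
      { C with
        mate := Function.update C.mate x (.kv (nodes C.sk))
        w := Function.update C.w x 0
        kap := Function.update C.kap (nodes C.sk) l
        sk := .s p :: C.sk
        tl := insert (nodes C.sk) C.tl } := by
  obtain ⟨names, used, hsf, a, leg, I⟩ := h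
  exact ⟨_, _, _, _, _, I.addOpen hl hx _ rfl (fun _ _ h => h.mono _) (I.far.new hp hc hs)⟩

/-- The second node of a long leg, the beginning of a strand with open end `y`. -/
theorem G.node2 {s : ℕ} {st : Lab → St} {C : Cfg} (h : G s st C) {l : Lab} {p y : ℕ} {R : List Stp}
    (hR : C.sk = .s p :: R) (hl : st l = .free) (hc : (C.kap (nodes R)).1 ≠ l.1)
    (hy : ∀ m, st m ≠ .op y) :
    G s (Function.update st l (.op y))
      { C with
        mate := Function.update C.mate y (.kv (nodes R + 1))
        w := Function.update C.w y 0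
        kap := Function.update C.kap (nodes R + 1) l
        sk := .l p 0 :: R
        tl := insert (nodes R + 1) C.tl } := by
  obtain ⟨names, used, hsf, a, leg, I⟩ := h
  have hn : nodes C.sk = nodes R + 1 := by rw [hR]; rfl
  have hf : Far a s (Function.update C.kap (nodes C.sk) l) (.l p 0 :: R) := by
    have h1 : Far a s C.kap (.s p :: R) := by rw [← hR]; exact I.far
    obtain ⟨h1, h2, h3⟩ := h1
    refine ⟨h1.congr fun k hk => Function.update_of_ne (by omega) _ _, h2, ?_, ?_⟩
    · rw [Function.update_of_ne (by omega), Function.update_of_ne (by omega)]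
      exact h3
    · rw [hn, Function.update_self, Function.update_of_ne (by omega)]
      exact hc
  have := I.addOpen hl hy (.l p 0 :: R) (by rw [hn]; rfl) (fun _ _ h => h) hf
  rw [hn] at this
  exact ⟨_, _, _, _, _, this⟩

/-- The initial world: node `0` has the label `l0`. -/
theorem G.init (l0 : Lab) (x0 : ℕ) :
    G 0 (fun m => if m = l0 then .op x0 else .free)
      ⟨fun _ => .kv 0, fun _ => 0, fun _ => l0, [], fun _ => none, {0}⟩ := by
  refine ⟨{x0}, {l0}, fun _ => [], fun _ => 0, fun _ => [], ?_⟩
  have key : ∀ m z, (if m = l0 then St.op x0 else .free) = .op z ↔ m = l0 ∧ z = x0 := by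
    intro m z
    split_ifs with h
    · constructor
      · intro h'; cases h'; exact ⟨h, rfl⟩
      · rintro ⟨-, rfl⟩; rfl
    · simp [h]
  constructor
  · intro z
    rw [Finset.mem_singleton]
    constructor
    · rintro rfl; exact ⟨l0, (key _ _).2 ⟨rfl, rfl⟩⟩
    · rintro ⟨m, hm⟩; exact ((key _ _).1 hm).2
  · intro m
    rw [Finset.mem_singleton]
    split_ifs with h <;> simp [h]
  · intro m m' z hm hm'
    rw [((key _ _).1 hm).1, ((key _ _).1 hm').1]
  · intro z _ u hu; cases hu
  · intro z _ k hk; cases hk; simp [nodes]
  · intro z hz z' hz' _ _ _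
    rw [Finset.mem_singleton.1 hz, Finset.mem_singleton.1 hz']
  · intro k hk
    rw [Finset.mem_singleton.1 hk]
    exact ⟨x0, Finset.mem_singleton_self _, rfl⟩
  · intro z _
    simp [fullS]
  · intro m z hm
    rw [((key _ _).1 hm).1]
    simp [fullS]
  · intro z _; rfl
  · trivial
  · intro i t hi; cases hi
  · intro i _; rfl
  · simp [nodes]

end Pool.Agent.Few
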