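import Pool.Agent.Few.MCW

set_option autoImplicit false

/-!
# Glue, part A: recipes with lengths, reflection, the middle sums
-/

namespace Pool.Agent.Few

/-- The leg from node `i` to node `i + 1` has `t` inner vertices. -/
def clOf : List Stp → ℕ → Option ℕ
  | [], _ => none
  | .s _ :: R, i => clOf R i
  | .l _ t :: R, i => if i = nodes R then some t else clOf R i

theorem clOf_lt : ∀ {R : List Stp} {i t : ℕ}, clOf R i = some t → i + 1 < nodes R
  | [], i, t, h => by simp [clOf] at h
  | .s _ :: R, i, t, h => by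
    have := clOf_lt (R := R) (i := i) (t := t) h
    simp only [nodes]; omega
  | .l _ t' :: R, i, t, h => by
    simp only [clOf] at h
    split_ifs at h with h1
    · simp only [nodes]; omega
    · have := clOf_lt h
      simp only [nodes]; omega

theorem clOf_none {R : List Stp} {i : ℕ} (h : nodes R ≤ i + 1) : clOf R i = none := by
  cases hc : clOf R i with
  | none => rfl
  | some t => exact absurd (clOf_lt hc) (by omega)

theorem nodes_skel : ∀ R : List Stp, nodes (skel R) = nodes R
  | [] => rfl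
  | .s _ :: R => by simp [skel, nodes, nodes_skel R]
  | .l _ _ :: R => by simp [skel, nodes, nodes_skel R]

theorem emb_of_far {a : ℕ → ℕ} {m : ℕ} {kap : ℕ → Lab} {leg : ℕ → List Lab} :
    ∀ R : List Stp, Far a m kap (skel R) →
      (∀ i t, clOf R i = some t → (leg i).length = t ∧
        List.IsChain (Adj a m) (kap i :: leg i ++ [kap (i + 1)])) → Emb a m kap leg R
  | [], _, _ => trivial
  | .s p :: R, hF, hl => by
    obtain ⟨h1, -, h3⟩ := hF
    rw [nodes_skel] at h3
    exact ⟨emb_of_far R h1 hl, h3⟩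
  | .l p t :: R, hF, hl => by
    obtain ⟨h1, -, h3, -⟩ := hF
    rw [nodes_skel] at h3
    have h4 := hl (nodes R) t (by simp [clOf])
    refine ⟨emb_of_far R h1 fun i t' hi => hl i t' ?_, h3, h4.2, h4.1⟩
    have := clOf_lt hi
    simp only [clOf]
    rw [if_neg (by omega)]; exact hi

theorem labs_coe {kap : ℕ → Lab} {leg : ℕ → List Lab} :
    ∀ R : List Stp, (∀ i < nodes R, clOf R i = none → leg i = []) →
      (labs kap leg R : Multiset Lab) =
        ∑ i ∈ Finset.range (nodes R), ({kap i} + (leg i : Multiset Lab))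
  | [], h => by
    have : leg 0 = [] := h 0 (by simp [nodes]) rfl
    simp [labs, nodes, this]
  | .s p :: R, h => by
    have ih := labs_coe (kap := kap) (leg := leg) R fun i hi hc => h i (by simp [nodes]; omega) hc
    have h0 : leg (nodes R) = [] := h (nodes R) (by simp [nodes]) (clOf_none (by simp [nodes]))
    simp only [labs, nodes]
    rw [Finset.sum_range_succ, ← ih, h0, ← Multiset.cons_coe, ← Multiset.singleton_add,
      Multiset.coe_nil]
    abel
  | .l p t :: R, h => by
    have ih := labs_coe (kap := kap) (leg := leg) R fun i hi hc =>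
      h i (by simp [nodes]; omega) (by simp only [clOf]; rw [if_neg (by omega)]; exact hc)
    have h0 : leg (nodes R + 1) = [] := h (nodes R + 1) (by simp [nodes]) (by
      simp only [clOf]; rw [if_neg (by omega)]; exact clOf_none (by omega))
    simp only [labs, nodes]
    rw [show nodes R + 2 = nodes R + 1 + 1 from rfl, Finset.sum_range_succ, Finset.sum_range_succ,
      ← ih, h0, ← Multiset.cons_coe, ← Multiset.cons_coe, ← Multiset.singleton_add,
      ← Multiset.singleton_add, ← Multiset.coe_add, Multiset.coe_nil]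
    abel

theorem labs_length {kap : ℕ → Lab} {leg : ℕ → List Lab} :
    ∀ R : List Stp, (∀ i t, clOf R i = some t → (leg i).length = t) →
      (labs kap leg R).length = size R + 1
  | [], _ => rfl
  | .s p :: R, h => by
    have ih := labs_length (kap := kap) (leg := leg) R h
    simp only [labs, size, List.length_cons, ih]
  | .l p t :: R, h => by
    have ih := labs_length (kap := kap) (leg := leg) R fun i t' hi => h i t' (by
      have := clOf_lt hi
      simp only [clOf]
      rw [if_neg (by omega)]; exact hi)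
    have h0 := h (nodes R) t (by simp [clOf])
    simp only [labs, size, List.length_cons, List.length_append, ih, h0]
    omega

theorem labs_map {kap : ℕ → Lab} {leg : ℕ → List Lab} (f : Lab → Lab) :
    ∀ R : List Stp, labs (fun i => f (kap i)) (fun i => (leg i).map f) R =
      (labs kap leg R).map f
  | [] => rfl
  | .s p :: R => by simp [labs, labs_map f R]
  | .l p t :: R => by simp [labs, labs_map f R]

/-- Reflection of labels; `N c` is the number of labels of colour `c`. -/
def rho (σ : Bool) (N : Bool → ℕ) (l : Lab) : Lab :=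
  (xor l.1 σ, N (xor l.1 σ) - 1 - l.2)

/-- The edges of the glued world. -/
def aG (σ c : Bool) (N : Bool → ℕ) (sL sR n hL : ℕ) (aL aR : ℕ → ℕ) (u : ℕ) : ℕ :=
  if u < sL then aL u
  else if u < sL + (2 * n + 1) then
    (let p := if (u - sL) % 2 = 0 then hL + (u - sL) / 2 else hL + n + 1 + (u - sL) / 2
     bif c then u - p else p)
  else
    (let t := sL + sR + 2 * n - u
     N false - 1 - bif σ then t - aR t else aR t)

theorem adjL {σ c : Bool} {N : Bool → ℕ} {sL sR n hL : ℕ} {aL aR : ℕ → ℕ} {x y : Lab}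
    (h : Adj aL sL x y) : Adj (aG σ c N sL sR n hL aL aR) (sL + sR + 2 * n + 1) x y := by
  obtain ⟨h1, h2, h3⟩ := h
  refine ⟨h1, by omega, ?_⟩
  unfold aG
  rw [if_pos h2]
  exact h3

theorem adjR {σ c : Bool} {N : Bool → ℕ} {sL sR n hL : ℕ} {aL aR : ℕ → ℕ} {x y : Lab}
    (hN : N false + N true = sL + sR + 2 * n + 2)
    (h : Adj aR sR x y) (hx : x.2 < N (xor x.1 σ)) (hy : y.2 < N (xor y.1 σ)) :
    Adj (aG σ c N sL sR n hL aL aR) (sL + sR + 2 * n + 1) (rho σ N x) (rho σ N y) := by
  obtain ⟨h1, h2, h3⟩ := h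
  rcases x with ⟨b, i⟩
  rcases y with ⟨b', j⟩
  simp only at h1 h2 h3 hx hy
  have hb : b' = !b := by revert h1; cases b <;> cases b' <;> simp
  subst hb
  have hsum : N (xor b σ) + N (xor (!b) σ) = sL + sR + 2 * n + 2 := by
    rw [← hN]
    cases b <;> cases σ <;> simp [add_comm]
  have hu : (rho σ N (b, i)).2 + (rho σ N (!b, j)).2 = sL + sR + 2 * n - (i + j) := by
    simp only [rho]; omega
  refine ⟨by simp [rho], by rw [hu]; omega, ?_⟩
  rw [hu]
  unfold aG
  rw [if_neg (by omega), if_neg (by omega)]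
  have ht : sL + sR + 2 * n - (sL + sR + 2 * n - (i + j)) = i + j := by omega
  simp only [ht, h3, rho]
  cases b <;> cases σ <;> simp at hx hy ⊢ <;> omega

theorem adjM1 {σ c : Bool} {N : Bool → ℕ} {sL sR n hL hL' : ℕ} {aL aR : ℕ → ℕ}
    (hs : hL + hL' + n = sL) {k : ℕ} (hk : k ≤ n) :
    Adj (aG σ c N sL sR n hL aL aR) (sL + sR + 2 * n + 1) (c, hL + k) (!c, hL' + n + k) := by
  refine ⟨by cases c <;> simp, by simp only; omega, ?_⟩
  have hu : hL + k + (hL' + n + k) = sL + 2 * k := by omega
  simp only [hu]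
  unfold aG
  rw [if_neg (by omega), if_pos (by omega)]
  have h1 : (sL + 2 * k - sL) % 2 = 0 := by omega
  have h2 : (sL + 2 * k - sL) / 2 = k := by omega
  simp only [h1, h2, if_true]
  cases c <;> simp <;> omega

theorem adjM2 {σ c : Bool} {N : Bool → ℕ} {sL sR n hL hL' : ℕ} {aL aR : ℕ → ℕ}
    (hs : hL + hL' + n = sL) {k : ℕ} (hk : k < n) :
    Adj (aG σ c N sL sR n hL aL aR) (sL + sR + 2 * n + 1) (!c, hL' + k) (c, hL + n + 1 + k) := by
  refine ⟨by cases c <;> simp, by simp only; omega, ?_⟩
  have hu : hL' + k + (hL + n + 1 + k) = sL + (2 * k + 1) := by omega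
  simp only [hu]
  unfold aG
  rw [if_neg (by omega), if_pos (by omega)]
  have h1 : (sL + (2 * k + 1) - sL) % 2 = 1 := by omega
  have h2 : (sL + (2 * k + 1) - sL) / 2 = k := by omega
  simp only [h1, h2]
  cases c <;> simp <;> omega

theorem Far.mapR {σ c : Bool} {N : Bool → ℕ} {sL sR n hL : ℕ} {aL aR : ℕ → ℕ} {kap : ℕ → Lab}
    (hN : N false + N true = sL + sR + 2 * n + 2) :
    ∀ {R : List Stp}, Far aR sR kap R → (∀ i < nodes R, (kap i).2 < N (xor (kap i).1 σ)) →
      Far (aG σ c N sL sR n hL aL aR) (sL + sR + 2 * n + 1) (fun i => rho σ N (kap i)) R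
  | [], _, _ => trivial
  | .s p :: R, h, hk => by
    obtain ⟨h1, h2, h3⟩ := h
    simp only [nodes] at hk
    exact ⟨Far.mapR hN h1 fun i hi => hk i (by omega), h2,
      adjR hN h3 (hk p (by omega)) (hk _ (by omega))⟩
  | .l p t :: R, h, hk => by
    obtain ⟨h1, h2, h3, h4⟩ := h
    simp only [nodes] at hk
    refine ⟨Far.mapR hN h1 fun i hi => hk i (by omega), h2,
      adjR hN h3 (hk p (by omega)) (hk _ (by omega)), ?_⟩
    simp only [rho]
    revert h4
    cases (kap (nodes R)).1 <;> cases (kap (nodes R + 1)).1 <;> cases σ <;> simp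

theorem Far.mapL {σ c : Bool} {N : Bool → ℕ} {sL sR n hL : ℕ} {aL aR : ℕ → ℕ} {kap : ℕ → Lab} :
    ∀ {R : List Stp}, Far aL sL kap R →
      Far (aG σ c N sL sR n hL aL aR) (sL + sR + 2 * n + 1) kap R
  | [], _ => trivial
  | .s p :: R, h => ⟨Far.mapL h.1, h.2.1, adjL h.2.2⟩
  | .l p t :: R, h => ⟨Far.mapL h.1, h.2.1, adjL h.2.2.1, h.2.2.2⟩

end Pool.Agent.Few
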