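import Pool.Agent.Few.MGlA

set_option autoImplicit false

/-!
# Glue, part B: the spine list
-/

namespace Pool.Agent.Few

/-- The two open ends `x` (left) and `y` (right) are joined by an edge. -/
def blk (f g : ℕ → List Lab) (x y : ℕ) : List Lab := f x ++ (g y).reverse

/-- The spine. -/
def spn (f g : ℕ → List Lab) : List (ℕ × ℕ) → List Lab
  | (x, y) :: (x1, y1) :: J => blk f g x y ++ ((blk f g x1 y1).reverse ++ spn f g J)
  | [(x, y)] => blk f g x y
  | [] => []

/-- The order of the pairs along the spine. -/
def AltR (CL CR : Cfg) : List (ℕ × ℕ) → Prop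
  | [(_, y)] => CR.mate y = .kv 0
  | (_, y) :: (x1, y1) :: (x2, y2) :: J =>
    CR.mate y = .nm y1 ∧ CL.mate x1 = .nm x2 ∧ AltR CL CR ((x2, y2) :: J)
  | _ => False

theorem chain_ov {R : Lab → Lab → Prop} {l1 l2 l3 : List Lab} (h1 : List.IsChain R (l1 ++ l2))
    (h2 : List.IsChain R (l2 ++ l3)) (hn : l2 ≠ []) : List.IsChain R (l1 ++ l2 ++ l3) :=
  h1.append_overlap h2 hn

theorem spn_chain {R : Lab → Lab → Prop} (hsym : ∀ a b, R a b → R b a) {f g : ℕ → List Lab}
    {CL CR : Cfg} {e : Lab} (n : ℕ) : ∀ J : List (ℕ × ℕ), J.length ≤ n → AltR CL CR J →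
      (∀ p ∈ J, f p.1 ≠ [] ∧ g p.2 ≠ [] ∧ List.IsChain R (f p.1 ++ (g p.2).reverse)) →
      (∀ p ∈ J, ∀ q ∈ J, CR.mate p.2 = .nm q.2 → List.IsChain R ((g p.2).reverse ++ g q.2)) →
      (∀ p ∈ J, ∀ q ∈ J, CL.mate p.1 = .nm q.1 → List.IsChain R ((f p.1).reverse ++ f q.1)) →
      (∀ p ∈ J, CR.mate p.2 = .kv 0 → List.IsChain R ((g p.2).reverse ++ [e])) →
      ∀ (P : List Lab) (x y : ℕ) (J' : List (ℕ × ℕ)), J = (x, y) :: J' →
        List.IsChain R (P ++ f x) → List.IsChain R (P ++ (spn f g J ++ [e])) := by
  induction n with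
  | zero =>
    intro J hJ _ _ _ _ _ P x y J' h
    rw [h] at hJ; simp at hJ
  | succ n ih =>
    intro J hJ hA hb hR hL he P x y J' h hP
    subst h
    obtain ⟨hf, hg, hc⟩ := hb (x, y) (by simp)
    simp only at hf hg hc
    have hg' : (g y).reverse ≠ [] := by simpa using hg
    cases J' with
    | nil =>
      have h1 := he (x, y) (by simp) hA
      have h2 := chain_ov hP hc hf
      have h3 := chain_ov h2 h1 hg'
      simpa [spn, blk, List.append_assoc] using h3
    | cons p1 J1 =>
      obtain ⟨x1, y1⟩ := p1
      cases J1 with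
      | nil => exact absurd hA (by simp [AltR])
      | cons p2 J2 =>
        obtain ⟨x2, y2⟩ := p2
        obtain ⟨a1, a2, a3⟩ := hA
        obtain ⟨hf1, hg1, hc1⟩ := hb (x1, y1) (by simp)
        simp only at hf1 hg1 hc1
        have hf1' : (f x1).reverse ≠ [] := by simpa using hf1
        have c1 := hR (x, y) (by simp) (x1, y1) (by simp) a1
        have c2 : List.IsChain R (g y1 ++ (f x1).reverse) := by
          have : List.IsChain R (f x1 ++ (g y1).reverse).reverse := by
            rw [List.isChain_reverse]
            exact hc1.imp fun a b h => hsym _ _ h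
          simpa using this
        have c3 := hL (x1, y1) (by simp) (x2, y2) (by simp) a2
        simp only at c1 c3
        have h2 := chain_ov hP hc hf
        have h3 := chain_ov h2 c1 hg'
        have h4 := chain_ov h3 c2 hg1
        have h5 := chain_ov h4 c3 hf1'
        have := ih ((x2, y2) :: J2) (by simp at hJ ⊢; omega) a3
          (fun p hp => hb p (by simp at hp ⊢; tauto))
          (fun p hp q hq => hR p (by simp at hp ⊢; tauto) q (by simp at hq ⊢; tauto))
          (fun p hp q hq => hL p (by simp at hp ⊢; tauto) q (by simp at hq ⊢; tauto))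
          (fun p hp => he p (by simp at hp ⊢; tauto))
          (P ++ f x ++ (g y).reverse ++ g y1 ++ (f x1).reverse) x2 y2 J2 rfl h5
        simpa [spn, blk, List.append_assoc] using this

theorem spn_coe {f g : ℕ → List Lab} (n : ℕ) : ∀ J : List (ℕ × ℕ), J.length ≤ n →
    (spn f g J : Multiset Lab) =
      (J.map fun p => ((f p.1 : Multiset Lab) + (g p.2 : Multiset Lab))).sum := by
  induction n with
  | zero =>
    intro J hJ
    have : J = [] := List.length_eq_zero_iff.1 (by omega)
    subst this
    simp [spn]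
  | succ n ih =>
    intro J hJ
    match J, hJ with
    | [], _ => simp [spn]
    | [(x, y)], _ =>
      simp only [spn, blk, List.map_cons, List.map_nil, List.sum_cons, List.sum_nil, add_zero]
      rw [← Multiset.coe_add, Multiset.coe_reverse]
    | (x, y) :: (x1, y1) :: J, hJ =>
      simp only [spn, blk, List.map_cons, List.sum_cons]
      rw [← ih J (by simp at hJ; omega), List.reverse_append, List.reverse_reverse,
        ← Multiset.coe_add, ← Multiset.coe_add, ← Multiset.coe_add, ← Multiset.coe_add,
        Multiset.coe_reverse, Multiset.coe_reverse]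
      abel

theorem zip_sum {f g : ℕ → Multiset Lab} : ∀ (W W' : List ℕ), W.length = W'.length →
    ((W.zip W').map fun p => (f p.1 + g p.2)).sum = (W.map f).sum + (W'.map g).sum
  | [], [], _ => by simp
  | x :: W, y :: W', h => by
    simp only [List.zip_cons_cons, List.map_cons, List.sum_cons]
    rw [zip_sum W W' (by simpa using h)]
    abel

end Pool.Agent.Few
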