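import Pool.Agent.Few.MGlB

set_option autoImplicit false

/-!
# Glue, part C: the data of a crystal
-/

namespace Pool.Agent.Few

theorem qf_ne_free {h n : ℕ} {q : List ℕ} : qf h (q.map .op) n ≠ .free ↔ n < h + q.length := by
  unfold qf
  split_ifs with h1
  · simp; omega
  · rcases lt_or_ge (n - h) q.length with h2 | h2
    · rw [List.getD_eq_getElem _ _ (by simpa using h2)]
      simp; omega
    · rw [List.getD_eq_default _ _ (by simpa using h2)]
      simp; omega

theorem Cr.data {n s : ℕ} {c : Bool} {h h' : ℕ} {A P : List ℕ} {C : Cfg}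
    (H : Cr n s c h A h' P C) (hw : ∀ x ∈ P ++ A, 0 < C.w x) :
    ∃ (used : Finset Lab) (hs : ℕ → List Lab) (a : ℕ → ℕ) (leg : ℕ → List Lab),
      (∀ l, l ∈ used ↔ (l.1 = c ∧ l.2 < h + n + 1) ∨ (l.1 = !c ∧ l.2 < h' + n)) ∧
      used.card = s + n + 1 ∧
      (∀ x ∈ P ++ A, hs x ≠ [] ∧ List.IsChain (Adj a s) (hs x)) ∧
      (∀ x ∈ P ++ A, ∀ y, C.mate x = .nm y → List.IsChain (Adj a s) ((hs x).reverse ++ hs y)) ∧
      (∀ x ∈ P ++ A, ∀ k, C.mate x = .kv k → List.IsChain (Adj a s) (C.kap k :: hs x)) ∧
      (∀ k (hk : k < A.length), (hs A[k]).getLast? = some (c, h + k)) ∧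
      (∀ k (hk : k < P.length), (hs P[k]).getLast? = some (!c, h' + k)) ∧
      Far a s C.kap C.sk ∧
      (∀ i t, C.cl i = some t → i + 1 < nodes C.sk ∧ (leg i).length = t ∧
        List.IsChain (Adj a s) (C.kap i :: leg i ++ [C.kap (i + 1)])) ∧
      (∀ i, C.cl i = none → leg i = []) ∧
      ((P ++ A).map fun x => (hs x : Multiset Lab)).sum +
        ∑ i ∈ Finset.range (nodes C.sk), ({C.kap i} + (leg i : Multiset Lab)) = used.val := by
  have hmem := H.mem_iff
  have hnd := H.nodup
  obtain ⟨mq, hA, hP, hsum⟩ := H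
  obtain ⟨names, used, hs, a, leg, I⟩ := mq
  have hnames : ∀ x, x ∈ names ↔ x ∈ P ++ A := fun x => (I.names_iff x).trans (hmem x).symm
  have hnl : names = (P ++ A).toFinset := by
    ext x; rw [List.mem_toFinset, hnames]
  have hused : ∀ l, l ∈ used ↔ (l.1 = c ∧ l.2 < h + n + 1) ∨ (l.1 = !c ∧ l.2 < h' + n) := by
    intro l
    rw [I.used_iff, exq, stq_eq]
    by_cases hc : l.1 = c
    · rw [if_pos hc, qf_ne_free, hA]
      constructor
      · intro h1; exact Or.inl ⟨hc, by omega⟩
      · rintro (⟨-, h1⟩ | ⟨h1, -⟩)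
        · omega
        · rw [hc] at h1; exact absurd h1 (by cases c <;> simp)
    · have hc' : l.1 = !c := by
        revert hc; cases l.1 <;> cases c <;> simp
      rw [if_neg hc, qf_ne_free, hP]
      constructor
      · intro h1; exact Or.inr ⟨hc', h1⟩
      · rintro (⟨h1, -⟩ | ⟨-, h1⟩)
        · exact absurd h1 hc
        · exact h1
  have hne : ∀ x ∈ P ++ A, hs x ≠ [] := by
    intro x hx h0
    have h1 := I.len x ((hnames x).2 hx)
    have h2 := hw x hx
    rw [h0] at h1
    simp at h1
    omega
  have hlast : ∀ x l, exq none (stq c h (A.map .op) h' (P.map .op)) l = .op x →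
      (hs x).getLast? = some l := by
    intro x l hl
    have hx : x ∈ P ++ A := (hmem x).2 ⟨l, hl⟩
    have h1 := I.last l x hl
    unfold fullS at h1
    rw [List.getLast?_append] at h1
    cases h2 : (hs x).getLast? with
    | none => exact absurd (List.getLast?_eq_none_iff.1 h2) (hne x hx)
    | some l' => rw [h2] at h1; simpa using h1
  refine ⟨used, hs, a, leg, hused, ?_, ?_, ?_, ?_, ?_, ?_, I.far, I.legc, I.lego, ?_⟩
  · have : used = (({c} : Finset Bool) ×ˢ Finset.range (h + n + 1)) ∪
        (({!c} : Finset Bool) ×ˢ Finset.range (h' + n)) := by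
      ext l
      rw [hused, Finset.mem_union, Finset.mem_product, Finset.mem_product, Finset.mem_singleton,
        Finset.mem_singleton, Finset.mem_range, Finset.mem_range]
    rw [this, Finset.card_union_of_disjoint, Finset.card_product, Finset.card_product]
    · simp only [Finset.card_singleton, Finset.card_range, one_mul]; omega
    · rw [Finset.disjoint_left]
      intro l h1 h2
      rw [Finset.mem_product, Finset.mem_singleton] at h1 h2
      rw [h1.1] at h2
      exact absurd h2.1 (by cases c <;> simp)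
  · intro x hx
    refine ⟨hne x hx, ?_⟩
    have := I.chain x ((hnames x).2 hx)
    unfold fullS at this
    exact this.right_of_append
  · intro x hx y hm
    obtain ⟨h1, -, h3⟩ := I.mate_nm x ((hnames x).2 hx) y hm
    have := I.chain y h1
    rwa [fullS_nm h3] at this
  · intro x hx k hm
    have := I.chain x ((hnames x).2 hx)
    rwa [fullS_kv hm] at this
  · intro k hk
    exact hlast _ _ (stq_get1 hk)
  · intro k hk
    exact hlast _ _ (stq_get2 hk)
  · rw [← I.flat, hnl, List.sum_toFinset _ hnd]

end Pool.Agent.Few
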