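import Pool.Agent.Few.MGlC

set_option autoImplicit false

/-!
# The glue

A crystal state of the left machine and a crystal state of the right machine (with the same `n`) are
joined by the `2 n + 1` middle sums.
-/

namespace Pool.Agent.Few

theorem mem_list_sum {α β : Type*} {f : α → Multiset β} {b : β} :
    ∀ {L : List α}, b ∈ (L.map f).sum ↔ ∃ x ∈ L, b ∈ f x
  | [] => by simp
  | x :: L => by
    rw [List.map_cons, List.sum_cons, Multiset.mem_add, mem_list_sum]; simp

theorem mem_zip_get {α β : Type*} {L : List α} {L' : List β} {p : α × β} (h : p ∈ L.zip L') :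
    ∃ (k : ℕ) (h1 : k < L.length) (h2 : k < L'.length), p = (L[k], L'[k]) := by
  obtain ⟨k, hk, rfl⟩ := List.mem_iff_getElem.1 h
  rw [List.length_zip] at hk
  exact ⟨k, by omega, by omega, by rw [List.getElem_zip]⟩

theorem chain_map_rho {σ c : Bool} {N : Bool → ℕ} {sL sR n hL : ℕ} {aL aR : ℕ → ℕ}
    (hN : N false + N true = sL + sR + 2 * n + 2) {L : List Lab}
    (hb : ∀ x ∈ L, x.2 < N (xor x.1 σ)) (h : List.IsChain (Adj aR sR) L) :
    List.IsChain (Adj (aG σ c N sL sR n hL aL aR) (sL + sR + 2 * n + 1)) (L.map (rho σ N)) := by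
  rw [List.isChain_map]
  induction L with
  | nil => exact List.IsChain.nil
  | cons x L ih =>
    cases L with
    | nil => exact List.IsChain.singleton _
    | cons y L =>
      rw [List.isChain_cons_cons] at h ⊢
      exact ⟨adjR hN h.1 (hb x (by simp)) (hb y (by simp)), ih (fun z hz => hb z (by simp at hz ⊢; tauto)) h.2⟩

theorem chain_last_last {R : Lab → Lab → Prop} {L L' : List Lab} {x y : Lab}
    (h : List.IsChain R L) (h' : List.IsChain R L'.reverse) (hx : L.getLast? = some x)
    (hy : L'.getLast? = some y) (hxy : R x y) : List.IsChain R (L ++ L'.reverse) := by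
  refine h.append h' ?_
  intro a ha b hb
  rw [hx] at ha
  rw [List.head?_reverse, hy] at hb
  simp at ha hb
  subst ha hb
  exact hxy

theorem glue {n sL sR l : ℕ} {WL WR : List ℕ} {CL CR : Cfg} {RL RR : List Stp}
    (HL : CW n sL WL CL) (HR : CW n sR WR CR)
    (skL : CL.sk = skel RL) (skR : CR.sk = skel RR) (clL : CL.cl = clOf RL) (clR : CR.cl = clOf RR)
    (pL : ∀ x ∈ WL, 0 < CL.w x) (pR : ∀ x ∈ WR, 0 < CR.w x)
    (hm : sL + sR + 2 * n = size RL + size RR + l) {x0 y0 : ℕ} {J : List (ℕ × ℕ)}
    (h0 : CL.mate x0 = .kv 0)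
    (hJ : ((x0, y0) :: J).Perm (WL.zip ((WR.take n).reverse ++ (WR.drop n).reverse)))
    (hA : AltR CL CR ((x0, y0) :: J)) : FewLab RL RR l := by
  obtain ⟨c, hL, hL', HL⟩ := HL
  obtain ⟨cR, hR, hR', HR⟩ := HR
  have lAL := HL.lenA
  have lPL := HL.lenP
  have lAR := HR.lenA
  have lPR := HR.lenP
  have sumL := HL.sum
  have sumR := HR.sum
  obtain ⟨usedL, f, aL, legL, uL, cardL, chL, arcL, nodL, lastAL, lastPL, farL, lcL, loL, flL⟩ :=
    HL.data (by rw [List.take_append_drop]; exact pL)
  obtain ⟨usedR, g, aR, legR, uR, cardR, chR, arcR, nodR, lastAR, lastPR, farR, lcR, loR, flR⟩ :=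
    HR.data (by rw [List.take_append_drop]; exact pR)
  rw [List.take_append_drop] at chL arcL nodL flL chR arcR nodR flR
  have hWL : WL = WL.take n ++ WL.drop n := (List.take_append_drop n WL).symm
  have hWR : WR = WR.take n ++ WR.drop n := (List.take_append_drop n WR).symm
  set PL := WL.take n with hPL
  set AL := WL.drop n with hAL
  set PR := WR.take n with hPR
  set AR := WR.drop n with hAR
  obtain ⟨σ, hσ⟩ : ∃ σ, σ = xor cR (!c) := ⟨_, rfl⟩
  obtain ⟨N, hNd⟩ : ∃ N : Bool → ℕ, N = fun b => if b = c then hL + 2 * n + 1 + hR' else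
    hL' + 2 * n + 1 + hR := ⟨_, rfl⟩
  have hNc : N c = hL + 2 * n + 1 + hR' := by rw [hNd]; simp
  have hNc' : N (!c) = hL' + 2 * n + 1 + hR := by rw [hNd]; cases c <;> simp
  have hN : N false + N true = sL + sR + 2 * n + 2 := by
    have : N false + N true = N c + N (!c) := by cases c <;> simp [add_comm]
    rw [this, hNc, hNc']; omega
  have x1 : xor cR σ = !c := by rw [hσ]; cases cR <;> cases c <;> rfl
  have x2 : xor (!cR) σ = c := by rw [hσ]; cases cR <;> cases c <;> rfl
  -- bounds for the labels of the right side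
  have bR : ∀ x ∈ usedR, x.2 < N (xor x.1 σ) := by
    intro x hx
    rcases (uR x).1 hx with ⟨h1, h2⟩ | ⟨h1, h2⟩
    · rw [h1, x1, hNc']; omega
    · rw [h1, x2, hNc]; omega
  have mR1 : ∀ y ∈ WR, ∀ x ∈ g y, x ∈ usedR := by
    intro y hy x hx
    rw [← Finset.mem_val, ← flR, Multiset.mem_add]
    exact Or.inl (mem_list_sum.2 ⟨y, hy, by simpa using hx⟩)
  have mR2 : ∀ i < nodes CR.sk, CR.kap i ∈ usedR ∧ ∀ x ∈ legR i, x ∈ usedR := by
    intro i hi
    constructor
    · rw [← Finset.mem_val, ← flR, Multiset.mem_add]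
      exact Or.inr (Multiset.mem_sum.2 ⟨i, by simpa using hi, by simp⟩)
    · intro x hx
      rw [← Finset.mem_val, ← flR, Multiset.mem_add]
      exact Or.inr (Multiset.mem_sum.2 ⟨i, by simpa using hi, by simp [hx]⟩)
  -- the world
  obtain ⟨a, ha⟩ : ∃ a, a = aG σ c N sL sR n hL aL aR := ⟨_, rfl⟩
  obtain ⟨m, hmm⟩ : ∃ m, m = sL + sR + 2 * n + 1 := ⟨_, rfl⟩
  have AL' : ∀ x y, Adj aL sL x y → Adj a m x y := fun x y h => by rw [ha, hmm]; exact adjL h
  have CHR : ∀ L : List Lab, (∀ x ∈ L, x ∈ usedR) → List.IsChain (Adj aR sR) L →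
      List.IsChain (Adj a m) (L.map (rho σ N)) := fun L hL' h => by
    rw [ha, hmm]
    exact chain_map_rho hN (fun x hx => bR x (hL' x hx)) h
  have hlk : ∀ i t, CL.cl i = some t → i + 1 < nodes CL.sk ∧ (legL i).length = t ∧
      List.IsChain (Adj a m) (CL.kap i :: legL i ++ [CL.kap (i + 1)]) := fun i t h => by
    obtain ⟨h1, h2, h3⟩ := lcL i t h
    exact ⟨h1, h2, h3.imp AL'⟩
  have hrk : ∀ i t, CR.cl i = some t → i + 1 < nodes CR.sk ∧
      ((legR i).map (rho σ N)).length = t ∧
      List.IsChain (Adj a m) (rho σ N (CR.kap i) :: (legR i).map (rho σ N) ++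
        [rho σ N (CR.kap (i + 1))]) := fun i t h => by
    obtain ⟨h1, h2, h3⟩ := lcR i t h
    refine ⟨h1, by rw [List.length_map, h2], ?_⟩
    have := CHR _ ?_ h3
    · simpa using this
    · intro x hx
      simp only [List.cons_append, List.mem_cons, List.mem_append, List.not_mem_nil,
        or_false] at hx
      rcases hx with rfl | hx | rfl
      · exact (mR2 i (by omega)).1
      · exact (mR2 i (by omega)).2 x hx
      · exact (mR2 (i + 1) h1).1
  have embL : Emb a m CL.kap legL RL := by
    refine emb_of_far RL ?_ ?_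
    · rw [← skL, ha, hmm]; exact Far.mapL farL
    · intro i t h
      rw [← clL] at h
      exact (hlk i t h).2
  have embR : Emb a m (fun i => rho σ N (CR.kap i)) (fun i => (legR i).map (rho σ N)) RR := by
    refine emb_of_far RR ?_ ?_
    · rw [← skR, ha, hmm]
      exact Far.mapR hN farR fun i hi => bR _ (mR2 i hi).1
    · intro i t h
      rw [← clR] at h
      exact (hrk i t h).2
  -- the pairs
  have zipP : ∀ p ∈ ((x0, y0) :: J), p.1 ∈ WL ∧ p.2 ∈ WR ∧
      List.IsChain (Adj a m) (f p.1 ++ ((g p.2).map (rho σ N)).reverse) := by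
    intro p hp
    rw [hJ.mem_iff, hWL, List.zip_append (by rw [List.length_reverse]; omega), List.mem_append] at hp
    have key : ∀ x y lx ly, x ∈ WL → y ∈ WR → (f x).getLast? = some lx →
        (g y).getLast? = some ly → Adj a m lx (rho σ N ly) →
        List.IsChain (Adj a m) (f x ++ ((g y).map (rho σ N)).reverse) := by
      intro x y lx ly hx hy h1 h2 h3
      refine chain_last_last ((chL x hx).2.imp AL') ?_ h1 (y := rho σ N ly) ?_ h3
      · exact chain_reverse (CHR _ (mR1 y hy) (chR y hy).2)
      · rw [List.getLast?_map, h2]; rfl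
    rcases hp with hp | hp
    · obtain ⟨k, h1, h2, rfl⟩ := mem_zip_get hp
      have h2' : n - 1 - k < PR.length := by omega
      have e1 : PR.reverse[k] = PR[n - 1 - k] := by
        rw [List.getElem_reverse]; congr 1; omega
      simp only [e1]
      have i1 : PL[k] ∈ WL := by rw [hWL]; exact List.mem_append_left _ (List.getElem_mem _)
      have i2 : PR[n - 1 - k] ∈ WR := by rw [hWR]; exact List.mem_append_left _ (List.getElem_mem _)
      refine ⟨i1, i2, key _ _ _ _ i1 i2 (lastPL k h1) (lastPR (n - 1 - k) h2') ?_⟩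
      have e2 : rho σ N (!cR, hR' + (n - 1 - k)) = (c, hL + n + 1 + k) := by
        simp only [rho, x2, hNc]
        congr 1
        omega
      rw [e2, ha, hmm]
      exact adjM2 (by omega) (by omega)
    · obtain ⟨k, h1, h2, rfl⟩ := mem_zip_get hp
      have h2' : n - k < AR.length := by omega
      have e1 : AR.reverse[k] = AR[n - k] := by
        rw [List.getElem_reverse]; congr 1; omega
      simp only [e1]
      have i1 : AL[k] ∈ WL := by rw [hWL]; exact List.mem_append_right _ (List.getElem_mem _)
      have i2 : AR[n - k] ∈ WR := by rw [hWR]; exact List.mem_append_right _ (List.getElem_mem _)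
      refine ⟨i1, i2, key _ _ _ _ i1 i2 (lastAL k h1) (lastAR (n - k) h2') ?_⟩
      have e2 : rho σ N (cR, hR + (n - k)) = (!c, hL' + n + k) := by
        simp only [rho, x1, hNc']
        congr 1
        omega
      rw [e2, ha, hmm]
      exact adjM1 (by omega) (by omega)
  -- the spine
  obtain ⟨g', hg'⟩ : ∃ g' : ℕ → List Lab, g' = fun y => (g y).map (rho σ N) := ⟨_, rfl⟩
  have spch : List.IsChain (Adj a m)
      ([CL.kap 0] ++ (spn f g' ((x0, y0) :: J) ++ [rho σ N (CR.kap 0)])) := by
    refine spn_chain (fun _ _ h => h.symm) (CL := CL) (CR := CR) _ _ le_rfl hA ?_ ?_ ?_ ?_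
      [CL.kap 0] x0 y0 J rfl ?_
    · intro p hp
      obtain ⟨h1, h2, h3⟩ := zipP p hp
      refine ⟨(chL _ h1).1, ?_, by rw [hg']; exact h3⟩
      rw [hg']
      simpa using (chR _ h2).1
    · intro p hp q hq hpq
      obtain ⟨-, h2, -⟩ := zipP p hp
      obtain ⟨-, h2', -⟩ := zipP q hq
      have := CHR _ ?_ (arcR _ h2 _ hpq)
      · rw [hg']
        simpa using this
      · intro x hx
        rw [List.mem_append, List.mem_reverse] at hx
        rcases hx with hx | hx
        · exact mR1 _ h2 x hx
        · exact mR1 _ h2' x hx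
    · intro p hp q hq hpq
      obtain ⟨h2, -, -⟩ := zipP p hp
      exact (arcL _ h2 _ hpq).imp AL'
    · intro p hp hpq
      obtain ⟨-, h2, -⟩ := zipP p hp
      have hk0 : (0 : ℕ) < nodes CR.sk := nodes_pos _
      have := chain_reverse (CHR _ ?_ (nodR _ h2 _ hpq))
      · rw [hg']
        simpa using this
      · intro x hx
        rw [List.mem_cons] at hx
        rcases hx with rfl | hx
        · exact (mR2 0 hk0).1
        · exact mR1 _ h2 x hx
    · have h1 := (zipP (x0, y0) (by simp)).1
      exact (nodL _ h1 _ h0).imp AL'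
  -- all labels
  have sumall : ((labs CL.kap legL RL ++ labs (fun i => rho σ N (CR.kap i))
      (fun i => (legR i).map (rho σ N)) RR ++ spn f g' ((x0, y0) :: J) : List Lab) : Multiset Lab) =
      usedL.val + usedR.val.map (rho σ N) := by
    rw [labs_map, ← Multiset.coe_add, ← Multiset.coe_add, ← Multiset.map_coe, labs_coe RL, labs_coe RR,
      spn_coe _ _ le_rfl, ← flL, ← flR, Multiset.map_add, ← nodes_skel RL, ← nodes_skel RR, ← skL,
      ← skR]
    · have e1 : (((x0, y0) :: J).map fun p => ((f p.1 : Multiset Lab) + (g' p.2 : Multiset Lab))).sum =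
          (WL.map fun x => (f x : Multiset Lab)).sum +
            Multiset.map (rho σ N) (WR.map fun x => (g x : Multiset Lab)).sum := by
        rw [(hJ.map _).sum_eq]
        refine (zip_sum (f := fun x => (f x : Multiset Lab)) (g := fun y => (g' y : Multiset Lab))
          _ _ ?_).trans ?_
        · rw [List.length_append, List.length_reverse, List.length_reverse, hWL, List.length_append]
          omega
        · congr 1
          rw [List.map_append, List.sum_append, List.map_reverse, List.map_reverse, List.sum_reverse,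
            List.sum_reverse]
          rw [← List.sum_append, ← List.map_append, ← hWR]
          rw [← Multiset.coe_mapAddMonoidHom, map_list_sum, List.map_map]
          congr 1
          apply List.map_congr_left
          intro y _
          rw [hg']
          simp
      rw [e1]
      abel
    · intro i hi h
      rw [← clR] at h
      exact loR i h
    · intro i hi h
      rw [← clL] at h
      exact loL i h
  have splen : (spn f g' ((x0, y0) :: J)).length = l := by
    have h1 := congrArg Multiset.card sumall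
    rw [Multiset.coe_card, List.length_append, List.length_append, labs_map, List.length_map,
      labs_length RL, labs_length RR, Multiset.card_add, Multiset.card_map, Finset.card_val,
      Finset.card_val, cardL, cardR] at h1
    · omega
    · intro i t h
      rw [← clR] at h
      exact (lcR i t h).2.1
    · intro i t h
      rw [← clL] at h
      exact (lcL i t h).2.1
  have bnd : ∀ x ∈ usedL.val + usedR.val.map (rho σ N), x.2 < N x.1 := by
    intro x hx
    rw [Multiset.mem_add] at hx
    rcases hx with hx | hx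
    · rcases (uL x).1 hx with ⟨h1, h2⟩ | ⟨h1, h2⟩
      · rw [h1, hNc]; omega
      · rw [h1, hNc']; omega
    · obtain ⟨y, hy, rfl⟩ := Multiset.mem_map.1 hx
      have := bR y hy
      simp only [rho]; omega
  have ndall : (usedL.val + usedR.val.map (rho σ N)).Nodup := by
    rw [Multiset.nodup_add]
    refine ⟨usedL.nodup, ?_, ?_⟩
    · refine Multiset.Nodup.map_on ?_ usedR.nodup
      intro x hx y hy hxy
      have h1 := bR x hx
      have h2 := bR y hy
      simp only [rho, Prod.mk.injEq] at hxy
      obtain ⟨e1, e2⟩ := hxy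
      have e3 : x.1 = y.1 := by
        revert e1; cases x.1 <;> cases y.1 <;> cases σ <;> simp
      rw [e3] at h1 e2
      exact Prod.ext e3 (by omega)
    · rw [Multiset.disjoint_left]
      intro x hx hx'
      obtain ⟨y, hy, rfl⟩ := Multiset.mem_map.1 hx'
      have h3 := (uL _).1 hx
      have h5 : (!c) ≠ c := by cases c <;> simp
      rcases (uR y).1 hy with ⟨h1, h2⟩ | ⟨h1, h2⟩
      · simp only [rho, h1, x1, hNc'] at h3
        rcases h3 with ⟨h4, -⟩ | ⟨-, h4⟩
        · exact h5 h4
        · omega
      · simp only [rho, h1, x2, hNc] at h3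
        rcases h3 with ⟨-, h4⟩ | ⟨h4, -⟩
        · omega
        · exact h5 h4.symm
  have em : size RL + size RR + l + 1 = m := by omega
  refine ⟨a, CL.kap, legL, fun i => rho σ N (CR.kap i), fun i => (legR i).map (rho σ N),
    spn f g' ((x0, y0) :: J), N false, N true, by omega, ?_, ?_, ?_, splen, ?_, ?_⟩
  · rw [em]; exact embL
  · rw [em]; exact embR
  · rw [em]; simpa using spch
  · rw [← Multiset.coe_nodup, sumall]; exact ndall
  · intro x hx
    rw [← Multiset.mem_coe, sumall] at hx
    have := bnd x hx
    revert this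
    cases x.1 <;> simp

end Pool.Agent.Few
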