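import Pool.Agent.Few.MAbsorb
import Pool.Agent.Few.MClose
import Pool.Agent.Few.MFar
import Pool.Agent.Few.MEven

set_option autoImplicit false

/-! # Graph level: the operations `G.arc`, `G.absorb`, `G.close`, `G.far`, `G.farT`, `G.node2`,
`G.init`, `G.even` are proved in the imported files; here are some general facts. -/

namespace Pool.Agent.Few

/-- The two nodes of a long leg have opposite colours. -/
theorem G.legcol {s : ℕ} {st : Lab → St} {C : Cfg} (h : G s st C) {i : ℕ} (hi : i ∈ legsOf C.sk) :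
    (C.kap i).1 ≠ (C.kap (i + 1)).1 := by
  obtain ⟨_, _, _, a, _, I⟩ := h
  have hf := I.far
  generalize C.sk = R at hi hf
  induction R with
  | nil => simp [legsOf] at hi
  | cons t R ih =>
    cases t with
    | s p => exact ih hi hf.1
    | l p t =>
      rcases List.mem_cons.1 hi with rfl | hi
      · exact hf.2.2.2
      · exact ih hi hf.1

/-- Every node with an attached strand. -/
theorem G.tile {s : ℕ} {st : Lab → St} {C : Cfg} (h : G s st C) {k : ℕ} (hk : k ∈ C.tl) :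
    ∃ x l, st l = .op x ∧ C.mate x = .kv k := by
  obtain ⟨names, _, _, a, _, I⟩ := h
  obtain ⟨x, hx, hm⟩ := I.tile k hk
  obtain ⟨l, hl⟩ := (I.names_iff x).1 hx
  exact ⟨x, l, hl, hm⟩

theorem G.mate_kv {s : ℕ} {st : Lab → St} {C : Cfg} (h : G s st C) {l : Lab} {x k : ℕ}
    (hl : st l = .op x) (hm : C.mate x = .kv k) : k < nodes C.sk ∧ k ∈ C.tl := by
  obtain ⟨names, _, _, a, _, I⟩ := h
  exact I.mate_kv x ((I.names_iff x).2 ⟨l, hl⟩) k hm

theorem G.kv_inj {s : ℕ} {st : Lab → St} {C : Cfg} (h : G s st C) {l l' : Lab} {x y k : ℕ}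
    (hl : st l = .op x) (hl' : st l' = .op y) (hx : C.mate x = .kv k) (hy : C.mate y = .kv k) :
    x = y := by
  obtain ⟨names, _, _, a, _, I⟩ := h
  exact I.kv_inj x ((I.names_iff x).2 ⟨l, hl⟩) y ((I.names_iff y).2 ⟨l', hl'⟩) k hx hy

/-- The name of an open end determines its label. -/
theorem G.inj {s : ℕ} {st : Lab → St} {C : Cfg} (h : G s st C) {l l' : Lab} {x : ℕ}
    (hl : st l = .op x) (hl' : st l' = .op x) : l = l' := by
  obtain ⟨_, _, _, _, _, I⟩ := h
  exact I.inj _ _ _ hl hl'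

/-- Mates are open ends and form an involution. -/
theorem G.mate {s : ℕ} {st : Lab → St} {C : Cfg} (h : G s st C) {l : Lab} {x y : ℕ}
    (hl : st l = .op x) (hm : C.mate x = .nm y) : (∃ l', st l' = .op y) ∧ y ≠ x ∧ C.mate y = .nm x := by
  obtain ⟨names, _, _, _, _, I⟩ := h
  obtain ⟨h1, h2, h3⟩ := I.mate_nm x ((I.names_iff x).2 ⟨l, hl⟩) y hm
  exact ⟨(I.names_iff y).1 h1, h2, h3⟩

/-- There are unused names. -/
theorem G.fresh {s : ℕ} {st : Lab → St} {C : Cfg} (h : G s st C) (F : Finset ℕ) :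
    ∃ x, x ∉ F ∧ ∀ m, st m ≠ .op x := by
  obtain ⟨names, _, _, _, _, I⟩ := h
  obtain ⟨x, hx⟩ := Infinite.exists_notMem_finset (F ∪ names)
  refine ⟨x, fun h => hx (Finset.mem_union_left _ h), fun m hm => hx (Finset.mem_union_right _ ?_)⟩
  exact (I.names_iff x).2 ⟨m, hm⟩

end Pool.Agent.Few
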