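import Pool.Agent.Few.MQLem

set_option autoImplicit false

/-! # Queue level: moves which do not change the world -/

namespace Pool.Agent.Few

/-- Skipping a label. -/
theorem MQ.push {s : ℕ} {c : Bool} {h1 h2 : ℕ} {q1 q2 : List St} {ex : Option (Lab × St)} {C : Cfg}
    (h : MQ s c h1 q1 h2 q2 ex C) : MQ s c h1 (q1 ++ [.free]) h2 q2 ex C := by
  unfold MQ at h ⊢
  have : stq c h1 (q1 ++ [.free]) h2 q2 = stq c h1 q1 h2 q2 := by
    funext l
    rw [stq_eq, stq_eq, qf_push]
  rw [this]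
  exact h

/-- A full label at the head is dropped. -/
theorem MQ.drop {s : ℕ} {c : Bool} {h1 h2 : ℕ} {q1 q2 : List St} {ex : Option (Lab × St)} {C : Cfg}
    (h : MQ s c h1 (.full :: q1) h2 q2 ex C) : MQ s c (h1 + 1) q1 h2 q2 ex C := by
  unfold MQ at h ⊢
  have : stq c h1 (.full :: q1) h2 q2 = stq c (h1 + 1) q1 h2 q2 := by
    funext l
    rw [stq_eq, stq_eq, qf_drop]
  rw [← this]
  exact h

/-- The exceptional label is reached by the end of the first queue. -/
theorem MQ.settle {s : ℕ} {c : Bool} {h1 h2 : ℕ} {q1 q2 : List St} {t : St} {C : Cfg}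
    (h : MQ s c h1 q1 h2 q2 (some ((c, h1 + q1.length), t)) C) :
    MQ s c h1 (q1 ++ [t]) h2 q2 none C := by
  unfold MQ at h ⊢
  have : exq (some ((c, h1 + q1.length), t)) (stq c h1 q1 h2 q2) = stq c h1 (q1 ++ [t]) h2 q2 :=
    stq_upd1 qf_back (fun m hm => qf_back_ne hm)
  rw [this] at h
  exact h

/-- The strand at the head of the first queue is parked. -/
theorem MQ.park {s : ℕ} {c : Bool} {h1 h2 x : ℕ} {q1 q2 : List St} {C : Cfg}
    (h : MQ s c h1 (.op x :: q1) h2 q2 none C) :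
    MQ s c (h1 + 1) q1 h2 q2 (some ((c, h1), .op x)) C := by
  unfold MQ at h ⊢
  have : exq (some ((c, h1), St.op x)) (stq c (h1 + 1) q1 h2 q2) = stq c h1 (.op x :: q1) h2 q2 :=
    stq_upd1 qf_head (fun m hm => qf_tail hm)
  rw [this]
  exact h

end Pool.Agent.Few
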