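import Pool.Agent.Few.MQLem

set_option autoImplicit false

/-! # Queue level: pop, opening an arc, far extension -/

namespace Pool.Agent.Few

/-- Normal step: the strand `x` at the head of the first queue is extended. -/
theorem MQ.pop {s : ℕ} {c : Bool} {h1 h2 x : ℕ} {q1 q2 : List St} {ex : Option (Lab × St)} {C : Cfg}
    (h : MQ s c h1 (.op x :: q1) h2 q2 ex C) (hs : h1 + (h2 + q2.length) = s)
    (e1 : NotEx ex (c, h1)) (e2 : NotEx ex (!c, h2 + q2.length)) :
    MQ (s + 1) c (h1 + 1) q1 h2 (q2 ++ [.op x]) ex (bump [x] C) := by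
  unfold MQ at h ⊢
  have h0 := G.ext h (l := (c, h1)) (l' := (!c, h2 + q2.length)) (x := x)
    (by rw [exq_apply e1, stq_head]) (by rw [exq_apply e2, stq_free2 le_rfl])
    (by cases c <;> simp) hs
  rw [exq_update _ e1, exq_update _ e2,
    stq_upd1 (h1' := h1 + 1) (q1' := q1) (qf_lt (by omega)) (fun m hm => (qf_tail hm).symm),
    stq_upd2 (h2' := h2) (q2' := q2 ++ [.op x]) qf_back (fun m hm => qf_back_ne hm)] at h0
  rw [bump_single]
  exact h0

/-- Opening an arc at an unused label at the head of the first queue. -/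
theorem MQ.popFree {s : ℕ} {c : Bool} {h1 h2 x y : ℕ} {q1 q2 : List St} {ex : Option (Lab × St)}
    {C : Cfg} (h : MQ s c h1 (.free :: q1) h2 q2 ex C) (hs : h1 + (h2 + q2.length) = s)
    (e1 : NotEx ex (c, h1)) (e2 : NotEx ex (!c, h2 + q2.length)) (hxy : x ≠ y)
    (hx : ∀ m, exq ex (stq c h1 (.free :: q1) h2 q2) m ≠ .op x)
    (hy : ∀ m, exq ex (stq c h1 (.free :: q1) h2 q2) m ≠ .op y) :
    MQ (s + 1) c h1 (.op x :: q1) h2 (q2 ++ [.op y]) ex
      { C with
        mate := Function.update (Function.update C.mate x (.nm y)) y (.nm x)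
        w := Function.update (Function.update C.w x 1) y 1 } := by
  unfold MQ at h ⊢
  have h0 := G.arc h (l := (c, h1)) (l' := (!c, h2 + q2.length)) (x := x) (y := y)
    (by rw [exq_apply e1, stq_head]) (by rw [exq_apply e2, stq_free2 le_rfl])
    (by cases c <;> simp) hs hxy hx hy
  rw [exq_update _ e1, exq_update _ e2,
    stq_upd1 (h1' := h1) (q1' := .op x :: q1) qf_head
      (fun m hm => by rw [qf_tail hm, qf_tail hm]),
    stq_upd2 (h2' := h2) (q2' := q2 ++ [.op y]) qf_back (fun m hm => qf_back_ne hm)] at h0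
  exact h0

/-- A parked strand is extended to a label of the other colour behind the end of the second queue. -/
theorem MQ.farext {s : ℕ} {c : Bool} {h1 h2 l l' x : ℕ} {q1 q2 : List St} {C : Cfg}
    (h : MQ s c h1 q1 h2 q2 (some ((c, l), .op x)) C) (hl : l < h1) (hl' : h2 + q2.length ≤ l')
    (hs : l + l' = s) :
    MQ (s + 1) c h1 q1 h2 q2 (some ((!c, l'), .op x)) (bump [x] C) := by
  unfold MQ at h ⊢
  have hne : ((!c, l') : Lab) ≠ (c, l) := by cases c <;> simp
  have h0 := G.ext h (l := (c, l)) (l' := (!c, l')) (x := x)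
    (by rw [exq, Function.update_self])
    (by rw [exq, Function.update_of_ne hne, stq_free2 hl'])
    (by cases c <;> simp) hs
  rw [bump_single]
  have e : Function.update (exq (some ((c, l), St.op x)) (stq c h1 q1 h2 q2)) (c, l) .full =
      stq c h1 q1 h2 q2 := by
    rw [exq, Function.update_idem]
    have := stq_full1 (c := c) (h1 := h1) (h2 := h2) (q1 := q1) (q2 := q2) hl
    rw [← this, Function.update_eq_self]
  rw [e] at h0
  exact h0

end Pool.Agent.Few
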