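import Pool.Agent.Few.MQLem

set_option autoImplicit false

/-! # Queue level: joins -/

namespace Pool.Agent.Few

/-- The end `x` at the back of the first queue and the end `y` at the head of the second queue are
joined; `x` swallows the arc of `y`. -/
theorem MQ.absorbB {s : ℕ} {c : Bool} {h1 h2 x y z : ℕ} {q1 q2 : List St} {ex : Option (Lab × St)}
    {C : Cfg} (h : MQ s c h1 (q1 ++ [.op x]) h2 (.op y :: q2) ex C) (hs : (h1 + q1.length) + h2 = s)
    (e1 : NotEx ex (c, h1 + q1.length)) (e2 : NotEx ex (!c, h2)) (hm : C.mate y = .nm z) (hz : z ≠ x) :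
    MQ (s + 1) c h1 (q1.map (absT x y z) ++ [.full]) (h2 + 1) (q2.map (absT x y z))
      (ex.map fun p => (p.1, absT x y z p.2))
      { C with w := Function.update C.w x (C.w x + C.w y + C.w z) } := by
  unfold MQ at h ⊢
  have h0 := G.absorb h (l := (c, h1 + q1.length)) (l' := (!c, h2)) (x := x) (y := y) (z := z)
    (by rw [exq_apply e1, stq_back1]) (by rw [exq_apply e2, stq_head2])
    (by cases c <;> simp) hs hm hz
  rw [exq_map, stq_map rfl rfl, List.map_append, List.map_cons, List.map_nil, List.map_cons] at h0
  have f1 : absT x y z (.op x) = .full := by simp [absT]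
  have f2 : absT x y z (.op y) = .full := by simp [absT]
  rw [f1, f2, stq_drop2] at h0
  exact h0

/-- The end `y` at the back of the first queue and the end `x` at the head of the second queue are
joined; `x` swallows the arc of `y`. -/
theorem MQ.absorbH {s : ℕ} {c : Bool} {h1 h2 x y z : ℕ} {q1 q2 : List St} {ex : Option (Lab × St)}
    {C : Cfg} (h : MQ s c h1 (q1 ++ [.op y]) h2 (.op x :: q2) ex C) (hs : (h1 + q1.length) + h2 = s)
    (e1 : NotEx ex (c, h1 + q1.length)) (e2 : NotEx ex (!c, h2)) (hm : C.mate y = .nm z) (hz : z ≠ x) :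
    MQ (s + 1) c h1 (q1.map (absT x y z) ++ [.full]) (h2 + 1) (q2.map (absT x y z))
      (ex.map fun p => (p.1, absT x y z p.2))
      { C with w := Function.update C.w x (C.w x + C.w y + C.w z) } := by
  unfold MQ at h ⊢
  have h0 := G.absorb h (l := (!c, h2)) (l' := (c, h1 + q1.length)) (x := x) (y := y) (z := z)
    (by rw [exq_apply e2, stq_head2]) (by rw [exq_apply e1, stq_back1])
    (by cases c <;> simp) (by simp only; omega) hm hz
  rw [exq_map, stq_map rfl rfl, List.map_append, List.map_cons, List.map_nil, List.map_cons] at h0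
  have f1 : absT x y z (.op x) = .full := by simp [absT]
  have f2 : absT x y z (.op y) = .full := by simp [absT]
  rw [f1, f2, stq_drop2] at h0
  exact h0

/-- Closing a leg: its two ends are at the back of the first queue and at the head of the second. -/
theorem MQ.close {s : ℕ} {c : Bool} {h1 h2 x y i : ℕ} {q1 q2 : List St} {ex : Option (Lab × St)}
    {C : Cfg} (h : MQ s c h1 (q1 ++ [.op x]) h2 (.op y :: q2) ex C) (hs : (h1 + q1.length) + h2 = s)
    (e1 : NotEx ex (c, h1 + q1.length)) (e2 : NotEx ex (!c, h2))
    (hm : (C.mate x = .kv i ∧ C.mate y = .kv (i + 1)) ∨ (C.mate x = .kv (i + 1) ∧ C.mate y = .kv i))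
    (hi : C.cl i = none) :
    MQ (s + 1) c h1 (q1.map (closeT x y) ++ [.full]) (h2 + 1) (q2.map (closeT x y))
      (ex.map fun p => (p.1, closeT x y p.2))
      { C with
        cl := Function.update C.cl i (some (C.w x + C.w y))
        tl := (C.tl.erase i).erase (i + 1) } := by
  unfold MQ at h ⊢
  have f1 : closeT x y (.op x) = .full := by simp [closeT]
  have f2 : closeT x y (.op y) = .full := by simp [closeT]
  have g1 : exq ex (stq c h1 (q1 ++ [.op x]) h2 (.op y :: q2)) (c, h1 + q1.length) = .op x := by
    rw [exq_apply e1, stq_back1]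
  have g2 : exq ex (stq c h1 (q1 ++ [.op x]) h2 (.op y :: q2)) (!c, h2) = .op y := by
    rw [exq_apply e2, stq_head2]
  rcases hm with ⟨hx, hy⟩ | ⟨hx, hy⟩
  · have h0 := G.close h (l := (c, h1 + q1.length)) (l' := (!c, h2)) (x := x) (y := y) (i := i)
      g1 g2 (by cases c <;> simp) hs hx hy hi
    rw [exq_map, stq_map rfl rfl, List.map_append, List.map_cons, List.map_nil, List.map_cons,
      f1, f2, stq_drop2] at h0
    exact h0
  · have h0 := G.close h (l := (!c, h2)) (l' := (c, h1 + q1.length)) (x := y) (y := x) (i := i)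
      g2 g1 (by cases c <;> simp) (by simp only; omega) hy hx hi
    have e : closeT y x = closeT x y := by
      funext t
      cases t with
      | free => rfl
      | full => rfl
      | op t => simp only [closeT]; split_ifs <;> rfl
    rw [e, exq_map, stq_map rfl rfl, List.map_append, List.map_cons, List.map_nil, List.map_cons,
      f1, f2, stq_drop2, add_comm (C.w y)] at h0
    exact h0

end Pool.Agent.Few
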