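import Pool.Agent.Few.MQLem

set_option autoImplicit false

/-! # Queue level: far edges and new nodes -/

namespace Pool.Agent.Few

/-- A far edge from node `p` (of colour `!c'`) to the reserved label `(c', l)`. -/
theorem MQ.far {s : ℕ} {c c' : Bool} {h1 h2 p l : ℕ} {q1 q2 : List St} {C : Cfg}
    (h : MQ s c h1 q1 h2 q2 none C) (hp : p < nodes C.sk) (hc : (C.kap p).1 = !c')
    (hs : (C.kap p).2 + l = s)
    (hl : (c' = c → h1 + q1.length ≤ l) ∧ (c' = !c → h2 + q2.length ≤ l)) :
    MQ (s + 1) c h1 q1 h2 q2 (some ((c', l), .full))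
      { C with
        kap := Function.update C.kap (nodes C.sk) (c', l)
        sk := .s p :: C.sk } := by
  unfold MQ at h ⊢
  have hfree : stq c h1 q1 h2 q2 (c', l) = .free := by
    by_cases hcc : c' = c
    · rw [hcc]; exact stq_free1 (hl.1 hcc)
    · have : c' = !c := by revert hcc; cases c <;> cases c' <;> simp
      rw [this]; exact stq_free2 (hl.2 this)
  exact G.far h (l := (c', l)) hp hfree (by rw [hc]; cases c' <;> simp) hs

/-- The same, the new node is the beginning of a strand with open end `x`. -/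
theorem MQ.farT {s : ℕ} {c c' : Bool} {h1 h2 p l x : ℕ} {q1 q2 : List St} {C : Cfg}
    (h : MQ s c h1 q1 h2 q2 none C) (hp : p < nodes C.sk) (hc : (C.kap p).1 = !c')
    (hs : (C.kap p).2 + l = s)
    (hl : (c' = c → h1 + q1.length ≤ l) ∧ (c' = !c → h2 + q2.length ≤ l))
    (hx : ∀ m, stq c h1 q1 h2 q2 m ≠ .op x) :
    MQ (s + 1) c h1 q1 h2 q2 (some ((c', l), .op x))
      { C with
        mate := Function.update C.mate x (.kv (nodes C.sk))
        w := Function.update C.w x 0
        kap := Function.update C.kap (nodes C.sk) (c', l)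
        sk := .s p :: C.sk
        tl := insert (nodes C.sk) C.tl } := by
  unfold MQ at h ⊢
  have hfree : stq c h1 q1 h2 q2 (c', l) = .free := by
    by_cases hcc : c' = c
    · rw [hcc]; exact stq_free1 (hl.1 hcc)
    · have : c' = !c := by revert hcc; cases c <;> cases c' <;> simp
      rw [this]; exact stq_free2 (hl.2 this)
  exact G.farT h (l := (c', l)) hp hfree (by rw [hc]; cases c' <;> simp) hs hx

/-- The second node of a long leg at the end of the first queue. -/
theorem MQ.node2 {s : ℕ} {c : Bool} {h1 h2 p y : ℕ} {q1 q2 : List St} {ex : Option (Lab × St)}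
    {C : Cfg} {R : List Stp} (h : MQ s c h1 q1 h2 q2 ex C) (hR : C.sk = .s p :: R)
    (e1 : NotEx ex (c, h1 + q1.length)) (hc : (C.kap (nodes R)).1 = !c)
    (hy : ∀ m, exq ex (stq c h1 q1 h2 q2) m ≠ .op y) :
    MQ s c h1 (q1 ++ [.op y]) h2 q2 ex
      { C with
        mate := Function.update C.mate y (.kv (nodes R + 1))
        w := Function.update C.w y 0
        kap := Function.update C.kap (nodes R + 1) (c, h1 + q1.length)
        sk := .l p 0 :: R
        tl := insert (nodes R + 1) C.tl } := by
  unfold MQ at h ⊢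
  have h0 := G.node2 h (l := (c, h1 + q1.length)) (p := p) (y := y) (R := R) hR
    (by rw [exq_apply e1, stq_free1 le_rfl]) (by rw [hc]; cases c <;> simp) hy
  rw [exq_update _ e1, stq_upd1 (h1' := h1) (q1' := q1 ++ [.op y]) qf_back
    (fun m hm => qf_back_ne hm)] at h0
  exact h0

end Pool.Agent.Few
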