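import Pool.Agent.Few.MQ2

set_option autoImplicit false

/-! # Queue level: rounds -/

namespace Pool.Agent.Few

/-- `t` rounds: the strands `A` at the head of the first queue and `B` at the head of the second queue
are extended alternately. -/
theorem MQ.rounds {s : ℕ} {c : Bool} {h1 h2 : ℕ} (A B : List ℕ) {q1 q2 : List St}
    {ex : Option (Lab × St)} {C : Cfg} (hAB : A.length = B.length) (hq : q1.length = q2.length + 1)
    (h : MQ s c h1 (A.map .op ++ q1) h2 (B.map .op ++ q2) ex C)
    (hs : h1 + h2 + B.length + q2.length = s)
    (hex : ∀ l0 t, ex = some (l0, t) →
      (l0.1 = c → l0.2 < h1 ∨ h1 + q1.length + 2 * A.length ≤ l0.2) ∧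
      (l0.1 = !c → l0.2 < h2 ∨ h2 + q2.length + 2 * A.length ≤ l0.2)) :
    MQ (s + 2 * A.length) c (h1 + A.length) (q1 ++ B.map .op) (h2 + A.length) (q2 ++ A.map .op) ex
      (bump (A ++ B) C) := by
  induction A generalizing B s h1 h2 q1 q2 C with
  | nil =>
    have : B = [] := List.length_eq_zero_iff.1 (by rw [← hAB]; rfl)
    subst this
    simp only [List.map_nil, List.nil_append, List.append_nil, List.length_nil, Nat.mul_zero,
      Nat.add_zero] at h ⊢
    have : bump [] C = C := by unfold bump; simp
    rw [this]; exact h
  | cons x A ih =>
    cases B with
    | nil => simp at hAB
    | cons y B =>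
      simp only [List.length_cons] at hAB hs hex
      simp only [List.map_cons, List.cons_append] at h
      have hAB' : A.length = B.length := by omega
      have h1' := MQ.pop h (by simp only [List.length_cons, List.length_append, List.length_map]; omega)
        (by
          rintro l0 t ht rfl
          have := (hex _ _ ht).1 rfl
          simp only at this; omega)
        (by
          rintro l0 t ht rfl
          have := (hex _ _ ht).2 rfl
          simp only [List.length_cons, List.length_append, List.length_map] at this; omega)
      have h2' := MQ.pop (x := y) (q1 := B.map .op ++ q2 ++ [.op x]) (by simpa using h1'.swap)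
        (by simp only [List.length_append, List.length_map]; omega)
        (by
          rintro l0 t ht rfl
          have := (hex _ _ ht).2 rfl
          simp only at this; omega)
        (by
          rintro l0 t ht h
          rw [Bool.not_not] at h
          subst h
          have := (hex _ _ ht).1 rfl
          simp only [List.length_append, List.length_map] at this; omega)
      have h3' := ih (B := B) (s := s + 1 + 1) (h1 := h1 + 1) (h2 := h2 + 1) (q1 := q1 ++ [.op y])
        (q2 := q2 ++ [.op x]) (C := bump [y] (bump [x] C)) hAB'
        (by simp only [List.length_append, List.length_cons, List.length_nil]; omega)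
        (by simpa [List.append_assoc] using h2'.swap)
        (by simp only [List.length_append, List.length_cons, List.length_nil]; omega)
        (by
          intro l0 t ht
          have := hex l0 t ht
          simp only [List.length_append, List.length_cons, List.length_nil]
          constructor
          · intro h; have := this.1 h; omega
          · intro h; have := this.2 h; omega)
      rw [bump_bump, bump_bump] at h3'
      have hp : ([x] ++ ([y] ++ (A ++ B))).Perm (x :: A ++ y :: B) := by
        simp only [List.cons_append, List.nil_append]
        exact List.Perm.cons x List.perm_middle.symm
      rw [bump_perm hp] at h3'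
      have e1 : s + 2 * (x :: A).length = s + 1 + 1 + 2 * A.length := by
        rw [List.length_cons]; omega
      have e2 : h1 + (x :: A).length = h1 + 1 + A.length := by rw [List.length_cons]; omega
      have e3 : h2 + (x :: A).length = h2 + 1 + A.length := by rw [List.length_cons]; omega
      rw [e1, e2, e3]
      simpa [List.append_assoc] using h3'

end Pool.Agent.Few
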