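import Pool.Agent.Few.MOps

set_option autoImplicit false

/-!
# The machine: queue level

The status of the labels is described by two queues of tokens (one for each colour) and possibly one
exceptional label. All labels before the head of a queue are full, all labels behind its end are free.
-/

namespace Pool.Agent.Few

/-- Queue `q1` of colour `c` with head at number `h1`, queue `q2` of colour `!c` with head at `h2`. -/
def stq (c : Bool) (h1 : ℕ) (q1 : List St) (h2 : ℕ) (q2 : List St) (l : Lab) : St :=
  if l.1 = c then (if l.2 < h1 then .full else q1.getD (l.2 - h1) .free)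
  else (if l.2 < h2 then .full else q2.getD (l.2 - h2) .free)

/-- The exceptional label. -/
def exq (ex : Option (Lab × St)) (st : Lab → St) : Lab → St :=
  match ex with
  | none => st
  | some (l0, t) => Function.update st l0 t

/-- The queue state. -/
def MQ (s : ℕ) (c : Bool) (h1 : ℕ) (q1 : List St) (h2 : ℕ) (q2 : List St)
    (ex : Option (Lab × St)) (C : Cfg) : Prop :=
  G s (exq ex (stq c h1 q1 h2 q2)) C

/-- `l` is not the exceptional label. -/
def NotEx (ex : Option (Lab × St)) (l : Lab) : Prop := ∀ l0 t, ex = some (l0, t) → l ≠ l0

/-- `bump L w`: the half strands of the names in `L` have been extended by one vertex each (as often as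
they occur in `L`). -/
def bump (L : List ℕ) (C : Cfg) : Cfg := { C with w := fun x => C.w x + L.count x }

/-- Exchange of the two queues. -/
theorem MQ.swap {s : ℕ} {c : Bool} {h1 h2 : ℕ} {q1 q2 : List St} {ex : Option (Lab × St)} {C : Cfg}
    (h : MQ s c h1 q1 h2 q2 ex C) : MQ s (!c) h2 q2 h1 q1 ex C := by
  have key : exq ex (stq c h1 q1 h2 q2) = exq ex (stq (!c) h2 q2 h1 q1) := by
    have : stq c h1 q1 h2 q2 = stq (!c) h2 q2 h1 q1 := by
      funext l
      rcases l with ⟨b, i⟩
      cases b <;> cases c <;> simp [stq]
    rw [this]
  unfold MQ at h ⊢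
  rw [← key]
  exact h

end Pool.Agent.Few
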