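import Pool.Agent.Few.MQDefs

set_option autoImplicit false

/-! # Queue level: lemmas on the status function -/

namespace Pool.Agent.Few

/-- One queue. -/
def qf (h : ℕ) (q : List St) (n : ℕ) : St := if n < h then .full else q.getD (n - h) .free

theorem stq_eq (c : Bool) (h1 : ℕ) (q1 : List St) (h2 : ℕ) (q2 : List St) (l : Lab) :
    stq c h1 q1 h2 q2 l = if l.1 = c then qf h1 q1 l.2 else qf h2 q2 l.2 := rfl

theorem qf_lt {h n : ℕ} {q : List St} (hn : n < h) : qf h q n = .full := by
  rw [qf, if_pos hn]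

theorem qf_head {h : ℕ} {t : St} {q : List St} : qf h (t :: q) h = t := by
  rw [qf, if_neg (lt_irrefl _)]; simp

theorem qf_tail {h n : ℕ} {t : St} {q : List St} (hn : n ≠ h) : qf h (t :: q) n = qf (h + 1) q n := by
  unfold qf
  rcases lt_trichotomy n h with h1 | h1 | h1
  · rw [if_pos h1, if_pos (by omega)]
  · exact absurd h1 hn
  · rw [if_neg (by omega), if_neg (by omega)]
    obtain ⟨m, rfl⟩ : ∃ m, n = h + 1 + m := ⟨n - (h + 1), by omega⟩
    have e1 : h + 1 + m - h = m + 1 := by omega
    have e2 : h + 1 + m - (h + 1) = m := by omega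
    rw [e1, e2, List.getD_cons_succ]

theorem qf_back {h : ℕ} {t : St} {q : List St} : qf h (q ++ [t]) (h + q.length) = t := by
  rw [qf, if_neg (by omega)]
  have : h + q.length - h = q.length := by omega
  rw [this, List.getD_append_right _ _ _ _ le_rfl]; simp

theorem qf_back_ne {h n : ℕ} {t : St} {q : List St} (hn : n ≠ h + q.length) :
    qf h (q ++ [t]) n = qf h q n := by
  unfold qf
  split_ifs with h1
  · rfl
  · rcases lt_or_gt_of_ne hn with h2 | h2
    · rw [List.getD_append _ _ _ _ (by omega)]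
    · rw [List.getD_append_right _ _ _ _ (by omega), List.getD_eq_default _ _ (by simp; omega),
        List.getD_eq_default _ _ (by omega)]

theorem qf_ge {h n : ℕ} {q : List St} (hn : h + q.length ≤ n) : qf h q n = .free := by
  rw [qf, if_neg (by omega), List.getD_eq_default _ _ (by omega)]

theorem qf_push {h : ℕ} {q : List St} : qf h (q ++ [.free]) = qf h q := by
  funext n
  by_cases hn : n = h + q.length
  · rw [hn, qf_back, qf_ge le_rfl]
  · exact qf_back_ne hn

theorem qf_drop {h : ℕ} {q : List St} : qf h (.full :: q) = qf (h + 1) q := by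
  funext n
  by_cases hn : n = h
  · rw [hn, qf_head, qf_lt (by omega)]
  · exact qf_tail hn

theorem qf_map {f : St → St} (h1 : f .full = .full) (h2 : f .free = .free) {h n : ℕ} {q : List St} :
    f (qf h q n) = qf h (q.map f) n := by
  unfold qf
  split_ifs
  · exact h1
  · rw [← h2, List.getD_map, h2]

theorem stq_swap (c : Bool) (h1 : ℕ) (q1 : List St) (h2 : ℕ) (q2 : List St) :
    stq (!c) h2 q2 h1 q1 = stq c h1 q1 h2 q2 := by
  funext l
  rw [stq_eq, stq_eq]
  rcases l with ⟨b, n⟩
  cases b <;> cases c <;> simp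

theorem stq_head {c : Bool} {h1 h2 : ℕ} {q1 q2 : List St} {t : St} :
    stq c h1 (t :: q1) h2 q2 (c, h1) = t := by
  rw [stq_eq, if_pos rfl]; exact qf_head

theorem stq_back1 {c : Bool} {h1 h2 : ℕ} {q1 q2 : List St} {t : St} :
    stq c h1 (q1 ++ [t]) h2 q2 (c, h1 + q1.length) = t := by
  rw [stq_eq, if_pos rfl]; exact qf_back

theorem stq_head2 {c : Bool} {h1 h2 : ℕ} {q1 q2 : List St} {t : St} :
    stq c h1 q1 h2 (t :: q2) (!c, h2) = t := by
  rw [stq_eq, if_neg (by cases c <;> simp)]; exact qf_head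

theorem stq_free1 {c : Bool} {h1 h2 n : ℕ} {q1 q2 : List St} (hn : h1 + q1.length ≤ n) :
    stq c h1 q1 h2 q2 (c, n) = .free := by
  rw [stq_eq, if_pos rfl]; exact qf_ge hn

theorem stq_free2 {c : Bool} {h1 h2 n : ℕ} {q1 q2 : List St} (hn : h2 + q2.length ≤ n) :
    stq c h1 q1 h2 q2 (!c, n) = .free := by
  rw [stq_eq, if_neg (by cases c <;> simp)]; exact qf_ge hn

theorem stq_full1 {c : Bool} {h1 h2 n : ℕ} {q1 q2 : List St} (hn : n < h1) :
    stq c h1 q1 h2 q2 (c, n) = .full := by
  rw [stq_eq, if_pos rfl]; exact qf_lt hn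

/-- An update in the first queue. -/
theorem stq_upd1 {c : Bool} {h1 h2 n : ℕ} {q1 q2 : List St} {t : St} {h1' : ℕ} {q1' : List St}
    (e : qf h1' q1' n = t) (e' : ∀ m, m ≠ n → qf h1' q1' m = qf h1 q1 m) :
    Function.update (stq c h1 q1 h2 q2) (c, n) t = stq c h1' q1' h2 q2 := by
  funext l
  rcases l with ⟨b, m⟩
  by_cases hl : (b, m) = (c, n)
  · rw [hl, Function.update_self, stq_eq, if_pos rfl, e]
  · rw [Function.update_of_ne hl, stq_eq, stq_eq]
    by_cases hb : b = c
    · rw [if_pos hb, if_pos hb]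
      exact (e' m fun h => hl (by rw [hb, h])).symm
    · rw [if_neg hb, if_neg hb]

/-- An update in the second queue. -/
theorem stq_upd2 {c : Bool} {h1 h2 n : ℕ} {q1 q2 : List St} {t : St} {h2' : ℕ} {q2' : List St}
    (e : qf h2' q2' n = t) (e' : ∀ m, m ≠ n → qf h2' q2' m = qf h2 q2 m) :
    Function.update (stq c h1 q1 h2 q2) (!c, n) t = stq c h1 q1 h2' q2' := by
  rw [← stq_swap c h1 q1 h2 q2, ← stq_swap c h1 q1 h2' q2']
  exact stq_upd1 e e'

theorem stq_map {f : St → St} (hf : f .full = .full) (hf' : f .free = .free) (c : Bool) (h1 : ℕ)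
    (q1 : List St) (h2 : ℕ) (q2 : List St) :
    f ∘ stq c h1 q1 h2 q2 = stq c h1 (q1.map f) h2 (q2.map f) := by
  funext l
  rw [Function.comp_apply, stq_eq, stq_eq]
  split_ifs
  · exact qf_map hf hf'
  · exact qf_map hf hf'

theorem stq_drop2 {c : Bool} {h1 h2 : ℕ} {q1 q2 : List St} :
    stq c h1 q1 h2 (.full :: q2) = stq c h1 q1 (h2 + 1) q2 := by
  funext l
  rw [stq_eq, stq_eq, qf_drop]

theorem exq_apply {ex : Option (Lab × St)} {st : Lab → St} {l : Lab} (h : NotEx ex l) :
    exq ex st l = st l := by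
  cases ex with
  | none => rfl
  | some p => exact Function.update_of_ne (h p.1 p.2 rfl) _ _

theorem exq_update {ex : Option (Lab × St)} {st : Lab → St} {l : Lab} (t : St) (h : NotEx ex l) :
    Function.update (exq ex st) l t = exq ex (Function.update st l t) := by
  cases ex with
  | none => rfl
  | some p => exact Function.update_comm (h p.1 p.2 rfl).symm _ _ _

theorem exq_map (f : St → St) (ex : Option (Lab × St)) (st : Lab → St) :
    f ∘ exq ex st = exq (ex.map fun p => (p.1, f p.2)) (f ∘ st) := by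
  cases ex with
  | none => rfl
  | some p => exact Function.comp_update f st p.1 p.2

theorem bump_single (x : ℕ) (C : Cfg) :
    bump [x] C = { C with w := Function.update C.w x (C.w x + 1) } := by
  unfold bump
  congr 1
  funext u
  by_cases h : u = x
  · subst h; simp
  · rw [Function.update_of_ne h]; simp [Ne.symm h]

theorem bump_bump (L M : List ℕ) (C : Cfg) : bump L (bump M C) = bump (M ++ L) C := by
  unfold bump
  congr 1
  funext u
  simp [List.count_append, add_assoc]

theorem bump_perm {L M : List ℕ} (h : L.Perm M) (C : Cfg) : bump L C = bump M C := by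
  unfold bump
  congr 1
  funext u
  rw [h.count_eq]

end Pool.Agent.Few
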