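import Pool.Agent.Few.MQ1
import Pool.Agent.Few.MQ2
import Pool.Agent.Few.MQ3
import Pool.Agent.Few.MQ4
import Pool.Agent.Few.MQ5

/-! # The queue level (collection) -/
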